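import Mathlib

set_option autoImplicit false

/-!
# Random points in the plane: directed `k`-edges (definitions)
-/

namespace Pool.Agent.N378.SK

open MeasureTheory

/-- `det3 p q r` is twice the signed area of the triangle `p q r`; it is positive iff `r` lies
strictly to the left of the directed line from `p` to `q`. -/
def det3 (p q r : ℝ × ℝ) : ℝ := (q.1 - p.1) * (r.2 - p.2) - (q.2 - p.2) * (r.1 - p.1)

/-- The number of the points `x l` strictly to the left of the directed line from `x i` to `x j`. -/
noncomputable def leftCount {n : ℕ} (x : Fin n → ℝ × ℝ) (i j : Fin n) : ℕ :=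
  Nat.card {l : Fin n // 0 < det3 (x i) (x j) (x l)}

/-- The number of directed `k`-edges: ordered pairs of different indices `(i, j)` such that exactly
`k` of the points lie strictly to the left of the directed line from `x i` to `x j`. -/
noncomputable def kEdges {n : ℕ} (x : Fin n → ℝ × ℝ) (k : ℕ) : ℕ :=
  Nat.card {p : Fin n × Fin n // p.1 ≠ p.2 ∧ leftCount x p.1 p.2 = k}

/-- The number of bisectors (halving lines): pairs `i < j` such that each of the two open half
planes bounded by the line through `x i` and `x j` contains exactly `n / 2 - 1` of the points. -/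
noncomputable def bisectors {n : ℕ} (x : Fin n → ℝ × ℝ) : ℕ :=
  Nat.card {p : Fin n × Fin n // p.1 < p.2 ∧ leftCount x p.1 p.2 = n / 2 - 1 ∧
    leftCount x p.2 p.1 = n / 2 - 1}

/-- The square `[-1, 1] × [-1, 1]`. -/
def square : Set (ℝ × ℝ) := Set.Icc (-1) 1 ×ˢ Set.Icc (-1) 1

end Pool.Agent.N378.SK
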