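import Pool.Agent.N378.SK.L_FIN3

set_option autoImplicit false

/-!
# Project SK: the bound with exponent 1/3
-/

namespace Pool.Agent.N378.SK

open MeasureTheory Finset
open scoped ENNReal

theorem rp5 {x : ℝ} (hx : 0 < x) : (x ^ 3) ^ (2 / 3 : ℝ) = x ^ 2 := by
  rw [← Real.rpow_natCast, ← Real.rpow_mul hx.le, ← Real.rpow_natCast]
  norm_num

theorem fin2 (h1 : S_LONG) (h2 : S_SH2) (h3 : S_GP) : S_FIN := by
  classical
  intro n p σ k hn hσ hp
  have hn' : (0 : ℝ) < n := by exact_mod_cast hn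
  have hk : (0 : ℝ) < k + 1 := by positivity
  obtain ⟨a, ha, han⟩ := FIN3.root hn' 3 (by norm_num)
  obtain ⟨c, hc, hck⟩ := FIN3.root hk 3 (by norm_num)
  obtain ⟨d, hd, hdσ⟩ := FIN3.root hσ 3 (by norm_num)
  have hT : 0 < c ^ 2 * d / a ^ 2 := by positivity
  have hs : Real.sqrt (c ^ 2 * d / a ^ 2 / σ) = c / (a * d) := by
    have : c ^ 2 * d / a ^ 2 / σ = (c / (a * d)) ^ 2 := by
      rw [← hdσ]
      field_simp
    rw [this, Real.sqrt_sq (by positivity)]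
  have hB := h2 n p σ (c ^ 2 * d / a ^ 2) k hσ hT
  have h := FIN3.comb h1 h3 n (ENNReal.ofReal (1 / (4 * σ ^ 2))) (fun i => unif (p i) σ) k
    (c ^ 2 * d / a ^ 2) (24 * n * Real.sqrt (c ^ 2 * d / a ^ 2 / σ)) ENNReal.ofReal_ne_top
    (fun i => unif_prob (p i) σ hσ) (fun i => unif_le (p i) σ hσ (hp i)) hT (by positivity) hB
  refine h.trans (ENNReal.ofReal_le_ofReal (le_of_eq ?_))
  rw [hs, ← hck, ← hdσ, ← han, FIN3.rp4 hd, FIN3.rp4 hc, rp5 ha]
  field_simp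
  ring

end Pool.Agent.N378.SK
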