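import Pool.Agent.N378.SK.Stm

set_option autoImplicit false

/-!
# Two directed edges for every bisector (helper395)
-/

namespace Pool.Agent.N378.SK

theorem t_BIS : S_BIS := by
  intro n x
  let f : {p : Fin n × Fin n // p.1 < p.2 ∧ leftCount x p.1 p.2 = n / 2 - 1 ∧
      leftCount x p.2 p.1 = n / 2 - 1} × Bool →
      {p : Fin n × Fin n // p.1 ≠ p.2 ∧ leftCount x p.1 p.2 = n / 2 - 1} := fun q =>
    match q.2 with
    | true => ⟨(q.1.1.1, q.1.1.2), ne_of_lt q.1.2.1, q.1.2.2.1⟩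
    | false => ⟨(q.1.1.2, q.1.1.1), (ne_of_lt q.1.2.1).symm, q.1.2.2.2⟩
  have hf : Function.Injective f := by
    rintro ⟨⟨⟨i, j⟩, h1, h2, h3⟩, b⟩ ⟨⟨⟨i', j'⟩, h1', h2', h3'⟩, b'⟩ h
    have h4 := congrArg Subtype.val h
    rcases b with _ | _ <;> rcases b' with _ | _
    · have h5 : (j, i) = (j', i') := h4
      rw [Prod.mk.injEq] at h5
      obtain ⟨rfl, rfl⟩ := h5
      rfl
    · have h5 : (j, i) = (i', j') := h4
      rw [Prod.mk.injEq] at h5
      obtain ⟨rfl, rfl⟩ := h5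
      exact absurd h1' (not_lt_of_gt h1)
    · have h5 : (i, j) = (j', i') := h4
      rw [Prod.mk.injEq] at h5
      obtain ⟨rfl, rfl⟩ := h5
      exact absurd h1' (not_lt_of_gt h1)
    · have h5 : (i, j) = (i', j') := h4
      rw [Prod.mk.injEq] at h5
      obtain ⟨rfl, rfl⟩ := h5
      rfl
  have h := Nat.card_le_card_of_injective f hf
  rw [Nat.card_prod, Nat.card_eq_fintype_card (α := Bool), Fintype.card_bool] at h
  unfold bisectors kEdges
  omega

end Pool.Agent.N378.SK
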