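import Pool.Agent.N378.SK.Stm

set_option autoImplicit false

/-!
# The sum of the bounds for the long and the short `k`-edges
-/

namespace Pool.Agent.N378.SK

open MeasureTheory Finset
open scoped ENNReal

theorem t_COMB (h1 : S_LONG) (h2 : S_SHORT) (h3 : S_GP) (h4 : S_MEAS) : S_COMB := by
  classical
  intro n D μ k t hD hP hμ ht
  have := hP
  have hgp := h3 n D μ hD hP hμ
  have hshort := h2 n D μ k t hD hP hμ ht
  have key : ∀ᵐ x ∂(Measure.pi μ), (kEdges x k : ℝ≥0∞) ≤ ENNReal.ofReal (8 * (k + 1) / t) +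
      (((KE x k).filter fun p => ‖x p.2 - x p.1‖ < t).card : ℝ≥0∞) := by
    filter_upwards [hgp] with x hx
    have hk : kEdges x k = (KE x k).card := by
      unfold kEdges KE
      rw [Nat.card_eq_fintype_card, Fintype.card_subtype]
    have hs : (KE x k).card = ((KE x k).filter fun p => t ≤ ‖x p.2 - x p.1‖).card +
        ((KE x k).filter fun p => ‖x p.2 - x p.1‖ < t).card := by
      rw [← Finset.card_filter_add_card_filter_not (s := KE x k)
        (fun p => t ≤ ‖x p.2 - x p.1‖)]
      simp only [not_le]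
    have hl := h1 n x k t hx.1 hx.2 ht
    rw [← le_div_iff₀ ht] at hl
    rw [hk, hs, Nat.cast_add]
    refine add_le_add ?_ le_rfl
    rw [← ENNReal.ofReal_natCast]
    refine ENNReal.ofReal_le_ofReal ?_
    convert hl
  calc ∫⁻ x, (kEdges x k : ℝ≥0∞) ∂(Measure.pi μ)
      ≤ ∫⁻ x, (ENNReal.ofReal (8 * (k + 1) / t) +
        (((KE x k).filter fun p => ‖x p.2 - x p.1‖ < t).card : ℝ≥0∞)) ∂(Measure.pi μ) :=
        lintegral_mono_ae key
    _ = ENNReal.ofReal (8 * (k + 1) / t) +
        ∫⁻ x, (((KE x k).filter fun p => ‖x p.2 - x p.1‖ < t).card : ℝ≥0∞) ∂(Measure.pi μ) := by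
        rw [lintegral_add_left measurable_const, lintegral_const, measure_univ, mul_one]
    _ ≤ _ := by
        refine add_le_add le_rfl ?_
        convert hshort

end Pool.Agent.N378.SK

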