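import Pool.Agent.N378.SK.Stm

/-!
# The deterministic core of the bound for short `k`-edges (helper505, project SK of helper378)
-/

set_option autoImplicit false

namespace Pool.Agent.N378.SK

open MeasureTheory Finset
open scoped ENNReal

namespace CoreAux

/-- the determinant -/
def DD (v p : ℝ × ℝ) : ℝ := v.1 * p.2 - v.2 * p.1

theorem det3_eq (p q v : ℝ × ℝ) : det3 p (p + v) q = DD v q - DD v p := by
  simp only [det3, DD, Prod.fst_add, Prod.snd_add]
  ring

open Classical in
/-- the number of the points with a larger value -/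
noncomputable def rk {n : ℕ} (x : Fin n → ℝ × ℝ) (j i : Fin n) (v : ℝ × ℝ) : ℕ :=
  ((univ.erase j).filter fun l => DD v (x i) < DD v (x l)).card

theorem leftCount_eq {n : ℕ} (x : Fin n → ℝ × ℝ) (j i : Fin n) (hij : i ≠ j) (y : ℝ × ℝ) :
    leftCount (Function.update x j y) i j = rk x j i (y - x i) := by
  classical
  unfold leftCount rk
  rw [Nat.card_eq_fintype_card, Fintype.card_subtype]
  congr 1
  ext l
  rw [mem_filter, mem_filter, mem_erase]
  have e : ∀ q, det3 (x i) y q = DD (y - x i) q - DD (y - x i) (x i) := by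
    intro q
    rw [← det3_eq, add_sub_cancel]
  rw [Function.update_self, Function.update_of_ne hij, e]
  constructor
  · rintro ⟨-, h⟩
    by_cases hl : l = j
    · exfalso
      rw [hl, Function.update_self] at h
      simp only [DD, Prod.fst_sub, Prod.snd_sub] at h
      apply lt_irrefl (0 : ℝ)
      calc (0 : ℝ) < _ := h
        _ = 0 := by ring
    · rw [Function.update_of_ne hl] at h
      exact ⟨⟨hl, mem_univ _⟩, by linarith⟩
  · rintro ⟨⟨hl, -⟩, h⟩
    rw [Function.update_of_ne hl]
    exact ⟨mem_univ _, by linarith⟩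

theorem cont_DD (p : ℝ × ℝ) : Continuous fun v => DD v p := by
  unfold DD
  fun_prop

theorem meas_rk {n : ℕ} (x : Fin n → ℝ × ℝ) (j i : Fin n) : Measurable (rk x j i) := by
  classical
  have h : rk x j i = fun v => ∑ l ∈ univ.erase j, if DD v (x i) < DD v (x l) then 1 else 0 := by
    funext v
    unfold rk
    rw [card_filter]
  rw [h]
  refine Finset.measurable_fun_sum _ fun l _ => ?_
  exact Measurable.ite (measurableSet_lt (cont_DD _).measurable (cont_DD _).measurable)
    measurable_const measurable_const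

theorem eq_of_rk {n : ℕ} (x : Fin n → ℝ × ℝ) {j i l : Fin n} (hi : i ≠ j) (hl : l ≠ j)
    (v : ℝ × ℝ) (h : rk x j i v = rk x j l v) : DD v (x i) = DD v (x l) := by
  classical
  have key : ∀ i l : Fin n, l ≠ j → DD v (x i) < DD v (x l) → rk x j l v < rk x j i v := by
    intro i l hl hlt
    unfold rk
    apply card_lt_card
    rw [ssubset_iff_of_subset]
    · refine ⟨l, mem_filter.2 ⟨mem_erase.2 ⟨hl, mem_univ _⟩, hlt⟩, fun h => ?_⟩
      exact lt_irrefl _ (mem_filter.1 h).2
    · intro m hm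
      rw [mem_filter] at hm ⊢
      exact ⟨hm.1, hlt.trans hm.2⟩
  rcases lt_trichotomy (DD v (x i)) (DD v (x l)) with h1 | h1 | h1
  · exact absurd h (key i l hl h1).ne'
  · exact h1
  · exact absurd h (key l i hi h1).ne

/-- the linear form -/
noncomputable def lf (c : ℝ × ℝ) : ℝ × ℝ →ₗ[ℝ] ℝ :=
  c.2 • LinearMap.fst ℝ ℝ ℝ - c.1 • LinearMap.snd ℝ ℝ ℝ

theorem lf_apply (c v : ℝ × ℝ) : lf c v = DD v c := by
  simp only [lf, DD, LinearMap.sub_apply, LinearMap.smul_apply, LinearMap.fst_apply,
    LinearMap.snd_apply, smul_eq_mul]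
  ring

theorem null_line (c : ℝ × ℝ) (hc : c ≠ 0) : volume {v : ℝ × ℝ | DD v c = 0} = 0 := by
  have h1 : {v : ℝ × ℝ | DD v c = 0} = ((LinearMap.ker (lf c) : Submodule ℝ (ℝ × ℝ)) : Set (ℝ × ℝ)) := by
    ext v
    rw [SetLike.mem_coe, LinearMap.mem_ker, lf_apply]
    rfl
  rw [h1]
  refine Measure.addHaar_submodule volume _ fun htop => ?_
  have h2 : (c.2, -c.1) ∈ LinearMap.ker (lf c) := by rw [htop]; exact Submodule.mem_top
  rw [LinearMap.mem_ker, lf_apply] at h2
  simp only [DD] at h2
  have h3 : c.1 ^ 2 + c.2 ^ 2 = 0 := by linarith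
  have h4 : c.1 = 0 := by nlinarith [sq_nonneg c.1, sq_nonneg c.2]
  have h5 : c.2 = 0 := by nlinarith [sq_nonneg c.1, sq_nonneg c.2]
  exact hc (Prod.ext h4 h5)

theorem vol_ball {t : ℝ} (ht : 0 < t) :
    volume (Metric.ball (0 : ℝ × ℝ) t) = ENNReal.ofReal (4 * t ^ 2) := by
  have h : Metric.ball (0 : ℝ × ℝ) t = Metric.ball (0 : ℝ) t ×ˢ Metric.ball (0 : ℝ) t :=
    (ball_prod_same (0 : ℝ) (0 : ℝ) t).symm
  rw [h, Measure.volume_eq_prod, Measure.prod_prod, Real.volume_ball,
    ← ENNReal.ofReal_mul (by linarith)]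
  congr 1
  ring

end CoreAux

open CoreAux in
/-- **the deterministic core** -/
theorem t_CORE : S_CORE := by
  intro n x j k t ht hx
  classical
  have hvol : ∀ i ∈ univ.erase j,
      volume {y : ℝ × ℝ | ‖y - x i‖ < t ∧ leftCount (Function.update x j y) i j = k} =
      volume {v : ℝ × ℝ | ‖v‖ < t ∧ rk x j i v = k} := by
    intro i hi
    have hij := (mem_erase.1 hi).1
    have e : {y : ℝ × ℝ | ‖y - x i‖ < t ∧ leftCount (Function.update x j y) i j = k} =
        (fun y => y + (-x i)) ⁻¹' {v : ℝ × ℝ | ‖v‖ < t ∧ rk x j i v = k} := by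
      ext y
      simp only [Set.mem_ofPred_eq, Set.mem_preimage, ← sub_eq_add_neg, leftCount_eq x j i hij]
    rw [e, measure_preimage_add_right]
  rw [sum_congr rfl hvol]
  have hms : ∀ i, MeasurableSet {v : ℝ × ℝ | ‖v‖ < t ∧ rk x j i v = k} := by
    intro i
    exact (measurableSet_lt measurable_norm measurable_const).inter
      ((meas_rk x j i) (measurableSet_singleton k))
  rw [← measure_biUnion_finset₀ (μ := volume) (s := univ.erase j)
    (f := fun i => {v : ℝ × ℝ | ‖v‖ < t ∧ rk x j i v = k})]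
  · rw [← vol_ball ht]
    refine measure_mono ?_
    intro v hv
    simp only [Set.mem_iUnion] at hv
    obtain ⟨i, -, hv⟩ := hv
    rw [Metric.mem_ball, dist_zero_right]
    exact hv.1
  · intro i hi l hl hil
    have hij := (mem_erase.1 (mem_coe.1 hi)).1
    have hlj := (mem_erase.1 (mem_coe.1 hl)).1
    have hne : x i - x l ≠ 0 := sub_ne_zero.2 (hx i l hij hlj hil)
    refine measure_mono_null ?_ (null_line _ hne)
    rintro v ⟨h1, h2⟩
    have h3 := eq_of_rk x hij hlj v (h1.2.trans h2.2.symm)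
    show DD v (x i - x l) = 0
    have h4 : DD v (x i - x l) = DD v (x i) - DD v (x l) := by
      simp only [DD, Prod.fst_sub, Prod.snd_sub]
      ring
    rw [h4, h3, sub_self]
  · intro i _
    exact (hms i).nullMeasurableSet

end Pool.Agent.N378.SK
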