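import Pool.Agent.N378.SK.Stm3

set_option autoImplicit false

/-!
# Leaf `S_COV` of project SK: covering of the heavy points
-/

namespace Pool.Agent.N378.SK

open MeasureTheory Finset
open scoped ENNReal

theorem t_COV : S_COV := by
  classical
  intro n p T M hT hM
  set H : Finset (Fin n) := univ.filter fun i => (n : ℝ) / M < bc p T i with hH
  set F : Finset (Finset (Fin n)) := H.powerset.filter fun Z =>
    ∀ z ∈ Z, ∀ z' ∈ Z, z ≠ z' → 6 * T < ‖p z - p z'‖ with hF
  have hFne : F.Nonempty := ⟨∅, by simp [hF]⟩
  obtain ⟨Z, hZF, hZmax⟩ := F.exists_max_image (fun Z => Z.card) hFne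
  rw [hF, mem_filter, mem_powerset] at hZF
  obtain ⟨hZH, hZsep⟩ := hZF
  refine ⟨Z, ?_, ?_⟩
  · rcases Z.eq_empty_or_nonempty with h0 | ⟨z0, hz0⟩
    · rw [h0]; simpa using hM.le
    · have hn : (0 : ℝ) < n := by
        have : 0 < n := lt_of_le_of_lt (Nat.zero_le _) z0.2
        exact_mod_cast this
      have hdisj : (Z : Set (Fin n)).PairwiseDisjoint
          (fun z => univ.filter fun j => ‖p j - p z‖ ≤ 3 * T) := by
        intro z hz z' hz' hne
        rw [Function.onFun, Finset.disjoint_left]
        intro j hj hj'
        rw [mem_filter] at hj hj'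
        have h1 := hZsep z hz z' hz' hne
        have h2 : ‖p z - p z'‖ ≤ ‖p z - p j‖ + ‖p j - p z'‖ := norm_sub_le_norm_sub_add_norm_sub _ _ _
        rw [norm_sub_rev (p z) (p j)] at h2
        linarith [hj.2, hj'.2]
      have hsum : (∑ z ∈ Z, (univ.filter fun j => ‖p j - p z‖ ≤ 3 * T).card) ≤ n := by
        rw [← Finset.card_biUnion hdisj]
        exact le_trans (Finset.card_le_univ _) (by simp)
      have hlow : (Z.card : ℝ) * ((n : ℝ) / M) ≤
          ((∑ z ∈ Z, (univ.filter fun j => ‖p j - p z‖ ≤ 3 * T).card : ℕ) : ℝ) := by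
        push_cast
        rw [← nsmul_eq_mul]
        refine Finset.card_nsmul_le_sum _ _ _ ?_
        intro z hz
        have h1 := hZH hz
        rw [hH, mem_filter] at h1
        have h2 := h1.2.le
        unfold bc at h2
        convert h2 using 3
      have h3 : (Z.card : ℝ) * ((n : ℝ) / M) ≤ n := le_trans hlow (by exact_mod_cast hsum)
      rw [mul_div_assoc', div_le_iff₀ hM] at h3
      exact le_of_mul_le_mul_right (by linarith) hn
  · intro i hi
    by_contra hcon
    push Not at hcon
    have hiZ : i ∉ Z := by
      intro hiZ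
      have := hcon i hiZ
      simp at this
      linarith
    have hmem : insert i Z ∈ F := by
      rw [hF, mem_filter, mem_powerset]
      refine ⟨?_, ?_⟩
      · intro z hz
        rw [mem_insert] at hz
        rcases hz with rfl | hz
        · rw [hH, mem_filter]; exact ⟨mem_univ _, hi⟩
        · exact hZH hz
      · intro z hz z' hz' hne
        rw [mem_insert] at hz hz'
        rcases hz with rfl | hz
        · rcases hz' with rfl | hz'
          · exact absurd rfl hne
          · exact hcon z' hz'
        · rcases hz' with rfl | hz'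
          · rw [norm_sub_rev]; exact hcon z hz
          · exact hZsep z hz z' hz' hne
    have := hZmax _ hmem
    rw [Finset.card_insert_of_notMem hiZ] at this
    omega

end Pool.Agent.N378.SK
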