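import Pool.Agent.N378.SK.Stm3

set_option autoImplicit false

/-!
# Project SK: all scales below `T`

By helper394.
-/

namespace Pool.Agent.N378.SK

open MeasureTheory Finset
open scoped ENNReal

namespace DYaux

open Classical in
/-- measurability of the number of the short edges -/
theorem meas_short (h3 : S_MEAS) (n k : ℕ) (T : ℝ) :
    Measurable (fun x : Fin n → ℝ × ℝ =>
      (((KE x k).filter fun e => ‖x e.2 - x e.1‖ < T).card : ℝ≥0∞)) := by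
  have h : (fun x : Fin n → ℝ × ℝ =>
      (((KE x k).filter fun e => ‖x e.2 - x e.1‖ < T).card : ℝ≥0∞)) =
      fun x => ∑ e : Fin n × Fin n,
        ({x : Fin n → ℝ × ℝ | e.1 ≠ e.2 ∧ leftCount x e.1 e.2 = k ∧
          ‖x e.2 - x e.1‖ < T}).indicator (fun _ => (1 : ℝ≥0∞)) x := by
    funext x
    unfold KE
    rw [filter_filter, card_filter, Nat.cast_sum]
    refine sum_congr rfl fun e _ => ?_
    by_cases h : x ∈ {x : Fin n → ℝ × ℝ | e.1 ≠ e.2 ∧ leftCount x e.1 e.2 = k ∧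
        ‖x e.2 - x e.1‖ < T}
    · have h' : e.1 ≠ e.2 ∧ leftCount x e.1 e.2 = k ∧ ‖x e.2 - x e.1‖ < T := h
      rw [if_pos ⟨⟨h'.1, h'.2.1⟩, h'.2.2⟩, Set.indicator_of_mem h, Nat.cast_one]
    · rw [if_neg fun h' => h ⟨h'.1.1, h'.1.2, h'.2⟩, Set.indicator_of_notMem h, Nat.cast_zero]
  rw [h]
  refine Finset.measurable_sum _ fun e _ => ?_
  refine Measurable.indicator measurable_const ?_
  refine MeasurableSet.inter (MeasurableSet.const _) (MeasurableSet.inter (h3 n e.1 e.2 k) ?_)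
  have hm : Measurable (fun x : Fin n → ℝ × ℝ => ‖x e.2 - x e.1‖) :=
    ((measurable_pi_apply e.2).sub (measurable_pi_apply e.1)).norm
  exact measurableSet_lt hm measurable_const

open Classical in
/-- splitting off the largest scale -/
theorem split (h3 : S_MEAS) (n k : ℕ) (T : ℝ) (μ : Measure (Fin n → ℝ × ℝ)) :
    ∫⁻ x, (((KE x k).filter fun e => ‖x e.2 - x e.1‖ < T).card : ℝ≥0∞) ∂μ ≤
      ∫⁻ x, (((KE x k).filter fun e => ‖x e.2 - x e.1‖ < T / 2).card : ℝ≥0∞) ∂μ +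
      ∫⁻ x, (((KE x k).filter fun e => T / 2 ≤ ‖x e.2 - x e.1‖ ∧
        ‖x e.2 - x e.1‖ < T).card : ℝ≥0∞) ∂μ := by
  rw [← lintegral_add_left (meas_short h3 n k (T / 2))]
  refine lintegral_mono fun x => ?_
  have h1 : ((KE x k).filter fun e => ‖x e.2 - x e.1‖ < T) ⊆
      ((KE x k).filter fun e => ‖x e.2 - x e.1‖ < T / 2) ∪
      ((KE x k).filter fun e => T / 2 ≤ ‖x e.2 - x e.1‖ ∧ ‖x e.2 - x e.1‖ < T) := by
    intro e he
    rw [mem_filter] at he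
    rw [mem_union, mem_filter, mem_filter]
    rcases lt_or_ge ‖x e.2 - x e.1‖ (T / 2) with h | h
    · exact Or.inl ⟨he.1, h⟩
    · exact Or.inr ⟨he.1, h, he.2⟩
  have h2 := (card_le_card h1).trans (card_union_le _ _)
  have h4 : (((KE x k).filter fun e => ‖x e.2 - x e.1‖ < T).card : ℝ≥0∞) ≤
      ((((KE x k).filter fun e => ‖x e.2 - x e.1‖ < T / 2).card +
        ((KE x k).filter fun e => T / 2 ≤ ‖x e.2 - x e.1‖ ∧ ‖x e.2 - x e.1‖ < T).card : ℕ) :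
          ℝ≥0∞) := Nat.cast_le.2 h2
  rw [Nat.cast_add] at h4
  exact h4

/-- the bound for one scale, as a number -/
theorem one_num {n k : ℕ} {σ T a c f : ℝ} (ha : 0 < a) (hc : 0 < c) (hf : 0 < f)
    (ha3 : a ^ 3 = n) (hc3 : c ^ 3 = k + 1) (hf3 : f ^ 3 = T / σ) (hσ : 0 < σ) :
    48 * n * Real.sqrt (T / ((a ^ 2 * f / c ^ 2) * σ)) + 128 * (k + 1) * (a ^ 2 * f / c ^ 2) =
      176 * (a ^ 2 * c * f) := by
  have h1 : T / ((a ^ 2 * f / c ^ 2) * σ) = (f * c / a) ^ 2 := by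
    have hT : T = f ^ 3 * σ := by
      rw [hf3]
      field_simp
    rw [hT]
    field_simp
  rw [h1, Real.sqrt_sq (by positivity), ← ha3, ← hc3]
  field_simp
  ring

theorem rpow_third_cube {x : ℝ} (hx : 0 ≤ x) : (x ^ (1 / 3 : ℝ)) ^ 3 = x := by
  rw [← Real.rpow_natCast, ← Real.rpow_mul hx]
  norm_num

theorem rpow_two_thirds {x : ℝ} (hx : 0 ≤ x) : x ^ (2 / 3 : ℝ) = (x ^ (1 / 3 : ℝ)) ^ 2 := by
  rw [← Real.rpow_natCast, ← Real.rpow_mul hx]
  norm_num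

theorem half_scale {f g t : ℝ} (hf : 0 ≤ f) (hf3 : f ^ 3 = t) (hg3 : g ^ 3 = t / 2) :
    g ≤ 4 / 5 * f := by
  refine le_of_pow_le_pow_left₀ (n := 3) (by norm_num) (by positivity) ?_
  rw [hg3, mul_pow, hf3]
  have ht : 0 ≤ t := by rw [← hf3]; positivity
  norm_num
  linarith

open Classical in
theorem dyadic (h1 : S_ONE) (h2 : S_SH2) (h3 : S_MEAS) (n : ℕ) (p : Fin n → ℝ × ℝ) (σ : ℝ) (k : ℕ)
    (hn : 0 < n) (hσ : 0 < σ) (hp : ∀ i, Metric.closedBall (p i) σ ⊆ square) {a c : ℝ} (ha : 0 < a)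
    (hc : 0 < c) (ha3 : a ^ 3 = n) (hc3 : c ^ 3 = k + 1) (r : ℕ) :
    ∀ T : ℝ, σ ≤ T → T < 2 ^ r * (2 * σ) →
      ∫⁻ x, (((KE x k).filter fun e => ‖x e.2 - x e.1‖ < T).card : ℝ≥0∞)
        ∂(Measure.pi fun i => unif (p i) σ) ≤
      ENNReal.ofReal (36 * n + 880 * (a ^ 2 * c * (T / σ) ^ (1 / 3 : ℝ))) := by
  have base : ∀ T : ℝ, σ ≤ T → T < 2 * σ →
      ∫⁻ x, (((KE x k).filter fun e => ‖x e.2 - x e.1‖ < T).card : ℝ≥0∞)
        ∂(Measure.pi fun i => unif (p i) σ) ≤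
      ENNReal.ofReal (36 * n + 880 * (a ^ 2 * c * (T / σ) ^ (1 / 3 : ℝ))) := by
    intro T hT1 hT2
    have hT0 : 0 < T := lt_of_lt_of_le hσ hT1
    refine (h2 n p σ T k hσ hT0).trans (ENNReal.ofReal_le_ofReal ?_)
    have e1 : Real.sqrt (T / σ) ≤ 3 / 2 := by
      rw [Real.sqrt_le_left (by norm_num)]
      have : T / σ ≤ 2 := by
        rw [div_le_iff₀ hσ]
        exact hT2.le
      linarith
    have e2 : 24 * (n : ℝ) * Real.sqrt (T / σ) ≤ 24 * n * (3 / 2) :=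
      mul_le_mul_of_nonneg_left e1 (by positivity)
    have e3 : 0 ≤ 880 * (a ^ 2 * c * (T / σ) ^ (1 / 3 : ℝ)) := by positivity
    linarith
  induction r with
  | zero =>
    intro T hT1 hT2
    exact base T hT1 (by simpa using hT2)
  | succ r ih =>
    intro T hT1 hT2
    rcases lt_or_ge T (2 * σ) with h | h
    · exact base T hT1 h
    have hT0 : 0 < T := lt_of_lt_of_le hσ hT1
    refine (split h3 n k T _).trans ?_
    have i1 := ih (T / 2) (by linarith) (by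
      rw [pow_succ] at hT2
      linarith)
    have hf3 : ((T / σ) ^ (1 / 3 : ℝ)) ^ 3 = T / σ := rpow_third_cube (by positivity)
    have hf : 0 < (T / σ) ^ (1 / 3 : ℝ) := Real.rpow_pos_of_pos (by positivity) _
    have hg3 : ((T / 2 / σ) ^ (1 / 3 : ℝ)) ^ 3 = T / σ / 2 := by
      rw [rpow_third_cube (by positivity)]
      ring
    have hg : 0 < (T / 2 / σ) ^ (1 / 3 : ℝ) := Real.rpow_pos_of_pos (by positivity) _
    have i2 := h1 n p σ T (a ^ 2 * (T / σ) ^ (1 / 3 : ℝ) / c ^ 2) k hσ hT1 (by positivity) hp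
    rw [one_num ha hc hf ha3 hc3 hf3 hσ] at i2
    refine (add_le_add i1 i2).trans ?_
    rw [← ENNReal.ofReal_add (by positivity) (by positivity)]
    refine ENNReal.ofReal_le_ofReal ?_
    have i3 := half_scale hf.le hf3 hg3
    have i4 : a ^ 2 * c * (T / 2 / σ) ^ (1 / 3 : ℝ) ≤
        a ^ 2 * c * (4 / 5 * (T / σ) ^ (1 / 3 : ℝ)) :=
      mul_le_mul_of_nonneg_left i3 (by positivity)
    linarith

end DYaux

open DYaux in
theorem t_DY (h1 : S_ONE) (h2 : S_SH2) (h3 : S_MEAS) : S_DY := by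
  classical
  intro n p σ T k hn hσ hT hp
  have hn' : (0 : ℝ) < n := Nat.cast_pos.2 hn
  have hk' : (0 : ℝ) < (k : ℝ) + 1 := by positivity
  have ha : 0 < (n : ℝ) ^ (1 / 3 : ℝ) := Real.rpow_pos_of_pos hn' _
  have hc : 0 < ((k : ℝ) + 1) ^ (1 / 3 : ℝ) := Real.rpow_pos_of_pos hk' _
  obtain ⟨r, hr⟩ := pow_unbounded_of_one_lt (T / (2 * σ)) (one_lt_two (α := ℝ))
  rw [div_lt_iff₀ (by positivity)] at hr
  have h := dyadic h1 h2 h3 n p σ k hn hσ hp ha hc (rpow_third_cube hn'.le)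
    (rpow_third_cube hk'.le) r T hT hr
  refine h.trans (ENNReal.ofReal_le_ofReal ?_)
  rw [rpow_two_thirds hn'.le]
  have hT0 : 0 < T := lt_of_lt_of_le hσ hT
  have h6 : 0 ≤ ((n : ℝ) ^ (1 / 3 : ℝ)) ^ 2 * ((k : ℝ) + 1) ^ (1 / 3 : ℝ) *
      (T / σ) ^ (1 / 3 : ℝ) := by positivity
  linarith

end Pool.Agent.N378.SK
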