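import Pool.Agent.N378.SK.Stm2

set_option autoImplicit false

/-!
# Assembly of project SK
-/

namespace Pool.Agent.N378.SK

open MeasureTheory
open scoped ENNReal

theorem bis_num (D n : ℝ) (hD : 0 < D) (hn : 0 < n) :
    12 * (D * n) ^ (1 / 3 : ℝ) * (n / 2) ^ (2 / 3 : ℝ) ≤ 2 * (4 * D ^ (1 / 3 : ℝ) * n) := by
  have h1 : (D * n) ^ (1 / 3 : ℝ) = D ^ (1 / 3 : ℝ) * n ^ (1 / 3 : ℝ) :=
    Real.mul_rpow hD.le hn.le
  have h2 : (n / 2) ^ (2 / 3 : ℝ) = n ^ (2 / 3 : ℝ) * (1 / 2 : ℝ) ^ (2 / 3 : ℝ) := by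
    rw [div_eq_mul_one_div, Real.mul_rpow hn.le (by norm_num)]
  have h3 : n ^ (1 / 3 : ℝ) * n ^ (2 / 3 : ℝ) = n := by
    rw [← Real.rpow_add hn]; norm_num
  have h4 : (1 / 2 : ℝ) ^ (2 / 3 : ℝ) ≤ 2 / 3 := by
    have h5 : ((1 / 2 : ℝ) ^ (2 / 3 : ℝ)) ^ (3 : ℕ) = 1 / 4 := by
      rw [← Real.rpow_natCast, ← Real.rpow_mul (by norm_num)]
      norm_num
    by_contra h
    push Not at h
    have h6 : (2 / 3 : ℝ) ^ 3 < ((1 / 2 : ℝ) ^ (2 / 3 : ℝ)) ^ (3 : ℕ) :=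
      pow_lt_pow_left₀ h (by norm_num) (by norm_num)
    rw [h5] at h6
    norm_num at h6
  have hDp : 0 < D ^ (1 / 3 : ℝ) := Real.rpow_pos_of_pos hD _
  calc 12 * (D * n) ^ (1 / 3 : ℝ) * (n / 2) ^ (2 / 3 : ℝ)
      = 12 * D ^ (1 / 3 : ℝ) * (n ^ (1 / 3 : ℝ) * n ^ (2 / 3 : ℝ)) * (1 / 2 : ℝ) ^ (2 / 3 : ℝ) := by
        rw [h1, h2]; ring
    _ = 12 * D ^ (1 / 3 : ℝ) * n * (1 / 2 : ℝ) ^ (2 / 3 : ℝ) := by rw [h3]
    _ ≤ 12 * D ^ (1 / 3 : ℝ) * n * (2 / 3) := by gcongr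
    _ = 2 * (4 * D ^ (1 / 3 : ℝ) * n) := by ring

theorem main_bis (hM : S_MAIN) (hB : S_BIS) (n : ℕ) (hn : 0 < n) (he : Even n) (D : ℝ) (hD : 0 < D)
    (μ : Fin n → Measure (ℝ × ℝ)) (hμ : ∀ i, IsProbabilityMeasure (μ i))
    (h : ∀ i, μ i ≤ ENNReal.ofReal D • (volume.restrict square)) :
    ∫⁻ x, (bisectors x : ℝ≥0∞) ∂(Measure.pi μ) ≤ ENNReal.ofReal (4 * D ^ (1 / 3 : ℝ) * n) := by
  have h1 := hM n D μ (n / 2 - 1) hn hD hμ h
  have h2 : 2 * ∫⁻ x, (bisectors x : ℝ≥0∞) ∂(Measure.pi μ) ≤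
      ∫⁻ x, (kEdges x (n / 2 - 1) : ℝ≥0∞) ∂(Measure.pi μ) := by
    rw [← lintegral_const_mul' _ _ (by norm_num)]
    refine lintegral_mono fun x => ?_
    have := hB n x
    have h3 : ((2 * bisectors x : ℕ) : ℝ≥0∞) ≤ (kEdges x (n / 2 - 1) : ℝ≥0∞) := by
      exact_mod_cast this
    simpa using h3
  have h4 : ((n / 2 - 1 : ℕ) : ℝ) + 1 = (n : ℝ) / 2 := by
    obtain ⟨m, hm⟩ := he
    have hm0 : 0 < m := by omega
    have : n / 2 - 1 + 1 = m := by omega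
    have h5 : ((n / 2 - 1 : ℕ) : ℝ) + 1 = (m : ℝ) := by exact_mod_cast this
    rw [h5, hm]; push_cast; ring
  rw [h4] at h1
  have h6 : 2 * ∫⁻ x, (bisectors x : ℝ≥0∞) ∂(Measure.pi μ) ≤
      2 * ENNReal.ofReal (4 * D ^ (1 / 3 : ℝ) * n) := by
    refine (h2.trans h1).trans ?_
    have h7 : (2 : ℝ≥0∞) = ENNReal.ofReal 2 := by norm_num
    rw [h7, ← ENNReal.ofReal_mul (by norm_num)]
    exact ENNReal.ofReal_le_ofReal (bis_num D n hD (by exact_mod_cast hn))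
  exact (ENNReal.mul_le_mul_iff_right (by norm_num) (by norm_num)).mp h6

theorem vol_cb (p : ℝ × ℝ) (s : ℝ) (hs : 0 < s) :
    volume (Metric.closedBall p s) = ENNReal.ofReal (4 * s ^ 2) := by
  rw [← closedBall_prod_same, Measure.volume_eq_prod, Measure.prod_prod, Real.volume_closedBall,
    Real.volume_closedBall, ← ENNReal.ofReal_mul (by positivity)]
  congr 1; ring

theorem unif_prob (p : ℝ × ℝ) (s : ℝ) (hs : 0 < s) : IsProbabilityMeasure (unif p s) := by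
  constructor
  have h1 : volume (Metric.closedBall p s) ≠ 0 := by
    rw [vol_cb p s hs]; simp; positivity
  have h2 : volume (Metric.closedBall p s) ≠ ⊤ := by
    rw [vol_cb p s hs]; exact ENNReal.ofReal_ne_top
  simp only [unif, Measure.smul_apply, Measure.restrict_apply MeasurableSet.univ, Set.univ_inter,
    smul_eq_mul]
  exact ENNReal.inv_mul_cancel h1 h2

theorem unif_le (p : ℝ × ℝ) (s : ℝ) (hs : 0 < s) (h : Metric.closedBall p s ⊆ square) :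
    unif p s ≤ ENNReal.ofReal (1 / (4 * s ^ 2)) • (volume.restrict square) := by
  unfold unif
  rw [vol_cb p s hs]
  have h1 : (ENNReal.ofReal (4 * s ^ 2))⁻¹ = ENNReal.ofReal (1 / (4 * s ^ 2)) := by
    rw [one_div, ENNReal.ofReal_inv_of_pos (by positivity)]
  rw [h1]
  have h2 : (volume.restrict (Metric.closedBall p s) : Measure (ℝ × ℝ)) ≤ volume.restrict square :=
    Measure.restrict_mono h le_rfl
  intro A
  simp only [Measure.smul_apply, smul_eq_mul]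
  gcongr

theorem pert_num (s : ℝ) (hs : 0 < s) (n : ℝ) (hn : 0 ≤ n) :
    4 * (1 / (4 * s ^ 2)) ^ (1 / 3 : ℝ) * n ≤ 3 * n / s ^ (2 / 3 : ℝ) := by
  have h0 : (1 / (4 * s ^ 2)) ^ (1 / 3 : ℝ) = (1 / 4 : ℝ) ^ (1 / 3 : ℝ) / s ^ (2 / 3 : ℝ) := by
    have : (1 / (4 * s ^ 2)) = (1 / 4 : ℝ) / s ^ 2 := by field_simp
    rw [this, Real.div_rpow (by norm_num) (by positivity)]
    congr 1
    rw [← Real.rpow_natCast, ← Real.rpow_mul hs.le]; norm_num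
  have h4 : (1 / 4 : ℝ) ^ (1 / 3 : ℝ) ≤ 3 / 4 := by
    have h5 : ((1 / 4 : ℝ) ^ (1 / 3 : ℝ)) ^ (3 : ℕ) = 1 / 4 := by
      rw [← Real.rpow_natCast, ← Real.rpow_mul (by norm_num)]
      norm_num
    by_contra h
    push Not at h
    have h6 : (3 / 4 : ℝ) ^ 3 < ((1 / 4 : ℝ) ^ (1 / 3 : ℝ)) ^ (3 : ℕ) :=
      pow_lt_pow_left₀ h (by norm_num) (by norm_num)
    rw [h5] at h6
    norm_num at h6
  have hs' : 0 < s ^ (2 / 3 : ℝ) := Real.rpow_pos_of_pos hs _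
  rw [h0]
  calc 4 * ((1 / 4 : ℝ) ^ (1 / 3 : ℝ) / s ^ (2 / 3 : ℝ)) * n
      ≤ 4 * ((3 / 4 : ℝ) / s ^ (2 / 3 : ℝ)) * n := by gcongr
    _ = 3 * n / s ^ (2 / 3 : ℝ) := by ring

theorem main_pert (hM : S_MAIN) (hB : S_BIS) (n : ℕ) (hn : 0 < n) (he : Even n) (s : ℝ) (hs : 0 < s)
    (p : Fin n → ℝ × ℝ) (hp : ∀ i, Metric.closedBall (p i) s ⊆ square) :
    ∫⁻ x, (bisectors x : ℝ≥0∞) ∂(Measure.pi fun i => unif (p i) s) ≤
      ENNReal.ofReal (3 * n / s ^ (2 / 3 : ℝ)) := by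
  have hD : (0 : ℝ) < 1 / (4 * s ^ 2) := by positivity
  refine (main_bis hM hB n hn he _ hD _ (fun i => unif_prob (p i) s hs)
    (fun i => unif_le (p i) s hs (hp i))).trans ?_
  exact ENNReal.ofReal_le_ofReal (pert_num s hs n (by positivity))

end Pool.Agent.N378.SK
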