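import Pool.Agent.N378.SK.Stm3
import Pool.Agent.N378.SK.Main

set_option autoImplicit false

/-!
# Project SK: assembly of the theorem with exponent 1/4 (helper887)
-/

namespace Pool.Agent.N378.SK

open MeasureTheory Finset
open scoped ENNReal

namespace FIN3

theorem comb (h1 : S_LONG) (h3 : S_GP) (n : ℕ) (D : ℝ≥0∞) (μ : Fin n → Measure (ℝ × ℝ)) (k : ℕ)
    (t : ℝ) (B : ℝ) (hD : D ≠ ⊤) (hP : ∀ i, IsProbabilityMeasure (μ i))
    (hμ : ∀ i, μ i ≤ D • (volume.restrict square)) (ht : 0 < t) (hB0 : 0 ≤ B)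
    (hB : open Classical in
      ∫⁻ x, (((KE x k).filter fun p => ‖x p.2 - x p.1‖ < t).card : ℝ≥0∞) ∂(Measure.pi μ) ≤
        ENNReal.ofReal B) :
    ∫⁻ x, (kEdges x k : ℝ≥0∞) ∂(Measure.pi μ) ≤ ENNReal.ofReal (8 * (k + 1) / t + B) := by
  classical
  have := hP
  have hgp := h3 n D μ hD hP hμ
  have key : ∀ᵐ x ∂(Measure.pi μ), (kEdges x k : ℝ≥0∞) ≤ ENNReal.ofReal (8 * (k + 1) / t) +
      (((KE x k).filter fun p => ‖x p.2 - x p.1‖ < t).card : ℝ≥0∞) := by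
    filter_upwards [hgp] with x hx
    have hk : kEdges x k = (KE x k).card := by
      unfold kEdges KE
      rw [Nat.card_eq_fintype_card, Fintype.card_subtype]
    have hs : (KE x k).card = ((KE x k).filter fun p => t ≤ ‖x p.2 - x p.1‖).card +
        ((KE x k).filter fun p => ‖x p.2 - x p.1‖ < t).card := by
      rw [← Finset.card_filter_add_card_filter_not (s := KE x k)
        (fun p => t ≤ ‖x p.2 - x p.1‖)]
      simp only [not_le]
    have hl := h1 n x k t hx.1 hx.2 ht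
    rw [← le_div_iff₀ ht] at hl
    rw [hk, hs, Nat.cast_add]
    refine add_le_add ?_ le_rfl
    rw [← ENNReal.ofReal_natCast]
    refine ENNReal.ofReal_le_ofReal ?_
    convert hl
  calc ∫⁻ x, (kEdges x k : ℝ≥0∞) ∂(Measure.pi μ)
      ≤ ∫⁻ x, (ENNReal.ofReal (8 * (k + 1) / t) +
        (((KE x k).filter fun p => ‖x p.2 - x p.1‖ < t).card : ℝ≥0∞)) ∂(Measure.pi μ) :=
        lintegral_mono_ae key
    _ = ENNReal.ofReal (8 * (k + 1) / t) +
        ∫⁻ x, (((KE x k).filter fun p => ‖x p.2 - x p.1‖ < t).card : ℝ≥0∞) ∂(Measure.pi μ) := by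
        rw [lintegral_add_left measurable_const, lintegral_const, measure_univ, mul_one]
    _ ≤ ENNReal.ofReal (8 * (k + 1) / t) + ENNReal.ofReal B := by
        refine add_le_add le_rfl ?_
        convert hB
    _ = _ := by
        rw [ENNReal.ofReal_add (by positivity) hB0]

theorem side_le {p : ℝ × ℝ} {σ : ℝ} (hσ : 0 < σ) (h : Metric.closedBall p σ ⊆ square) :
    σ ≤ 1 := by
  have h1 : ((p.1 + σ, p.2) : ℝ × ℝ) ∈ square := by
    apply h
    rw [Metric.mem_closedBall, Prod.dist_eq]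
    refine max_le ?_ ?_
    · rw [Real.dist_eq]
      change |p.1 + σ - p.1| ≤ σ
      rw [add_sub_cancel_left, abs_of_pos hσ]
    · rw [dist_self]
      exact hσ.le
  have h2 : ((p.1 - σ, p.2) : ℝ × ℝ) ∈ square := by
    apply h
    rw [Metric.mem_closedBall, Prod.dist_eq]
    refine max_le ?_ ?_
    · rw [Real.dist_eq]
      change |p.1 - σ - p.1| ≤ σ
      rw [sub_sub_cancel_left, abs_neg, abs_of_pos hσ]
    · rw [dist_self]
      exact hσ.le
  have h3 := (Set.mem_prod.1 h1).1.2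
  have h4 := (Set.mem_prod.1 h2).1.1
  change p.1 + σ ≤ 1 at h3
  change -1 ≤ p.1 - σ at h4
  linarith

theorem root {N : ℝ} (hN : 0 < N) (a : ℕ) (ha : a ≠ 0) : ∃ x : ℝ, 0 < x ∧ x ^ a = N :=
  ⟨N ^ ((a : ℝ)⁻¹), Real.rpow_pos_of_pos hN _, Real.rpow_inv_natCast_pow hN.le ha⟩

theorem rp1 {x : ℝ} (hx : 0 < x) : (x ^ 6) ^ (2 / 3 : ℝ) = x ^ 4 := by
  rw [← Real.rpow_natCast, ← Real.rpow_mul hx.le, ← Real.rpow_natCast]
  norm_num

theorem rp2 {x : ℝ} (hx : 0 < x) : (x ^ 6) ^ (1 / 3 : ℝ) = x ^ 2 := by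
  rw [← Real.rpow_natCast, ← Real.rpow_mul hx.le, ← Real.rpow_natCast]
  norm_num

theorem rp3 {x : ℝ} (hx : 0 < x) : (x ^ 4) ^ (1 / 4 : ℝ) = x := by
  rw [← Real.rpow_natCast, ← Real.rpow_mul hx.le]
  norm_num

theorem rp4 {x : ℝ} (hx : 0 < x) : (x ^ 3) ^ (1 / 3 : ℝ) = x := by
  rw [← Real.rpow_natCast, ← Real.rpow_mul hx.le]
  norm_num

end FIN3

open FIN3 in
theorem t_FIN3 (h1 : S_LONG) (h2 : S_DY) (h3 : S_GP) (h4 : S_SH2) : S_FIN3 := by
  classical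
  intro n p σ k hn hσ hp
  have hσ1 : σ ≤ 1 := side_le hσ (hp ⟨0, hn⟩)
  have hD := ENNReal.ofReal_ne_top (r := 1 / (4 * σ ^ 2))
  have hP := fun i => unif_prob (p i) σ hσ
  have hμ := fun i => unif_le (p i) σ hσ (hp i)
  have hN : (0 : ℝ) < n := by exact_mod_cast hn
  have hK : (0 : ℝ) < k + 1 := by positivity
  obtain ⟨x, hx, hxn⟩ := root hN 6 (by norm_num)
  obtain ⟨y, hy, hyk⟩ := root hK 6 (by norm_num)
  obtain ⟨z, hz, hzs⟩ := root hσ 4 (by norm_num)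
  have hz1 : z ≤ 1 := by
    by_contra hcon
    push Not at hcon
    have := one_lt_pow₀ hcon (by norm_num : (4 : ℕ) ≠ 0)
    linarith
  have hsq : Real.sqrt (n * (k + 1)) = x ^ 3 * y ^ 3 := by
    rw [← hxn, ← hyk]
    have : x ^ 6 * y ^ 6 = (x ^ 3 * y ^ 3) ^ 2 := by ring
    rw [this, Real.sqrt_sq (by positivity)]
  rw [hsq]
  have e3 : σ ^ (1 / 4 : ℝ) = z := by rw [← hzs, rp3 hz]
  rw [e3]
  rcases le_or_gt (z * x) y with hcase | hcase
  · -- large k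
    have hT : 0 < y ^ 3 / x ^ 3 * z := by positivity
    have hσT : σ ≤ y ^ 3 / x ^ 3 * z := by
      rw [← hzs]
      have h5 : z ^ 3 ≤ y ^ 3 / x ^ 3 := by
        rw [le_div_iff₀ (by positivity), ← mul_pow]
        exact pow_le_pow_left₀ (by positivity) hcase 3
      calc z ^ 4 = z ^ 3 * z := by ring
        _ ≤ y ^ 3 / x ^ 3 * z := by gcongr
    have h5 := h2 n p σ (y ^ 3 / x ^ 3 * z) k hn hσ hσT hp
    have e4 : y ^ 3 / x ^ 3 * z / σ = (y / (x * z)) ^ 3 := by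
      rw [← hzs]
      field_simp
    rw [e4, rp4 (by positivity)] at h5
    have e1 : (n : ℝ) ^ (2 / 3 : ℝ) = x ^ 4 := by rw [← hxn, rp1 hx]
    have e2 : ((k : ℝ) + 1) ^ (1 / 3 : ℝ) = y ^ 2 := by rw [← hyk, rp2 hy]
    rw [e1, e2] at h5
    refine (comb h1 h3 n _ _ k _ _ hD hP hμ hT (by positivity) h5).trans ?_
    refine ENNReal.ofReal_le_ofReal (le_of_eq ?_)
    rw [← hyk]
    field_simp
    ring
  · -- small k
    have h5 := h4 n p σ σ k hσ hσ
    rw [div_self hσ.ne', Real.sqrt_one, mul_one] at h5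
    refine (comb h1 h3 n _ _ k σ _ hD hP hμ hσ (by positivity) h5).trans ?_
    refine ENNReal.ofReal_le_ofReal ?_
    have h6 : 8 * ((k : ℝ) + 1) / σ ≤ 8 * n := by
      rw [div_le_iff₀ hσ, ← hyk, ← hxn, ← hzs]
      have h7 : y ^ 6 ≤ (z * x) ^ 6 := pow_le_pow_left₀ hy.le hcase.le 6
      have h8 : (z * x) ^ 6 = x ^ 6 * z ^ 4 * z ^ 2 := by ring
      have h9 : z ^ 2 ≤ 1 := pow_le_one₀ hz.le hz1
      have h10 : x ^ 6 * z ^ 4 * z ^ 2 ≤ x ^ 6 * z ^ 4 * 1 := by gcongr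
      nlinarith
    have h7 : 0 ≤ 908 * (x ^ 3 * y ^ 3 / z) := by positivity
    linarith

end Pool.Agent.N378.SK
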