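import Pool.Agent.N378.SK.Stm

set_option autoImplicit false

/-!
# Statements of the second group of leaves of project SK (uniform noise, exponent 1/3)
-/

namespace Pool.Agent.N378.SK

open MeasureTheory Finset
open scoped ENNReal

/-- The uniform distribution on the interval `[q - σ, q + σ]`. -/
noncomputable def U1 (q σ : ℝ) : Measure ℝ :=
  (ENNReal.ofReal (2 * σ))⁻¹ • volume.restrict (Set.Icc (q - σ) (q + σ))

/-- The law of the vector `v` of the second coordinates. -/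
noncomputable def PV {n : ℕ} (q : Fin n → ℝ) (σ : ℝ) : Measure (Fin n → ℝ) :=
  Measure.pi fun l => U1 (q l) σ

/-- The number of the points `(u l, v l)`, `l ∉ E`, strictly above the line `y = m x + b`. -/
noncomputable def ab {n : ℕ} (u v : Fin n → ℝ) (m b : ℝ) (E : Finset (Fin n)) : ℕ :=
  open Classical in (univ.filter fun l => l ∉ E ∧ m * u l + b < v l).card

/-- The density of `v l - m * u l` at `b`. -/
noncomputable def gd {n : ℕ} (u q : Fin n → ℝ) (σ m b : ℝ) (l : Fin n) : ℝ≥0∞ :=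
  (ENNReal.ofReal (2 * σ))⁻¹ * (Set.Icc (q l - σ) (q l + σ)).indicator 1 (m * u l + b)

/-- For every slope `m`: the `(k+1)`-st highest point. -/
def S_ORD : Prop :=
  ∀ (n : ℕ) (u q : Fin n → ℝ) (σ m : ℝ) (k : ℕ), 0 < σ →
    ∑ l, ∫⁻ b, gd u q σ m b l * PV q σ {v | ab u v m b {l} = k} ≤ 1

/-- Change of variables for one pair. -/
def S_PAIR : Prop :=
  ∀ (n : ℕ) (u q : Fin n → ℝ) (σ : ℝ) (k : ℕ) (i j : Fin n), 0 < σ → u i < u j →
    PV q σ {v | |v j - v i| ≤ u j - u i ∧ leftCount (fun l => (u l, v l)) i j = k} ≤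
      ∫⁻ m in Set.Icc (-1 : ℝ) 1, ∫⁻ b, ENNReal.ofReal (u j - u i) *
        (gd u q σ m b i * gd u q σ m b j * PV q σ {v | ab u v m b {i, j} = k})

/-- Measurability. -/
def S_MEAS2 : Prop :=
  ∀ (n : ℕ) (u q : Fin n → ℝ) (σ : ℝ) (k : ℕ) (E : Finset (Fin n)), 0 < σ →
    Measurable (fun z : ℝ × ℝ => PV q σ {v | ab u v z.1 z.2 E = k}) ∧
    ∀ l, Measurable (fun z : ℝ × ℝ => gd u q σ z.1 z.2 l)

/-- The probability that `k`, `k + 1` or `k + 2` points lie above the line `y = m x + b`. -/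
noncomputable def PI {n : ℕ} (u q : Fin n → ℝ) (σ : ℝ) (k : ℕ) (m b : ℝ) : ℝ≥0∞ :=
  PV q σ {v | k ≤ ab u v m b ∅ ∧ ab u v m b ∅ ≤ k + 2}

/-- Integral of `G * PI` for a fixed slope. -/
def S_GPI : Prop :=
  ∀ (n : ℕ) (u q : Fin n → ℝ) (σ m : ℝ) (k : ℕ), 0 < σ →
    ∫⁻ b, (∑ l, gd u q σ m b l) * PI u q σ k m b ≤ 4

/-- pairs of indices with `0 < u j - u i ≤ T` -/
noncomputable def PT {n : ℕ} (u : Fin n → ℝ) (T : ℝ) : Finset (Fin n × Fin n) :=
  open Classical in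
  (univ : Finset (Fin n × Fin n)).filter (fun p => u p.1 < u p.2 ∧ u p.2 - u p.1 ≤ T)

/-- The total weight of the pairs whose strips of slope `m` meet. -/
noncomputable def WW {n : ℕ} (u q : Fin n → ℝ) (σ T m : ℝ) : ℝ :=
  open Classical in
  ∑ p ∈ (PT u T).filter (fun p => |(q p.2 - q p.1) - m * (u p.2 - u p.1)| ≤ 2 * σ),
    (u p.2 - u p.1)

/-- The pointwise inequality. -/
def S_PT : Prop :=
  ∀ (n : ℕ) (u q : Fin n → ℝ) (σ T m b : ℝ), 0 < σ → 0 < T →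
    ∑ p ∈ PT u T, ENNReal.ofReal (u p.2 - u p.1) * (gd u q σ m b p.1 * gd u q σ m b p.2) ≤
      ENNReal.ofReal (Real.sqrt T / (2 * σ) * Real.sqrt (WW u q σ T m)) * ∑ l, gd u q σ m b l

/-- The integral over the slopes. -/
def S_W : Prop :=
  ∀ (n : ℕ) (u q : Fin n → ℝ) (σ T : ℝ), 0 < σ → 0 < T →
    ∫⁻ m in Set.Icc (-1 : ℝ) 1, ENNReal.ofReal (Real.sqrt (WW u q σ T m)) ≤
      ENNReal.ofReal (3 * n * Real.sqrt σ)

/-- Flat short edges from left to right, fixed first coordinates. -/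
def S_FLAT : Prop :=
  ∀ (n : ℕ) (u q : Fin n → ℝ) (σ T : ℝ) (k : ℕ), 0 < σ → 0 < T →
    ∑ p ∈ PT u T,
      PV q σ {v | |v p.2 - v p.1| ≤ u p.2 - u p.1 ∧
        leftCount (fun l => (u l, v l)) p.1 p.2 = k} ≤
      ENNReal.ofReal (6 * n * Real.sqrt (T / σ))

/-- The uniform distribution on the square with centre `p` and side `2 s`. -/
noncomputable def unif (p : ℝ × ℝ) (s : ℝ) : Measure (ℝ × ℝ) :=
  (volume (Metric.closedBall p s))⁻¹ • volume.restrict (Metric.closedBall p s)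

/-- Expected number of short `k`-edges for uniform noise. -/
def S_SH2 : Prop :=
  ∀ (n : ℕ) (p : Fin n → ℝ × ℝ) (σ T : ℝ) (k : ℕ), 0 < σ → 0 < T →
    open Classical in
    ∫⁻ x, (((KE x k).filter fun e => ‖x e.2 - x e.1‖ < T).card : ℝ≥0∞)
        ∂(Measure.pi fun i => unif (p i) σ) ≤
      ENNReal.ofReal (24 * n * Real.sqrt (T / σ))

/-- The theorem for uniform noise. -/
def S_FIN : Prop :=
  ∀ (n : ℕ) (p : Fin n → ℝ × ℝ) (σ : ℝ) (k : ℕ), 0 < n → 0 < σ →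
    (∀ i, Metric.closedBall (p i) σ ⊆ square) →
    ∫⁻ x, (kEdges x k : ℝ≥0∞) ∂(Measure.pi fun i => unif (p i) σ) ≤
      ENNReal.ofReal (32 * (n : ℝ) ^ (2 / 3 : ℝ) * (k + 1 : ℝ) ^ (1 / 3 : ℝ) / σ ^ (1 / 3 : ℝ))

end Pool.Agent.N378.SK
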