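import Mathlib
import Pool.Agent.N378.SK.Stm2

/-!
# SK/FLAT: flat short edges from left to right (helper519, for helper378)
-/

set_option autoImplicit false

namespace Pool.Agent.N378.SK

open MeasureTheory Finset
open scoped ENNReal

namespace FLAT

theorem ab_le {n : ℕ} (u v : Fin n → ℝ) (m b : ℝ) (i j : Fin n) :
    ab u v m b {i, j} ≤ ab u v m b ∅ ∧ ab u v m b ∅ ≤ ab u v m b {i, j} + 2 := by
  classical
  unfold ab
  constructor
  · apply card_le_card
    intro l hl
    rw [mem_filter] at hl ⊢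
    exact ⟨hl.1, by simp, hl.2.2⟩
  · have h1 : (univ.filter fun l => l ∉ (∅ : Finset (Fin n)) ∧ m * u l + b < v l) ⊆
        (univ.filter fun l => l ∉ ({i, j} : Finset (Fin n)) ∧ m * u l + b < v l) ∪ {i, j} := by
      intro l hl
      rw [mem_filter] at hl
      rw [mem_union, mem_filter]
      by_cases h : l ∈ ({i, j} : Finset (Fin n))
      · exact Or.inr h
      · exact Or.inl ⟨hl.1, h, hl.2.2⟩
    refine (card_le_card h1).trans ((card_union_le _ _).trans ?_)
    gcongr
    exact card_le_two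

theorem le_PI {n : ℕ} (u q : Fin n → ℝ) (σ m b : ℝ) (k : ℕ) (i j : Fin n) :
    PV q σ {v | ab u v m b {i, j} = k} ≤ PI u q σ k m b := by
  unfold PI
  apply measure_mono
  intro v hv
  have h1 := ab_le u v m b i j
  have h2 : ab u v m b {i, j} = k := hv
  rw [h2] at h1
  exact h1

/-- superadditivity of the lower integral -/
theorem sum_lintegral_le {α ι : Type*} [MeasurableSpace α] (μ : Measure α) (s : Finset ι)
    (f : ι → α → ℝ≥0∞) : ∑ i ∈ s, ∫⁻ x, f i x ∂μ ≤ ∫⁻ x, ∑ i ∈ s, f i x ∂μ := by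
  classical
  induction s using Finset.induction_on with
  | empty => simp
  | insert a s ha ih =>
    rw [sum_insert ha]
    calc ∫⁻ x, f a x ∂μ + ∑ i ∈ s, ∫⁻ x, f i x ∂μ
        ≤ ∫⁻ x, f a x ∂μ + ∫⁻ x, ∑ i ∈ s, f i x ∂μ := by gcongr
      _ ≤ ∫⁻ x, (f a x + ∑ i ∈ s, f i x) ∂μ := le_lintegral_add _ _
      _ = ∫⁻ x, ∑ i ∈ insert a s, f i x ∂μ := by
          refine lintegral_congr fun x => ?_
          rw [sum_insert ha]

end FLAT

open FLAT in
/-- flat short edges from left to right -/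
theorem t_FLAT (h1 : S_PAIR) (_h2 : S_MEAS2) (h3 : S_GPI) (h4 : S_PT) (h5 : S_W) : S_FLAT := by
  classical
  intro n u q σ T k hσ hT
  have hc : 0 ≤ 2 * Real.sqrt T / σ := by positivity
  calc ∑ p ∈ PT u T, PV q σ {v | |v p.2 - v p.1| ≤ u p.2 - u p.1 ∧
        leftCount (fun l => (u l, v l)) p.1 p.2 = k}
      ≤ ∑ p ∈ PT u T, ∫⁻ m in Set.Icc (-1 : ℝ) 1, ∫⁻ b, ENNReal.ofReal (u p.2 - u p.1) *
        (gd u q σ m b p.1 * gd u q σ m b p.2) * PI u q σ k m b := by
        refine sum_le_sum fun p hp => ?_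
        have hp' : u p.1 < u p.2 := by
          unfold PT at hp
          exact (mem_filter.1 hp).2.1
        refine (h1 n u q σ k p.1 p.2 hσ hp').trans ?_
        refine lintegral_mono fun m => lintegral_mono fun b => ?_
        show _ ≤ ENNReal.ofReal (u p.2 - u p.1) * (gd u q σ m b p.1 * gd u q σ m b p.2) *
          PI u q σ k m b
        refine (le_of_eq (mul_assoc (ENNReal.ofReal (u p.2 - u p.1))
          (gd u q σ m b p.1 * gd u q σ m b p.2) _).symm).trans ?_
        gcongr
        exact le_PI u q σ m b k p.1 p.2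
    _ ≤ ∫⁻ m in Set.Icc (-1 : ℝ) 1, ∑ p ∈ PT u T, ∫⁻ b, ENNReal.ofReal (u p.2 - u p.1) *
        (gd u q σ m b p.1 * gd u q σ m b p.2) * PI u q σ k m b := sum_lintegral_le _ _ _
    _ ≤ ∫⁻ m in Set.Icc (-1 : ℝ) 1, ENNReal.ofReal (2 * Real.sqrt T / σ) *
        ENNReal.ofReal (Real.sqrt (WW u q σ T m)) := by
        refine lintegral_mono fun m => ?_
        show ∑ p ∈ PT u T, ∫⁻ b, ENNReal.ofReal (u p.2 - u p.1) *
          (gd u q σ m b p.1 * gd u q σ m b p.2) * PI u q σ k m b ≤ _
        calc ∑ p ∈ PT u T, ∫⁻ b, ENNReal.ofReal (u p.2 - u p.1) *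
              (gd u q σ m b p.1 * gd u q σ m b p.2) * PI u q σ k m b
            ≤ ∫⁻ b, ∑ p ∈ PT u T, ENNReal.ofReal (u p.2 - u p.1) *
              (gd u q σ m b p.1 * gd u q σ m b p.2) * PI u q σ k m b := sum_lintegral_le _ _ _
          _ ≤ ∫⁻ b, ENNReal.ofReal (Real.sqrt T / (2 * σ) * Real.sqrt (WW u q σ T m)) *
              ((∑ l, gd u q σ m b l) * PI u q σ k m b) := by
              refine lintegral_mono fun b => ?_
              show ∑ p ∈ PT u T, ENNReal.ofReal (u p.2 - u p.1) *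
                (gd u q σ m b p.1 * gd u q σ m b p.2) * PI u q σ k m b ≤ _
              rw [← sum_mul, ← mul_assoc]
              gcongr
              exact h4 n u q σ T m b hσ hT
          _ = ENNReal.ofReal (Real.sqrt T / (2 * σ) * Real.sqrt (WW u q σ T m)) *
              ∫⁻ b, (∑ l, gd u q σ m b l) * PI u q σ k m b :=
              lintegral_const_mul' _ _ ENNReal.ofReal_ne_top
          _ ≤ ENNReal.ofReal (Real.sqrt T / (2 * σ) * Real.sqrt (WW u q σ T m)) * 4 := by
              gcongr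
              exact h3 n u q σ m k hσ
          _ = ENNReal.ofReal (2 * Real.sqrt T / σ) * ENNReal.ofReal (Real.sqrt (WW u q σ T m)) := by
              rw [← ENNReal.ofReal_mul hc, show (4 : ℝ≥0∞) = ENNReal.ofReal 4 by simp,
                ← ENNReal.ofReal_mul (by positivity)]
              congr 1
              field_simp
              ring
    _ = ENNReal.ofReal (2 * Real.sqrt T / σ) *
        ∫⁻ m in Set.Icc (-1 : ℝ) 1, ENNReal.ofReal (Real.sqrt (WW u q σ T m)) :=
        lintegral_const_mul' _ _ ENNReal.ofReal_ne_top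
    _ ≤ ENNReal.ofReal (2 * Real.sqrt T / σ) * ENNReal.ofReal (3 * n * Real.sqrt σ) := by
        gcongr
        exact h5 n u q σ T hσ hT
    _ = ENNReal.ofReal (6 * n * Real.sqrt (T / σ)) := by
        rw [← ENNReal.ofReal_mul hc]
        congr 1
        rw [Real.sqrt_div hT.le]
        have h6 : 0 < Real.sqrt σ := Real.sqrt_pos.2 hσ
        have h7 : Real.sqrt σ * Real.sqrt σ = σ := Real.mul_self_sqrt hσ.le
        rw [div_mul_eq_mul_div, ← mul_div_assoc, div_eq_div_iff hσ.ne' h6.ne']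
        calc 2 * Real.sqrt T * (3 * n * Real.sqrt σ) * Real.sqrt σ
            = 6 * n * Real.sqrt T * (Real.sqrt σ * Real.sqrt σ) := by ring
          _ = 6 * n * Real.sqrt T * σ := by rw [h7]

end Pool.Agent.N378.SK
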