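import Pool.Agent.N378.SK.Stm3

set_option autoImplicit false

/-!
# SK/FLAT3: flat short edges from left to right in a given set of pairs (helper252, for project SK of
helper378; the argument follows the leaves PT (helper451), W and FLAT (helper519))
-/

namespace Pool.Agent.N378.SK

open MeasureTheory Finset
open scoped ENNReal

namespace FLAT3

/-- The total weight of the pairs of `P` whose strips of slope `m` meet. -/
noncomputable def WP {n : ℕ} (P : Finset (Fin n × Fin n)) (u q : Fin n → ℝ) (σ m : ℝ) : ℝ :=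
  open Classical in
  ∑ p ∈ P.filter (fun p => |(q p.2 - q p.1) - m * (u p.2 - u p.1)| ≤ 2 * σ),
    (u p.2 - u p.1)

theorem mem_PT {n : ℕ} {u : Fin n → ℝ} {T : ℝ} {P : Finset (Fin n × Fin n)} (hP : P ⊆ PT u T)
    {p : Fin n × Fin n} (hp : p ∈ P) : u p.1 < u p.2 ∧ u p.2 - u p.1 ≤ T := by
  have h := hP hp
  unfold PT at h
  exact (mem_filter.1 h).2

open Classical in
/-- the active indices -/
noncomputable def act {n : ℕ} (u q : Fin n → ℝ) (σ m b : ℝ) : Finset (Fin n) :=
  univ.filter (fun l => m * u l + b ∈ Set.Icc (q l - σ) (q l + σ))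

open Classical in
theorem gd_eq {n : ℕ} (u q : Fin n → ℝ) (σ m b : ℝ) (hσ : 0 < σ) (l : Fin n) :
    gd u q σ m b l = ENNReal.ofReal (if l ∈ act u q σ m b then (2 * σ)⁻¹ else 0) := by
  unfold gd
  by_cases h : m * u l + b ∈ Set.Icc (q l - σ) (q l + σ)
  · have h' : l ∈ act u q σ m b := by
      unfold act
      rw [mem_filter]
      exact ⟨mem_univ _, h⟩
    rw [Set.indicator_of_mem h, if_pos h', ENNReal.ofReal_inv_of_pos (by linarith)]
    simp
  · have h' : l ∉ act u q σ m b := by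
      unfold act
      rw [mem_filter]
      exact fun h2 => h h2.2
    rw [Set.indicator_of_notMem h, if_neg h']
    simp

theorem pt3 {n : ℕ} (u q : Fin n → ℝ) (σ T m b : ℝ) (P : Finset (Fin n × Fin n)) (hσ : 0 < σ) (hT : 0 < T)
    (hP : P ⊆ PT u T) :
    ∑ p ∈ P, ENNReal.ofReal (u p.2 - u p.1) * (gd u q σ m b p.1 * gd u q σ m b p.2) ≤
      ENNReal.ofReal (Real.sqrt T / (2 * σ) * Real.sqrt (WP P u q σ m)) * ∑ l, gd u q σ m b l := by
  classical
  obtain ⟨A, hA⟩ : ∃ A, A = act u q σ m b := ⟨_, rfl⟩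
  obtain ⟨g, hg⟩ : ∃ g : Fin n → ℝ, g = fun l => if l ∈ A then (2 * σ)⁻¹ else 0 := ⟨_, rfl⟩
  have hg0 : ∀ l, 0 ≤ g l := by
    intro l
    simp only [hg]
    split_ifs <;> positivity
  have e1 : ∀ l, gd u q σ m b l = ENNReal.ofReal (g l) := by
    intro l
    rw [gd_eq u q σ m b hσ l, hg, hA]
  have hw : ∀ p ∈ P, 0 ≤ u p.2 - u p.1 ∧ u p.2 - u p.1 ≤ T := by
    intro p hp
    have h := mem_PT hP hp
    exact ⟨by linarith [h.1], h.2⟩
  have e2 : ∑ p ∈ P, ENNReal.ofReal (u p.2 - u p.1) * (gd u q σ m b p.1 * gd u q σ m b p.2) =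
      ENNReal.ofReal (∑ p ∈ P, (u p.2 - u p.1) * (g p.1 * g p.2)) := by
    rw [ENNReal.ofReal_sum_of_nonneg]
    · refine Finset.sum_congr rfl fun p hp => ?_
      rw [e1, e1, ← ENNReal.ofReal_mul (hg0 _), ← ENNReal.ofReal_mul (hw p hp).1]
    · intro p hp
      exact mul_nonneg (hw p hp).1 (mul_nonneg (hg0 _) (hg0 _))
  have e3 : ∑ l, gd u q σ m b l = ENNReal.ofReal (∑ l, g l) := by
    rw [ENNReal.ofReal_sum_of_nonneg (fun l _ => hg0 l)]
    exact Finset.sum_congr rfl fun l _ => e1 l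
  rw [e2, e3, ← ENNReal.ofReal_mul (by positivity)]
  apply ENNReal.ofReal_le_ofReal
  -- the real inequality
  obtain ⟨F, hF⟩ : ∃ F, F = P.filter (fun p => p.1 ∈ A ∧ p.2 ∈ A) := ⟨_, rfl⟩
  obtain ⟨X, hX⟩ : ∃ X, X = ∑ p ∈ F, (u p.2 - u p.1) := ⟨_, rfl⟩
  have hFm : ∀ p ∈ F, p ∈ P ∧ p.1 ∈ A ∧ p.2 ∈ A := by
    intro p hp
    rw [hF, mem_filter] at hp
    exact hp
  have e4 : ∑ p ∈ P, (u p.2 - u p.1) * (g p.1 * g p.2) = ((2 * σ)⁻¹) ^ 2 * X := by
    rw [hX, hF, Finset.mul_sum, Finset.sum_filter]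
    refine Finset.sum_congr rfl fun p hp => ?_
    simp only [hg]
    by_cases h1 : p.1 ∈ A
    · by_cases h2 : p.2 ∈ A
      · rw [if_pos h1, if_pos h2, if_pos ⟨h1, h2⟩]
        ring
      · have h3 : ¬ (p.1 ∈ A ∧ p.2 ∈ A) := fun h => h2 h.2
        rw [if_neg h2, if_neg h3]
        ring
    · have h3 : ¬ (p.1 ∈ A ∧ p.2 ∈ A) := fun h => h1 h.1
      rw [if_neg h1, if_neg h3]
      ring
  have e5 : ∑ l, g l = A.card * (2 * σ)⁻¹ := by
    simp only [hg]
    rw [Finset.sum_ite_mem, Finset.univ_inter, Finset.sum_const, nsmul_eq_mul]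
  have e6 : X ≤ T * (A.card : ℝ) ^ 2 := by
    calc X ≤ ∑ p ∈ F, T := by
          rw [hX]
          apply Finset.sum_le_sum
          intro p hp
          exact (hw p (hFm p hp).1).2
      _ = (F.card : ℝ) * T := by
          rw [Finset.sum_const, nsmul_eq_mul]
      _ ≤ ((A ×ˢ A).card : ℝ) * T := by
          gcongr
          intro p hp
          exact mem_product.mpr (hFm p hp).2
      _ = T * (A.card : ℝ) ^ 2 := by
          rw [card_product]
          push_cast
          ring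
  have e7 : X ≤ WP P u q σ m := by
    unfold WP
    rw [hX]
    apply Finset.sum_le_sum_of_subset_of_nonneg
    · intro p hp
      have hp' := hFm p hp
      rw [mem_filter]
      refine ⟨hp'.1, ?_⟩
      have h1 := hp'.2.1
      have h2 := hp'.2.2
      rw [hA] at h1 h2
      unfold act at h1 h2
      rw [mem_filter] at h1 h2
      obtain ⟨a1, a2⟩ := h1.2
      obtain ⟨b1, b2⟩ := h2.2
      rw [abs_le]
      constructor <;> linarith
    · intro p hp _
      rw [mem_filter] at hp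
      exact (hw p hp.1).1
  have hX0 : 0 ≤ X := by
    rw [hX]
    exact Finset.sum_nonneg fun p hp => (hw p (hFm p hp).1).1
  have e8 : X ≤ Real.sqrt T * A.card * Real.sqrt (WP P u q σ m) := by
    have h1 : X ^ 2 ≤ (T * (A.card : ℝ) ^ 2) * WP P u q σ m := by
      rw [sq]
      exact mul_le_mul e6 e7 hX0 (by positivity)
    have h2 : (Real.sqrt T * A.card * Real.sqrt (WP P u q σ m)) ^ 2 =
        (T * (A.card : ℝ) ^ 2) * WP P u q σ m := by
      rw [mul_pow, mul_pow, Real.sq_sqrt hT.le, Real.sq_sqrt (hX0.trans e7)]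
    rw [← h2] at h1
    exact le_of_sq_le_sq h1 (by positivity)
  rw [e4, e5]
  calc ((2 * σ)⁻¹) ^ 2 * X ≤
      ((2 * σ)⁻¹) ^ 2 * (Real.sqrt T * A.card * Real.sqrt (WP P u q σ m)) := by gcongr
    _ = Real.sqrt T / (2 * σ) * Real.sqrt (WP P u q σ m) * (A.card * (2 * σ)⁻¹) := by
      rw [div_eq_mul_inv]
      ring

/-- the slopes for which the strips of the pair meet -/
def St {n : ℕ} (u q : Fin n → ℝ) (σ : ℝ) (p : Fin n × Fin n) : Set ℝ :=
  {m | |(q p.2 - q p.1) - m * (u p.2 - u p.1)| ≤ 2 * σ}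

theorem St_eq {n : ℕ} (u q : Fin n → ℝ) (σ : ℝ) (p : Fin n × Fin n) (h : u p.1 < u p.2) :
    St u q σ p = Set.Icc (((q p.2 - q p.1) - 2 * σ) / (u p.2 - u p.1))
      (((q p.2 - q p.1) + 2 * σ) / (u p.2 - u p.1)) := by
  have hw : 0 < u p.2 - u p.1 := sub_pos.2 h
  ext m
  unfold St
  rw [Set.mem_ofPred_eq, Set.mem_Icc, abs_le, div_le_iff₀ hw, le_div_iff₀ hw]
  constructor
  · rintro ⟨h1, h2⟩
    exact ⟨by linarith, by linarith⟩
  · rintro ⟨h1, h2⟩
    exact ⟨by linarith, by linarith⟩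

theorem vol_St {n : ℕ} (u q : Fin n → ℝ) (σ : ℝ) (p : Fin n × Fin n) (h : u p.1 < u p.2) :
    ENNReal.ofReal (u p.2 - u p.1) * volume (St u q σ p) = ENNReal.ofReal (4 * σ) := by
  have hw : 0 < u p.2 - u p.1 := sub_pos.2 h
  rw [St_eq u q σ p h, Real.volume_Icc, ← ENNReal.ofReal_mul hw.le]
  congr 1
  field_simp
  ring

theorem WP_eq {n : ℕ} (u q : Fin n → ℝ) (σ T m : ℝ) (P : Finset (Fin n × Fin n)) (hP : P ⊆ PT u T) :
    ENNReal.ofReal (WP P u q σ m) =
      ∑ p ∈ P, ENNReal.ofReal (u p.2 - u p.1) * (St u q σ p).indicator 1 m := by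
  classical
  have hpos : ∀ p ∈ P, 0 ≤ u p.2 - u p.1 := by
    intro p hp
    exact (sub_pos.2 (mem_PT hP hp).1).le
  unfold WP
  rw [Finset.sum_filter, ENNReal.ofReal_sum_of_nonneg]
  · refine Finset.sum_congr rfl fun p _ => ?_
    by_cases h : m ∈ St u q σ p
    · have h' : |(q p.2 - q p.1) - m * (u p.2 - u p.1)| ≤ 2 * σ := h
      rw [if_pos h', Set.indicator_of_mem h, Pi.one_apply, mul_one]
    · have h' : ¬ |(q p.2 - q p.1) - m * (u p.2 - u p.1)| ≤ 2 * σ := h
      rw [if_neg h', Set.indicator_of_notMem h, mul_zero, ENNReal.ofReal_zero]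
  · intro p hp
    split_ifs
    · exact hpos p hp
    · exact le_rfl

theorem int_WP {n : ℕ} (u q : Fin n → ℝ) (σ T : ℝ) (P : Finset (Fin n × Fin n)) (hP : P ⊆ PT u T) :
    ∫⁻ m in Set.Icc (-1 : ℝ) 1, ENNReal.ofReal (WP P u q σ m) ≤
      (P.card : ℝ≥0∞) * ENNReal.ofReal (4 * σ) := by
  classical
  have hlt : ∀ p ∈ P, u p.1 < u p.2 := by
    intro p hp
    exact (mem_PT hP hp).1
  have hms : ∀ p ∈ P, MeasurableSet (St u q σ p) := by
    intro p hp
    rw [St_eq u q σ p (hlt p hp)]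
    exact measurableSet_Icc
  have hmeas : ∀ p ∈ P, Measurable ((St u q σ p).indicator (1 : ℝ → ℝ≥0∞)) := by
    intro p hp
    exact measurable_one.indicator (hms p hp)
  rw [lintegral_congr fun m => WP_eq u q σ T m P hP]
  rw [lintegral_finsetSum' _ fun p hp => ((hmeas p hp).const_mul _).aemeasurable]
  have h1 : ∀ p ∈ P, ∫⁻ m in Set.Icc (-1 : ℝ) 1,
      ENNReal.ofReal (u p.2 - u p.1) * (St u q σ p).indicator 1 m ≤ ENNReal.ofReal (4 * σ) := by
    intro p hp
    rw [lintegral_const_mul _ (hmeas p hp), lintegral_indicator_one (hms p hp),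
      ← vol_St u q σ p (hlt p hp)]
    exact mul_le_mul_right (Measure.restrict_le_self _) _
  refine (Finset.sum_le_sum h1).trans ?_
  rw [Finset.sum_const, nsmul_eq_mul]

theorem W3 {n : ℕ} (u q : Fin n → ℝ) (σ T : ℝ) (P : Finset (Fin n × Fin n)) (hσ : 0 < σ)
    (hP : P ⊆ PT u T) :
    ∫⁻ m in Set.Icc (-1 : ℝ) 1, ENNReal.ofReal (Real.sqrt (WP P u q σ m)) ≤
      ENNReal.ofReal (3 * Real.sqrt (P.card * σ)) := by
  rcases P.eq_empty_or_nonempty with rfl | hne
  · have h : ∀ m, WP (∅ : Finset (Fin n × Fin n)) u q σ m = 0 := by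
      intro m
      unfold WP
      simp
    simp [h]
  · have hcard : (0 : ℝ) < P.card := by exact_mod_cast hne.card_pos
    obtain ⟨c, hc⟩ : ∃ c : ℝ, c = Real.sqrt (2 * (P.card * σ)) := ⟨_, rfl⟩
    have hcp : 0 < c := by rw [hc]; exact Real.sqrt_pos.2 (by positivity)
    have hc2 : c ^ 2 = 2 * (P.card * σ) := by rw [hc]; exact Real.sq_sqrt (by positivity)
    have h0 : ∀ m, 0 ≤ WP P u q σ m := by
      intro m
      unfold WP
      refine Finset.sum_nonneg fun p hp => ?_
      exact (sub_pos.2 (mem_PT hP (Finset.mem_filter.1 hp).1).1).le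
    have hpt : ∀ m, ENNReal.ofReal (Real.sqrt (WP P u q σ m)) ≤
        ENNReal.ofReal (1 / (2 * c)) * ENNReal.ofReal (WP P u q σ m) +
          ENNReal.ofReal (c / 2) := by
      intro m
      rw [← ENNReal.ofReal_mul (by positivity), ← ENNReal.ofReal_add
        (mul_nonneg (by positivity) (h0 m)) (by positivity)]
      apply ENNReal.ofReal_le_ofReal
      have h1 := Real.sq_sqrt (h0 m)
      have h2 : 0 ≤ (Real.sqrt (WP P u q σ m) - c) ^ 2 := sq_nonneg _
      have h3 : 1 / (2 * c) * WP P u q σ m + c / 2 =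
          (WP P u q σ m + c ^ 2) / (2 * c) := by
        field_simp
      rw [h3, le_div_iff₀ (by positivity)]
      nlinarith
    calc ∫⁻ m in Set.Icc (-1 : ℝ) 1, ENNReal.ofReal (Real.sqrt (WP P u q σ m)) ≤
        ∫⁻ m in Set.Icc (-1 : ℝ) 1, (ENNReal.ofReal (1 / (2 * c)) *
          ENNReal.ofReal (WP P u q σ m) + ENNReal.ofReal (c / 2)) :=
          lintegral_mono fun m => hpt m
      _ = ENNReal.ofReal (1 / (2 * c)) *
          (∫⁻ m in Set.Icc (-1 : ℝ) 1, ENNReal.ofReal (WP P u q σ m)) +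
            ENNReal.ofReal (c / 2) * volume (Set.Icc (-1 : ℝ) 1) := by
          rw [lintegral_add_right _ measurable_const, lintegral_const,
            lintegral_const_mul' _ _ ENNReal.ofReal_ne_top, Measure.restrict_apply_univ]
      _ ≤ ENNReal.ofReal (1 / (2 * c)) * ((P.card : ℝ≥0∞) * ENNReal.ofReal (4 * σ)) +
            ENNReal.ofReal (c / 2) * ENNReal.ofReal 2 := by
          refine add_le_add (mul_le_mul_right (int_WP u q σ T P hP) _) (le_of_eq ?_)
          rw [Real.volume_Icc]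
          norm_num
      _ = ENNReal.ofReal (1 / (2 * c) * ((P.card : ℝ) * (4 * σ)) + c / 2 * 2) := by
          rw [ENNReal.ofReal_add (by positivity) (by positivity),
            ENNReal.ofReal_mul (p := 1 / (2 * c)) (by positivity),
            ENNReal.ofReal_mul (p := (P.card : ℝ)) (by positivity), ENNReal.ofReal_natCast,
            ENNReal.ofReal_mul (p := c / 2) (by positivity)]
      _ ≤ ENNReal.ofReal (3 * Real.sqrt (P.card * σ)) := by
          apply ENNReal.ofReal_le_ofReal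
          have h3 : 1 / (2 * c) * ((P.card : ℝ) * (4 * σ)) + c / 2 * 2 = 2 * c := by
            have h4 : (P.card : ℝ) * (4 * σ) = 2 * c ^ 2 := by rw [hc2]; ring
            rw [h4]
            field_simp
            ring
          have h1 : c = Real.sqrt 2 * Real.sqrt (P.card * σ) := by
            rw [hc]
            exact Real.sqrt_mul (by norm_num) _
          rw [h3, h1]
          have h5 : Real.sqrt 2 ≤ 3 / 2 := by
            rw [Real.sqrt_le_left (by norm_num)]
            norm_num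
          have h6 : 0 ≤ Real.sqrt (P.card * σ) := by positivity
          nlinarith

theorem ab_le {n : ℕ} (u v : Fin n → ℝ) (m b : ℝ) (i j : Fin n) :
    ab u v m b {i, j} ≤ ab u v m b ∅ ∧ ab u v m b ∅ ≤ ab u v m b {i, j} + 2 := by
  classical
  unfold ab
  constructor
  · apply card_le_card
    intro l hl
    rw [mem_filter] at hl ⊢
    exact ⟨hl.1, by simp, hl.2.2⟩
  · have h1 : (univ.filter fun l => l ∉ (∅ : Finset (Fin n)) ∧ m * u l + b < v l) ⊆
        (univ.filter fun l => l ∉ ({i, j} : Finset (Fin n)) ∧ m * u l + b < v l) ∪ {i, j} := by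
      intro l hl
      rw [mem_filter] at hl
      rw [mem_union, mem_filter]
      by_cases h : l ∈ ({i, j} : Finset (Fin n))
      · exact Or.inr h
      · exact Or.inl ⟨hl.1, h, hl.2.2⟩
    refine (card_le_card h1).trans ((card_union_le _ _).trans ?_)
    gcongr
    exact card_le_two

theorem le_PI {n : ℕ} (u q : Fin n → ℝ) (σ m b : ℝ) (k : ℕ) (i j : Fin n) :
    PV q σ {v | ab u v m b {i, j} = k} ≤ PI u q σ k m b := by
  unfold PI
  apply measure_mono
  intro v hv
  have h1 := ab_le u v m b i j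
  have h2 : ab u v m b {i, j} = k := hv
  rw [h2] at h1
  exact h1

/-- superadditivity of the lower integral -/
theorem sum_lintegral_le {α ι : Type*} [MeasurableSpace α] (μ : Measure α) (s : Finset ι)
    (f : ι → α → ℝ≥0∞) : ∑ i ∈ s, ∫⁻ x, f i x ∂μ ≤ ∫⁻ x, ∑ i ∈ s, f i x ∂μ := by
  classical
  induction s using Finset.induction_on with
  | empty => simp
  | insert a s ha ih =>
    rw [sum_insert ha]
    calc ∫⁻ x, f a x ∂μ + ∑ i ∈ s, ∫⁻ x, f i x ∂μ
        ≤ ∫⁻ x, f a x ∂μ + ∫⁻ x, ∑ i ∈ s, f i x ∂μ := by gcongr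
      _ ≤ ∫⁻ x, (f a x + ∑ i ∈ s, f i x) ∂μ := le_lintegral_add _ _
      _ = ∫⁻ x, ∑ i ∈ insert a s, f i x ∂μ := by
          refine lintegral_congr fun x => ?_
          rw [sum_insert ha]

end FLAT3

open FLAT3 in
/-- flat short edges from left to right in a given set of pairs -/
theorem t_FLAT3 (h1 : S_PAIR) (_h2 : S_MEAS2) (h3 : S_GPI) : S_FLAT3 := by
  classical
  intro n u q σ T k P hσ hT hP
  have hc : 0 ≤ 2 * Real.sqrt T / σ := by positivity
  calc ∑ p ∈ P, PV q σ {v | |v p.2 - v p.1| ≤ u p.2 - u p.1 ∧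
        leftCount (fun l => (u l, v l)) p.1 p.2 = k}
      ≤ ∑ p ∈ P, ∫⁻ m in Set.Icc (-1 : ℝ) 1, ∫⁻ b, ENNReal.ofReal (u p.2 - u p.1) *
        (gd u q σ m b p.1 * gd u q σ m b p.2) * PI u q σ k m b := by
        refine sum_le_sum fun p hp => ?_
        have hp' : u p.1 < u p.2 := by
          exact (mem_PT hP hp).1
        refine (h1 n u q σ k p.1 p.2 hσ hp').trans ?_
        refine lintegral_mono fun m => lintegral_mono fun b => ?_
        show _ ≤ ENNReal.ofReal (u p.2 - u p.1) * (gd u q σ m b p.1 * gd u q σ m b p.2) *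
          PI u q σ k m b
        refine (le_of_eq (mul_assoc (ENNReal.ofReal (u p.2 - u p.1))
          (gd u q σ m b p.1 * gd u q σ m b p.2) _).symm).trans ?_
        gcongr
        exact le_PI u q σ m b k p.1 p.2
    _ ≤ ∫⁻ m in Set.Icc (-1 : ℝ) 1, ∑ p ∈ P, ∫⁻ b, ENNReal.ofReal (u p.2 - u p.1) *
        (gd u q σ m b p.1 * gd u q σ m b p.2) * PI u q σ k m b := sum_lintegral_le _ _ _
    _ ≤ ∫⁻ m in Set.Icc (-1 : ℝ) 1, ENNReal.ofReal (2 * Real.sqrt T / σ) *
        ENNReal.ofReal (Real.sqrt (WP P u q σ m)) := by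
        refine lintegral_mono fun m => ?_
        show ∑ p ∈ P, ∫⁻ b, ENNReal.ofReal (u p.2 - u p.1) *
          (gd u q σ m b p.1 * gd u q σ m b p.2) * PI u q σ k m b ≤ _
        calc ∑ p ∈ P, ∫⁻ b, ENNReal.ofReal (u p.2 - u p.1) *
              (gd u q σ m b p.1 * gd u q σ m b p.2) * PI u q σ k m b
            ≤ ∫⁻ b, ∑ p ∈ P, ENNReal.ofReal (u p.2 - u p.1) *
              (gd u q σ m b p.1 * gd u q σ m b p.2) * PI u q σ k m b := sum_lintegral_le _ _ _
          _ ≤ ∫⁻ b, ENNReal.ofReal (Real.sqrt T / (2 * σ) * Real.sqrt (WP P u q σ m)) *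
              ((∑ l, gd u q σ m b l) * PI u q σ k m b) := by
              refine lintegral_mono fun b => ?_
              show ∑ p ∈ P, ENNReal.ofReal (u p.2 - u p.1) *
                (gd u q σ m b p.1 * gd u q σ m b p.2) * PI u q σ k m b ≤ _
              rw [← sum_mul, ← mul_assoc]
              gcongr
              exact pt3 u q σ T m b P hσ hT hP
          _ = ENNReal.ofReal (Real.sqrt T / (2 * σ) * Real.sqrt (WP P u q σ m)) *
              ∫⁻ b, (∑ l, gd u q σ m b l) * PI u q σ k m b :=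
              lintegral_const_mul' _ _ ENNReal.ofReal_ne_top
          _ ≤ ENNReal.ofReal (Real.sqrt T / (2 * σ) * Real.sqrt (WP P u q σ m)) * 4 := by
              gcongr
              exact h3 n u q σ m k hσ
          _ = ENNReal.ofReal (2 * Real.sqrt T / σ) * ENNReal.ofReal (Real.sqrt (WP P u q σ m)) := by
              rw [← ENNReal.ofReal_mul hc, show (4 : ℝ≥0∞) = ENNReal.ofReal 4 by simp,
                ← ENNReal.ofReal_mul (by positivity)]
              congr 1
              field_simp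
              ring
    _ = ENNReal.ofReal (2 * Real.sqrt T / σ) *
        ∫⁻ m in Set.Icc (-1 : ℝ) 1, ENNReal.ofReal (Real.sqrt (WP P u q σ m)) :=
        lintegral_const_mul' _ _ ENNReal.ofReal_ne_top
    _ ≤ ENNReal.ofReal (2 * Real.sqrt T / σ) * ENNReal.ofReal (3 * Real.sqrt (P.card * σ)) := by
        gcongr
        exact W3 u q σ T P hσ hP
    _ = ENNReal.ofReal (6 * Real.sqrt (P.card * (T / σ))) := by
        rw [← ENNReal.ofReal_mul hc]
        congr 1
        have h6 : 0 < Real.sqrt σ := Real.sqrt_pos.2 hσ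
        have h7 : Real.sqrt σ * Real.sqrt σ = σ := Real.mul_self_sqrt hσ.le
        rw [Real.sqrt_mul (Nat.cast_nonneg _), Real.sqrt_mul (Nat.cast_nonneg _), Real.sqrt_div hT.le]
        rw [div_mul_eq_mul_div, ← mul_div_assoc, ← mul_div_assoc, div_eq_div_iff hσ.ne' h6.ne']
        calc 2 * Real.sqrt T * (3 * (Real.sqrt P.card * Real.sqrt σ)) * Real.sqrt σ
            = 6 * (Real.sqrt P.card * Real.sqrt T) * (Real.sqrt σ * Real.sqrt σ) := by ring
          _ = 6 * (Real.sqrt P.card * Real.sqrt T) * σ := by rw [h7]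

end Pool.Agent.N378.SK
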