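import Pool.Agent.N378.SK.Stm

set_option autoImplicit false

/-!
# Project SK, leaf GP: almost all configurations are in general position (helper527)
-/

namespace Pool.Agent.N378.SK

open MeasureTheory Finset
open scoped ENNReal

theorem null_of_update {n : ℕ} (μ : Fin n → Measure (ℝ × ℝ)) [∀ i, IsProbabilityMeasure (μ i)]
    (B : Set (Fin n → ℝ × ℝ)) (hB : MeasurableSet B) (l : Fin n)
    (h : ∀ x : Fin n → ℝ × ℝ, μ l {y | Function.update x l y ∈ B} = 0) :
    Measure.pi μ B = 0 := by
  have hf : Measurable (B.indicator (1 : (Fin n → ℝ × ℝ) → ℝ≥0∞)) := measurable_one.indicator hB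
  rw [← lintegral_indicator_one hB, lintegral_eq_lmarginal_univ (μ := μ) (fun _ => (0, 0)),
    lmarginal_erase' _ hf (Finset.mem_univ l)]
  have h0 : (fun x : Fin n → ℝ × ℝ => ∫⁻ y, B.indicator (1 : (Fin n → ℝ × ℝ) → ℝ≥0∞)
      (Function.update x l y) ∂μ l) = fun _ => 0 := by
    funext x
    have hm : MeasurableSet {y | Function.update x l y ∈ B} := measurable_update x hB
    have h1 : (fun y => B.indicator (1 : (Fin n → ℝ × ℝ) → ℝ≥0∞) (Function.update x l y)) =
        {y | Function.update x l y ∈ B}.indicator 1 := by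
      funext y
      by_cases hy : Function.update x l y ∈ B
      · have hy' : y ∈ {y | Function.update x l y ∈ B} := hy
        rw [Set.indicator_of_mem hy, Set.indicator_of_mem hy']
        rfl
      · have hy' : y ∉ {y | Function.update x l y ∈ B} := hy
        rw [Set.indicator_of_notMem hy, Set.indicator_of_notMem hy']
    rw [h1, lintegral_indicator_one hm]
    exact h x
  rw [h0]
  simp [lmarginal]

theorem vert_null (c : ℝ) : (volume : Measure (ℝ × ℝ)) {y | y.1 = c} = 0 := by
  have h : {y : ℝ × ℝ | y.1 = c} = {c} ×ˢ Set.univ := by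
    ext y
    simp
  rw [h, Measure.volume_eq_prod, Measure.prod_prod, Real.volume_singleton, zero_mul]

theorem graph_null (f : ℝ → ℝ) (hf : Measurable f) :
    (volume : Measure (ℝ × ℝ)) {y | y.2 = f y.1} = 0 := by
  have hm : MeasurableSet {y : ℝ × ℝ | y.2 = f y.1} :=
    measurableSet_eq_fun measurable_snd (hf.comp measurable_fst)
  rw [Measure.volume_eq_prod, Measure.measure_prod_null hm]
  refine Filter.Eventually.of_forall fun x => ?_
  have h : Prod.mk x ⁻¹' {y : ℝ × ℝ | y.2 = f y.1} = {f x} := by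
    ext y
    simp
  simp only [h, Real.volume_singleton, Pi.zero_apply]

theorem line_null (p q : ℝ × ℝ) (h : p.1 ≠ q.1) :
    (volume : Measure (ℝ × ℝ)) {y | det3 p q y = 0} = 0 := by
  have hm : Measurable fun s : ℝ => p.2 + (q.2 - p.2) * (s - p.1) / (q.1 - p.1) := by
    fun_prop
  refine measure_mono_null ?_ (graph_null _ hm)
  intro y hy
  have hy' : (q.1 - p.1) * (y.2 - p.2) - (q.2 - p.2) * (y.1 - p.1) = 0 := hy
  have h0 : q.1 - p.1 ≠ 0 := sub_ne_zero.2 (Ne.symm h)
  show y.2 = p.2 + (q.2 - p.2) * (y.1 - p.1) / (q.1 - p.1)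
  field_simp
  linarith

theorem t_GP : S_GP := by
  intro n D μ hD hp hμ
  have hac : ∀ (i : Fin n) (A : Set (ℝ × ℝ)), volume A = 0 → μ i A = 0 := by
    intro i A hA
    refine le_antisymm ((hμ i A).trans ?_) (zero_le)
    rw [Measure.smul_apply, smul_eq_mul]
    have h1 : (volume.restrict square) A ≤ volume A := Measure.restrict_apply_le _ _
    rw [hA] at h1
    rw [le_antisymm h1 (zero_le), mul_zero]
  have hsqm : MeasurableSet square := measurableSet_Icc.prod measurableSet_Icc
  have hsq : ∀ i, μ i squareᶜ = 0 := by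
    intro i
    refine le_antisymm ((hμ i _).trans ?_) (zero_le)
    rw [Measure.smul_apply, smul_eq_mul, Measure.restrict_apply hsqm.compl, Set.compl_inter_self,
      measure_empty, mul_zero]
  have h1 : ∀ i j : Fin n, i ≠ j → ∀ᵐ x ∂(Measure.pi μ), (x i).1 ≠ (x j).1 := by
    intro i j hij
    have hm : MeasurableSet {x : Fin n → ℝ × ℝ | (x i).1 = (x j).1} :=
      measurableSet_eq_fun (measurable_pi_apply i).fst (measurable_pi_apply j).fst
    rw [ae_iff]
    refine measure_mono_null (t := {x : Fin n → ℝ × ℝ | (x i).1 = (x j).1})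
      (fun x hx => not_not.1 hx) (null_of_update μ _ hm j fun x => ?_)
    refine hac j _ (measure_mono_null ?_ (vert_null (x i).1))
    intro y hy
    have hy' : (Function.update x j y i).1 = (Function.update x j y j).1 := hy
    rw [Function.update_of_ne hij, Function.update_self] at hy'
    exact hy'.symm
  have h2 : ∀ i j : Fin n, i ≠ j → ∀ᵐ x ∂(Measure.pi μ), (x i).2 ≠ (x j).2 := by
    intro i j hij
    have hm : MeasurableSet {x : Fin n → ℝ × ℝ | (x i).2 = (x j).2} :=
      measurableSet_eq_fun (measurable_pi_apply i).snd (measurable_pi_apply j).snd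
    rw [ae_iff]
    refine measure_mono_null (t := {x : Fin n → ℝ × ℝ | (x i).2 = (x j).2})
      (fun x hx => not_not.1 hx) (null_of_update μ _ hm j fun x => ?_)
    refine hac j _ (measure_mono_null ?_ (graph_null (fun _ => (x i).2) measurable_const))
    intro y hy
    have hy' : (Function.update x j y i).2 = (Function.update x j y j).2 := hy
    rw [Function.update_of_ne hij, Function.update_self] at hy'
    exact hy'.symm
  have h3 : ∀ i j l : Fin n, i ≠ j → i ≠ l → j ≠ l →
      ∀ᵐ x ∂(Measure.pi μ), ¬ ((x i).1 ≠ (x j).1 ∧ det3 (x i) (x j) (x l) = 0) := by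
    intro i j l hij hil hjl
    have hm1 : MeasurableSet {x : Fin n → ℝ × ℝ | (x i).1 = (x j).1} :=
      measurableSet_eq_fun (measurable_pi_apply i).fst (measurable_pi_apply j).fst
    have hm2 : MeasurableSet {x : Fin n → ℝ × ℝ | det3 (x i) (x j) (x l) = 0} := by
      have hd : Measurable fun x : Fin n → ℝ × ℝ => det3 (x i) (x j) (x l) := by
        unfold det3
        fun_prop
      exact measurableSet_eq_fun hd measurable_const
    have hm : MeasurableSet {x : Fin n → ℝ × ℝ | (x i).1 ≠ (x j).1 ∧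
        det3 (x i) (x j) (x l) = 0} := hm1.compl.inter hm2
    rw [ae_iff]
    refine measure_mono_null (t := {x : Fin n → ℝ × ℝ | (x i).1 ≠ (x j).1 ∧
        det3 (x i) (x j) (x l) = 0})
      (fun x hx => not_not.1 hx) (null_of_update μ _ hm l fun x => ?_)
    by_cases hx : (x i).1 = (x j).1
    · refine hac l _ (measure_mono_null ?_ (measure_empty))
      rintro y ⟨hy, -⟩
      rw [Function.update_of_ne hil, Function.update_of_ne hjl] at hy
      exact (hy hx).elim
    · refine hac l _ (measure_mono_null ?_ (line_null (x i) (x j) hx))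
      rintro y ⟨-, hy⟩
      rw [Function.update_of_ne hil, Function.update_of_ne hjl, Function.update_self] at hy
      exact hy
  have h4 : ∀ i : Fin n, ∀ᵐ x ∂(Measure.pi μ), x i ∈ square := by
    intro i
    have hm : MeasurableSet {x : Fin n → ℝ × ℝ | x i ∈ squareᶜ} :=
      measurable_pi_apply i hsqm.compl
    rw [ae_iff]
    refine measure_mono_null (t := {x : Fin n → ℝ × ℝ | x i ∈ squareᶜ})
      (fun x hx => hx) (null_of_update μ _ hm i fun x => ?_)
    refine measure_mono_null ?_ (hsq i)
    intro y hy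
    have hy' : Function.update x i y i ∈ squareᶜ := hy
    rw [Function.update_self] at hy'
    exact hy'
  have h1' : ∀ᵐ x ∂(Measure.pi μ), ∀ i j : Fin n, i ≠ j → (x i).1 ≠ (x j).1 := by
    simp only [ae_all_iff]
    exact h1
  have h2' : ∀ᵐ x ∂(Measure.pi μ), ∀ i j : Fin n, i ≠ j → (x i).2 ≠ (x j).2 := by
    simp only [ae_all_iff]
    exact h2
  have h3' : ∀ᵐ x ∂(Measure.pi μ), ∀ i j l : Fin n, i ≠ j → i ≠ l → j ≠ l →
      ¬ ((x i).1 ≠ (x j).1 ∧ det3 (x i) (x j) (x l) = 0) := by
    simp only [ae_all_iff]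
    exact h3
  have h4' : ∀ᵐ x ∂(Measure.pi μ), ∀ i : Fin n, x i ∈ square := by
    simp only [ae_all_iff]
    exact h4
  filter_upwards [h1', h2', h3', h4'] with x g1 g2 g3 g4
  refine ⟨⟨fun i j hij => ⟨g1 i j hij, g2 i j hij⟩, fun i j l hij hil hjl h0 => ?_⟩, g4⟩
  exact g3 i j l hij hil hjl ⟨g1 i j hij, h0⟩

end Pool.Agent.N378.SK
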