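import Pool.Agent.N378.SK.Stm2

/-!
Project SK (helper378), leaf GPI (helper971): the integral over the lines of a fixed slope.
-/

set_option autoImplicit false

namespace Pool.Agent.N378.SK

open MeasureTheory Finset
open scoped ENNReal

namespace GPI

theorem ab_le {n : ℕ} (u v : Fin n → ℝ) (m b : ℝ) (l : Fin n) :
    ab u v m b {l} ≤ ab u v m b ∅ ∧ ab u v m b ∅ - 1 ≤ ab u v m b {l} := by
  classical
  constructor
  · unfold ab
    apply Finset.card_le_card
    intro l' h
    rw [Finset.mem_filter] at h ⊢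
    exact ⟨h.1, Finset.notMem_empty _, h.2.2⟩
  · unfold ab
    refine Finset.pred_card_le_card_erase (a := l) |>.trans (Finset.card_le_card ?_)
    intro l' h
    rw [Finset.mem_erase, Finset.mem_filter] at h
    rw [Finset.mem_filter]
    exact ⟨h.2.1, by rw [Finset.mem_singleton]; exact h.1, h.2.2.2⟩

theorem PI_le {n : ℕ} (u q : Fin n → ℝ) (σ : ℝ) (k : ℕ) (m b : ℝ) (l : Fin n) :
    PI u q σ k m b ≤
      ∑ k' ∈ Finset.Icc (k - 1) (k + 2), PV q σ {v | ab u v m b {l} = k'} := by
  unfold PI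
  refine (measure_mono ?_).trans (measure_biUnion_finset_le _ _)
  rintro v ⟨h1, h2⟩
  obtain ⟨h3, h4⟩ := ab_le u v m b l
  rw [Set.mem_iUnion₂]
  exact ⟨ab u v m b {l}, Finset.mem_Icc.2 ⟨by omega, by omega⟩, rfl⟩

end GPI

open GPI in
theorem t_GPI (h1 : S_ORD) (h2 : S_MEAS2) : S_GPI := by
  intro n u q σ m k hσ
  have hm : ∀ (k' : ℕ) (l : Fin n),
      Measurable fun b : ℝ => gd u q σ m b l * PV q σ {v | ab u v m b {l} = k'} := by
    intro k' l
    have hc : Measurable fun b : ℝ => (m, b) := measurable_const.prodMk measurable_id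
    have e1 := (h2 n u q σ k' {l} hσ).1.comp hc
    have e2 := ((h2 n u q σ k' {l} hσ).2 l).comp hc
    simp only [Function.comp_def] at e1 e2
    exact Measurable.mul e2 e1
  calc ∫⁻ b, (∑ l, gd u q σ m b l) * PI u q σ k m b
      ≤ ∫⁻ b, ∑ k' ∈ Finset.Icc (k - 1) (k + 2), ∑ l,
          gd u q σ m b l * PV q σ {v | ab u v m b {l} = k'} := by
        apply lintegral_mono
        intro b
        show (∑ l, gd u q σ m b l) * PI u q σ k m b ≤
          ∑ k' ∈ Finset.Icc (k - 1) (k + 2), ∑ l,
            gd u q σ m b l * PV q σ {v | ab u v m b {l} = k'}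
        rw [Finset.sum_comm, Finset.sum_mul]
        refine Finset.sum_le_sum fun l _ => ?_
        rw [← Finset.mul_sum]
        gcongr
        exact PI_le u q σ k m b l
    _ = ∑ k' ∈ Finset.Icc (k - 1) (k + 2), ∑ l,
          ∫⁻ b, gd u q σ m b l * PV q σ {v | ab u v m b {l} = k'} := by
        rw [lintegral_finsetSum _ fun k' _ => Finset.measurable_sum _ fun l _ => hm k' l]
        refine Finset.sum_congr rfl fun k' _ => ?_
        rw [lintegral_finsetSum _ fun l _ => hm k' l]
    _ ≤ ∑ k' ∈ Finset.Icc (k - 1) (k + 2), 1 :=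
        Finset.sum_le_sum fun k' _ => h1 n u q σ m k' hσ
    _ ≤ 4 := by
        rw [Finset.sum_const, Nat.card_Icc, nsmul_eq_mul, mul_one]
        have h3 : k + 2 + 1 - (k - 1) ≤ 4 := by omega
        exact_mod_cast h3

end Pool.Agent.N378.SK
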