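import Pool.Agent.N378.SK.Stm

set_option autoImplicit false

/-!
# Project SK (helper378): the number of long `k`-edges (task LONG, by helper394)
-/

namespace Pool.Agent.N378.SK

open MeasureTheory Finset
open scoped ENNReal

namespace LONG

theorem leftCount_congr {n : ℕ} {x x' : Fin n → ℝ × ℝ}
    (h : ∀ i j l, det3 (x' i) (x' j) (x' l) = det3 (x i) (x j) (x l)) (i j : Fin n) :
    leftCount x' i j = leftCount x i j := by
  unfold leftCount
  simp only [h]

theorem KE_congr {n : ℕ} {x x' : Fin n → ℝ × ℝ}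
    (h : ∀ i j l, det3 (x' i) (x' j) (x' l) = det3 (x i) (x j) (x l)) (k : ℕ) :
    KE x' k = KE x k := by
  unfold KE
  simp only [leftCount_congr h]

open Classical in
theorem posSum (h : S_LOV) {n : ℕ} (x : Fin n → ℝ × ℝ) (k : ℕ) (hx : GP x)
    (hb : ∀ i, |(x i).1| ≤ 1) :
    ∑ p ∈ KE x k, max 0 ((x p.2).1 - (x p.1).1) ≤ 2 * ((k : ℝ) + 1) := by
  have key : ∑ p ∈ KE x k, volume (Set.Ioo (x p.1).1 (x p.2).1) ≤
      ENNReal.ofReal (2 * ((k : ℝ) + 1)) := by
    calc ∑ p ∈ KE x k, volume (Set.Ioo (x p.1).1 (x p.2).1)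
        = ∑ p ∈ KE x k, ∫⁻ s in Set.Icc (-1 : ℝ) 1,
            (Set.Ioo (x p.1).1 (x p.2).1).indicator (1 : ℝ → ℝ≥0∞) s := by
          refine Finset.sum_congr rfl fun p _ => ?_
          rw [lintegral_indicator_one measurableSet_Ioo, Measure.restrict_apply measurableSet_Ioo,
            Set.inter_eq_left.2]
          intro s hs
          have h1 := abs_le.1 (hb p.1)
          have h2 := abs_le.1 (hb p.2)
          exact ⟨by linarith [hs.1], by linarith [hs.2]⟩
      _ = ∫⁻ s in Set.Icc (-1 : ℝ) 1, ∑ p ∈ KE x k,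
            (Set.Ioo (x p.1).1 (x p.2).1).indicator (1 : ℝ → ℝ≥0∞) s := by
          rw [lintegral_finsetSum]
          intro p _
          exact measurable_one.indicator measurableSet_Ioo
      _ ≤ ∫⁻ _s in Set.Icc (-1 : ℝ) 1, ((k + 1 : ℕ) : ℝ≥0∞) := by
          refine lintegral_mono fun s => ?_
          have h1 := h n x k s hx
          have h2 : ∑ p ∈ KE x k, (Set.Ioo (x p.1).1 (x p.2).1).indicator (1 : ℝ → ℝ≥0∞) s =
              ((((KE x k).filter fun p => (x p.1).1 < s ∧ s < (x p.2).1).card : ℕ) : ℝ≥0∞) := by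
            rw [Finset.card_filter]
            push_cast
            refine Finset.sum_congr rfl fun p _ => ?_
            rw [Set.indicator_apply]
            rfl
          rw [h2]
          exact Nat.cast_le.2 h1
      _ = ENNReal.ofReal (2 * ((k : ℝ) + 1)) := by
          rw [lintegral_const, Measure.restrict_apply MeasurableSet.univ, Set.univ_inter,
            Real.volume_Icc, ← ENNReal.ofReal_natCast, ← ENNReal.ofReal_mul (by positivity)]
          congr 1
          push_cast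
          ring
  have h2 : ∑ p ∈ KE x k, volume (Set.Ioo (x p.1).1 (x p.2).1) =
      ENNReal.ofReal (∑ p ∈ KE x k, max 0 ((x p.2).1 - (x p.1).1)) := by
    rw [ENNReal.ofReal_sum_of_nonneg fun p _ => le_max_left _ _]
    refine Finset.sum_congr rfl fun p _ => ?_
    rw [Real.volume_Ioo]
    rcases le_total ((x p.2).1 - (x p.1).1) 0 with h3 | h3
    · rw [max_eq_left h3, ENNReal.ofReal_of_nonpos h3, ENNReal.ofReal_zero]
    · rw [max_eq_right h3]
  rw [h2] at key
  exact (ENNReal.ofReal_le_ofReal_iff (by positivity)).1 key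

/-- the sum of the widths -/
theorem absSum (h : S_LOV) {n : ℕ} (x : Fin n → ℝ × ℝ) (k : ℕ) (hx : GP x)
    (hb : ∀ i, |(x i).1| ≤ 1) :
    ∑ p ∈ KE x k, |(x p.2).1 - (x p.1).1| ≤ 4 * ((k : ℝ) + 1) := by
  have hd : ∀ i j l, det3 (-x i) (-x j) (-x l) = det3 (x i) (x j) (x l) := by
    intro i j l
    simp only [det3, Prod.fst_neg, Prod.snd_neg]
    ring
  have hG : GP (fun i => -x i) := by
    refine ⟨fun i j hij => ⟨?_, ?_⟩, fun i j l h1 h2 h3 => ?_⟩
    · intro h0
      exact (hx.1 i j hij).1 (neg_injective h0)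
    · intro h0
      exact (hx.1 i j hij).2 (neg_injective h0)
    · rw [hd]
      exact hx.2 i j l h1 h2 h3
  have h1 := posSum h x k hx hb
  have h2 := posSum h (fun i => -x i) k hG (fun i => by
    rw [Prod.fst_neg, abs_neg]
    exact hb i)
  rw [KE_congr hd k] at h2
  have h3 : ∑ p ∈ KE x k, |(x p.2).1 - (x p.1).1| =
      ∑ p ∈ KE x k, max 0 ((x p.2).1 - (x p.1).1) +
        ∑ p ∈ KE x k, max 0 ((-x p.2).1 - (-x p.1).1) := by
    rw [← Finset.sum_add_distrib]
    refine Finset.sum_congr rfl fun p _ => ?_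
    rw [Prod.fst_neg, Prod.fst_neg]
    rcases le_total 0 ((x p.2).1 - (x p.1).1) with h4 | h4
    · rw [abs_of_nonneg h4, max_eq_right h4, max_eq_left (by linarith)]
      ring
    · rw [abs_of_nonpos h4, max_eq_left h4, max_eq_right (by linarith)]
      ring
  rw [h3]
  linarith

/-- the sum of the heights -/
theorem absSum2 (h : S_LOV) {n : ℕ} (x : Fin n → ℝ × ℝ) (k : ℕ) (hx : GP x)
    (hb : ∀ i, |(x i).2| ≤ 1) :
    ∑ p ∈ KE x k, |(x p.2).2 - (x p.1).2| ≤ 4 * ((k : ℝ) + 1) := by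
  have hd : ∀ i j l, det3 ((x i).2, -(x i).1) ((x j).2, -(x j).1) ((x l).2, -(x l).1) =
      det3 (x i) (x j) (x l) := by
    intro i j l
    simp only [det3]
    ring
  have hG : GP (fun i => ((x i).2, -(x i).1)) := by
    refine ⟨fun i j hij => ⟨?_, ?_⟩, fun i j l h1 h2 h3 => ?_⟩
    · exact (hx.1 i j hij).2
    · intro h0
      exact (hx.1 i j hij).1 (neg_injective h0)
    · rw [hd]
      exact hx.2 i j l h1 h2 h3
  have h1 := absSum h (fun i => ((x i).2, -(x i).1)) k hG hb
  rw [KE_congr hd k] at h1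
  exact h1

end LONG

open Classical in
theorem t_LONG (h : S_LOV) : S_LONG := by
  intro n x k t hx hsq ht
  have hb1 : ∀ i, |(x i).1| ≤ 1 := fun i => abs_le.2 (hsq i).1
  have hb2 : ∀ i, |(x i).2| ≤ 1 := fun i => abs_le.2 (hsq i).2
  have h1 := LONG.absSum h x k hx hb1
  have h2 := LONG.absSum2 h x k hx hb2
  calc (((KE x k).filter fun p => t ≤ ‖x p.2 - x p.1‖).card : ℝ) * t
      = ∑ p ∈ (KE x k).filter (fun p => t ≤ ‖x p.2 - x p.1‖), t := by
        rw [Finset.sum_const, nsmul_eq_mul]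
    _ ≤ ∑ p ∈ (KE x k).filter (fun p => t ≤ ‖x p.2 - x p.1‖),
          (|(x p.2).1 - (x p.1).1| + |(x p.2).2 - (x p.1).2|) := by
        refine Finset.sum_le_sum fun p hp => ?_
        refine (Finset.mem_filter.1 hp).2.trans ?_
        rw [Prod.norm_def, Real.norm_eq_abs, Real.norm_eq_abs]
        refine max_le ?_ ?_
        · exact le_add_of_nonneg_right (abs_nonneg _)
        · exact le_add_of_nonneg_left (abs_nonneg _)
    _ ≤ ∑ p ∈ KE x k, (|(x p.2).1 - (x p.1).1| + |(x p.2).2 - (x p.1).2|) :=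
        Finset.sum_le_sum_of_subset_of_nonneg (Finset.filter_subset _ _)
          fun p _ _ => add_nonneg (abs_nonneg _) (abs_nonneg _)
    _ = ∑ p ∈ KE x k, |(x p.2).1 - (x p.1).1| + ∑ p ∈ KE x k, |(x p.2).2 - (x p.1).2| :=
        Finset.sum_add_distrib
    _ ≤ 8 * (k + 1) := by linarith

end Pool.Agent.N378.SK
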