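import Pool.Agent.N378.SK.Stm

set_option autoImplicit false

/-!
# Project SK, LOV: Lovasz' lemma for directed `k`-edges
-/

namespace Pool.Agent.N378.SK

open MeasureTheory Finset
open scoped ENNReal

namespace LOV

/-- the slope of the line from `p` to `q` -/
noncomputable def sl (p q : ℝ × ℝ) : ℝ := (q.2 - p.2) / (q.1 - p.1)

/-- the height of `p` over the line of slope `s` through the origin -/
def ht (s : ℝ) (p : ℝ × ℝ) : ℝ := p.2 - s * p.1

lemma det_eq {p q : ℝ × ℝ} (h : p.1 < q.1) (r : ℝ × ℝ) :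
    det3 p q r = (q.1 - p.1) * (ht (sl p q) r - ht (sl p q) p) := by
  have hd : q.1 - p.1 ≠ 0 := by
    intro h0
    linarith
  have h1 : sl p q * (q.1 - p.1) = q.2 - p.2 := by
    unfold sl
    rw [div_mul_cancel₀ _ hd]
  unfold det3 ht
  rw [← h1]
  ring

lemma ht_end {p q : ℝ × ℝ} (h : p.1 < q.1) : ht (sl p q) q = ht (sl p q) p := by
  have hd : q.1 - p.1 ≠ 0 := by
    intro h0
    linarith
  have h1 : sl p q * (q.1 - p.1) = q.2 - p.2 := by
    unfold sl
    rw [div_mul_cancel₀ _ hd]
  unfold ht
  linarith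

lemma det_pos {p q : ℝ × ℝ} (h : p.1 < q.1) (r : ℝ × ℝ) :
    0 < det3 p q r ↔ ht (sl p q) p < ht (sl p q) r := by
  rw [det_eq h]
  have hd : 0 < q.1 - p.1 := by linarith
  rw [mul_pos_iff_of_pos_left hd, sub_pos]

open Classical in
/-- the points to the left of the directed line from `x i` to `x j` -/
noncomputable def A {n : ℕ} (x : Fin n → ℝ × ℝ) (i j : Fin n) : Finset (Fin n) :=
  univ.filter fun l => 0 < det3 (x i) (x j) (x l)

lemma card_A {n : ℕ} (x : Fin n → ℝ × ℝ) (i j : Fin n) : (A x i j).card = leftCount x i j := by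
  classical
  unfold A leftCount
  rw [Nat.card_eq_fintype_card, Fintype.card_subtype]

lemma mem_A {n : ℕ} {x : Fin n → ℝ × ℝ} {i j l : Fin n} (h : (x i).1 < (x j).1) :
    l ∈ A x i j ↔ ht (sl (x i) (x j)) (x i) < ht (sl (x i) (x j)) (x l) := by
  unfold A
  rw [mem_filter, det_pos h]
  exact ⟨fun h => h.2, fun h => ⟨mem_univ _, h⟩⟩

open Classical in
lemma key {n : ℕ} (x : Fin n → ℝ × ℝ) (k : ℕ) (t : ℝ) (i j i' j' : Fin n)
    (hi : (x i).1 < t) (hj : t < (x j).1) (hi' : (x i').1 < t) (hj' : t < (x j').1)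
    (hk : (A x i j).card = k) (hk' : (A x i' j').card = k)
    (hs : sl (x i) (x j) < sl (x i') (x j')) :
    ((A x i j).filter fun l => (x l).1 < t).card + 1 ≤
      ((A x i' j').filter fun l => (x l).1 < t).card := by
  have hij : (x i).1 < (x j).1 := hi.trans hj
  have hij' : (x i').1 < (x j').1 := hi'.trans hj'
  have hiA : i ∉ A x i j := by
    rw [mem_A hij]
    exact lt_irrefl _
  have hjA' : j' ∉ A x i' j' := by
    rw [mem_A hij', ht_end hij']
    exact lt_irrefl _
  set T := insert i (A x i j) with hT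
  set T' := insert j' (A x i' j') with hT'
  have cT : T.card = k + 1 := by rw [hT, card_insert_of_notMem hiA, hk]
  have cT' : T'.card = k + 1 := by rw [hT', card_insert_of_notMem hjA', hk']
  have e1 : (T.filter fun l => (x l).1 < t).card =
      ((A x i j).filter fun l => (x l).1 < t).card + 1 := by
    rw [hT, filter_insert, if_pos hi, card_insert_of_notMem]
    intro h
    exact hiA (mem_filter.1 h).1
  have e2 : (T'.filter fun l => (x l).1 < t).card =
      ((A x i' j').filter fun l => (x l).1 < t).card := by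
    rw [hT', filter_insert, if_neg (not_lt.2 hj'.le)]
  rw [← e1, ← e2]
  have hcon : ∀ p ∈ T \ T', (x p).1 < t → ∀ q ∈ T' \ T, (x q).1 < t := by
    intro p hp hpt q hq
    by_contra hqt
    rw [not_lt] at hqt
    rw [mem_sdiff] at hp hq
    have h1 : ht (sl (x i) (x j)) (x i) ≤ ht (sl (x i) (x j)) (x p) := by
      rcases mem_insert.1 hp.1 with h | h
      · rw [h]
      · exact ((mem_A hij).1 h).le
    have h2 : ht (sl (x i') (x j')) (x p) ≤ ht (sl (x i') (x j')) (x i') := by
      by_contra h
      rw [not_le] at h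
      exact hp.2 (mem_insert_of_mem ((mem_A hij').2 h))
    have h3 : ht (sl (x i') (x j')) (x i') ≤ ht (sl (x i') (x j')) (x q) := by
      rcases mem_insert.1 hq.1 with h | h
      · rw [h, ht_end hij']
      · exact ((mem_A hij').1 h).le
    have h4 : ht (sl (x i) (x j)) (x q) ≤ ht (sl (x i) (x j)) (x i) := by
      by_contra h
      rw [not_le] at h
      exact hq.2 (mem_insert_of_mem ((mem_A hij).2 h))
    have h5 := h4.trans h1
    have h6 := h2.trans h3
    unfold ht at h5 h6
    have h7 : 0 < (x q).1 - (x p).1 := by linarith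
    have h8 := mul_lt_mul_of_pos_right hs h7
    nlinarith
  by_cases hd : ∃ p ∈ T \ T', (x p).1 < t
  · obtain ⟨p, hp, hpt⟩ := hd
    have h1 := hcon p hp hpt
    have c1 : (T \ T').card + (T ∩ T').card = T.card := card_sdiff_add_card_inter T T'
    have c2 : (T' \ T).card + (T' ∩ T).card = T'.card := card_sdiff_add_card_inter T' T
    have c3 : (T ∩ T').card = (T' ∩ T).card := by rw [inter_comm]
    have s1 : (T.filter fun l => (x l).1 < t) ⊆
        ((T ∩ T').filter fun l => (x l).1 < t) ∪ (T \ T') := by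
      intro l hl
      rw [mem_filter] at hl
      by_cases h : l ∈ T'
      · exact mem_union_left _ (mem_filter.2 ⟨mem_inter.2 ⟨hl.1, h⟩, hl.2⟩)
      · exact mem_union_right _ (mem_sdiff.2 ⟨hl.1, h⟩)
    have s2 : ((T ∩ T').filter fun l => (x l).1 < t) ∪ (T' \ T) ⊆
        (T'.filter fun l => (x l).1 < t) := by
      intro l hl
      rcases mem_union.1 hl with h | h
      · rw [mem_filter, mem_inter] at h
        exact mem_filter.2 ⟨h.1.2, h.2⟩
      · exact mem_filter.2 ⟨(mem_sdiff.1 h).1, h1 l h⟩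
    have c4 := card_le_card s1
    have c5 := card_le_card s2
    have c6 := card_union_le ((T ∩ T').filter fun l => (x l).1 < t) (T \ T')
    have c7 : (((T ∩ T').filter fun l => (x l).1 < t) ∪ (T' \ T)).card =
        ((T ∩ T').filter fun l => (x l).1 < t).card + (T' \ T).card := by
      rw [card_union_of_disjoint]
      rw [Finset.disjoint_left]
      intro l hl hl'
      exact (mem_sdiff.1 hl').2 (mem_inter.1 (mem_filter.1 hl).1).1
    omega
  · push Not at hd
    refine card_le_card fun l hl => ?_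
    rw [mem_filter] at hl
    refine mem_filter.2 ⟨?_, hl.2⟩
    by_contra h
    exact absurd hl.2 (not_lt.2 (hd l (mem_sdiff.2 ⟨hl.1, h⟩)))

lemma low {n : ℕ} (x : Fin n → ℝ × ℝ) (k : ℕ) (i j i' j' : Fin n)
    (hij : (x i).1 < (x j).1) (hij' : (x i').1 < (x j').1)
    (hk : (A x i j).card = k) (hk' : (A x i' j').card = k)
    (hs : sl (x i) (x j) = sl (x i') (x j')) :
    ht (sl (x i) (x j)) (x i') ≤ ht (sl (x i) (x j)) (x i) := by
  classical
  by_contra h
  rw [not_le] at h
  have hne : i' ≠ j' := by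
    rintro rfl
    exact lt_irrefl _ hij'
  have h1 : insert i' (insert j' (A x i' j')) ⊆ A x i j := by
    intro l hl
    rw [mem_A hij]
    rcases mem_insert.1 hl with rfl | hl
    · exact h
    rcases mem_insert.1 hl with rfl | hl
    · rw [hs, ht_end hij', ← hs]
      exact h
    · rw [mem_A hij', ← hs] at hl
      exact h.trans hl
  have h2 : j' ∉ A x i' j' := by
    rw [mem_A hij', ht_end hij']
    exact lt_irrefl _
  have h3 : i' ∉ insert j' (A x i' j') := by
    rw [mem_insert, mem_A hij']
    rintro (h | h)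
    · exact hne h
    · exact lt_irrefl _ h
  have h4 := card_le_card h1
  rw [card_insert_of_notMem h3, card_insert_of_notMem h2, hk, hk'] at h4
  omega

lemma same {n : ℕ} (x : Fin n → ℝ × ℝ) (k : ℕ) (t : ℝ) (hx : GP x) (i j i' j' : Fin n)
    (hi : (x i).1 < t) (hj : t < (x j).1) (hi' : (x i').1 < t) (hj' : t < (x j').1)
    (hk : (A x i j).card = k) (hk' : (A x i' j').card = k)
    (hs : sl (x i) (x j) = sl (x i') (x j')) : i = i' ∧ j = j' := by
  have hij : (x i).1 < (x j).1 := hi.trans hj
  have hij' : (x i').1 < (x j').1 := hi'.trans hj'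
  have h1 := low x k i j i' j' hij hij' hk hk' hs
  have h2 := low x k i' j' i j hij' hij hk' hk hs.symm
  rw [← hs] at h2
  have h3 : ht (sl (x i) (x j)) (x i') = ht (sl (x i) (x j)) (x i) := le_antisymm h1 h2
  have h4 : ht (sl (x i) (x j)) (x j') = ht (sl (x i) (x j)) (x i) := by
    rw [hs, ht_end hij', ← hs, h3]
  have hne : i ≠ j := by
    rintro rfl
    exact lt_irrefl _ hij
  have hji' : j ≠ i' := by
    rintro rfl
    exact lt_irrefl _ (hj.trans hi')
  have hij2 : i ≠ j' := by
    rintro rfl
    exact lt_irrefl _ (hi.trans hj')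
  constructor
  · by_contra h
    apply hx.2 i j i' hne h hji'
    rw [det_eq hij, h3, sub_self, mul_zero]
  · by_contra h
    apply hx.2 i j j' hne hij2 h
    rw [det_eq hij, h4, sub_self, mul_zero]

end LOV

open LOV in
theorem t_LOV : S_LOV := by
  intro n x k t hx
  classical
  have hE : ∀ e ∈ (KE x k).filter (fun p => (x p.1).1 < t ∧ t < (x p.2).1),
      (A x e.1 e.2).card = k ∧ (x e.1).1 < t ∧ t < (x e.2).1 := by
    intro e he
    rw [mem_filter] at he
    unfold KE at he
    rw [mem_filter] at he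
    rw [card_A]
    exact ⟨he.1.2.2, he.2⟩
  have h1 : ((KE x k).filter fun p => (x p.1).1 < t ∧ t < (x p.2).1).card ≤
      (range (k + 1)).card := by
    refine card_le_card_of_injOn
      (fun e => ((A x e.1 e.2).filter fun l => (x l).1 < t).card) ?_ ?_
    · intro e he
      rw [coe_range, Set.mem_Iio]
      have h2 := hE e he
      have h3 := card_filter_le (A x e.1 e.2) (fun l => (x l).1 < t)
      show ((A x e.1 e.2).filter fun l => (x l).1 < t).card < k + 1
      omega
    · intro e he f hf hef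
      obtain ⟨a1, a2, a3⟩ := hE e he
      obtain ⟨b1, b2, b3⟩ := hE f hf
      have hef' : ((A x e.1 e.2).filter fun l => (x l).1 < t).card =
        ((A x f.1 f.2).filter fun l => (x l).1 < t).card := hef
      rcases lt_trichotomy (sl (x e.1) (x e.2)) (sl (x f.1) (x f.2)) with h | h | h
      · have := key x k t e.1 e.2 f.1 f.2 a2 a3 b2 b3 a1 b1 h
        omega
      · obtain ⟨c1, c2⟩ := same x k t hx e.1 e.2 f.1 f.2 a2 a3 b2 b3 a1 b1 h
        exact Prod.ext c1 c2
      · have := key x k t f.1 f.2 e.1 e.2 b2 b3 a2 a3 b1 a1 h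
        omega
  rw [card_range] at h1
  convert h1

end Pool.Agent.N378.SK
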