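import Pool.Agent.N378.SK.Stm

set_option autoImplicit false

/-!
# Project SK, leaf MAIN: the choice of the threshold (helper745)
-/

namespace Pool.Agent.N378.SK

open MeasureTheory Finset
open scoped ENNReal

theorem t_MAIN (h : S_COMB) : S_MAIN := by
  intro n D μ k hn hD hprob hμ
  have hn' : (0 : ℝ) < n := by exact_mod_cast hn
  have hDn : 0 < D * n := mul_pos hD hn'
  have hk : (0 : ℝ) < (k : ℝ) + 1 := by positivity
  set a : ℝ := (D * n) ^ (1 / 3 : ℝ) with ha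
  set b : ℝ := ((k : ℝ) + 1) ^ (1 / 3 : ℝ) with hb
  have ha0 : 0 < a := Real.rpow_pos_of_pos hDn _
  have hb0 : 0 < b := Real.rpow_pos_of_pos hk _
  have ha3 : a ^ 3 = D * n := by
    rw [ha, ← Real.rpow_natCast, ← Real.rpow_mul hDn.le]
    norm_num
  have hb3 : b ^ 3 = (k : ℝ) + 1 := by
    rw [hb, ← Real.rpow_natCast, ← Real.rpow_mul hk.le]
    norm_num
  have hb2 : ((k : ℝ) + 1) ^ (2 / 3 : ℝ) = b ^ 2 := by
    rw [hb, ← Real.rpow_natCast, ← Real.rpow_mul hk.le]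
    norm_num
  have ht : 0 < b / a := div_pos hb0 ha0
  refine (h n (ENNReal.ofReal D) μ k (b / a) ENNReal.ofReal_ne_top hprob hμ ht).trans ?_
  have e1 : (n : ℝ≥0∞) = ENNReal.ofReal (n : ℝ) := (ENNReal.ofReal_natCast n).symm
  rw [e1, ← ENNReal.ofReal_mul hD.le, ← ENNReal.ofReal_mul hn'.le,
    ← ENNReal.ofReal_add (by positivity) (by positivity), hb2]
  apply ENNReal.ofReal_le_ofReal
  rw [← hb3]
  have e2 : 8 * b ^ 3 / (b / a) = 8 * a * b ^ 2 := by
    field_simp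
  have e3 : (n : ℝ) * (D * (4 * (b / a) ^ 2)) = 4 * a * b ^ 2 := by
    have : (n : ℝ) * (D * (4 * (b / a) ^ 2)) = (D * n) * (4 * (b / a) ^ 2) := by ring
    rw [this, ← ha3]
    field_simp
  rw [e2, e3]
  apply le_of_eq
  ring

end Pool.Agent.N378.SK
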