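import Pool.Agent.N378.SK.Stm

set_option autoImplicit false

/-!
# Project SK: measurability (helper97)
-/

namespace Pool.Agent.N378.SK

open MeasureTheory Finset

theorem meas_det3 {n : ℕ} (i j l : Fin n) :
    MeasurableSet {x : Fin n → ℝ × ℝ | 0 < det3 (x i) (x j) (x l)} := by
  have h : Continuous fun x : Fin n → ℝ × ℝ => det3 (x i) (x j) (x l) := by
    unfold det3
    fun_prop
  exact (isOpen_lt continuous_const h).measurableSet

theorem leftCount_eq {n : ℕ} (x : Fin n → ℝ × ℝ) (i j : Fin n) :
    leftCount x i j = ∑ l, {y : Fin n → ℝ × ℝ | 0 < det3 (y i) (y j) (y l)}.indicator (fun _ => 1) x := by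
  classical
  unfold leftCount
  rw [Nat.card_eq_fintype_card, Fintype.card_subtype, card_filter]
  refine sum_congr rfl fun l _ => ?_
  rw [Set.indicator_apply]
  rfl

theorem t_MEAS : S_MEAS := by
  intro n i j k
  have h : Measurable fun x : Fin n → ℝ × ℝ => leftCount x i j := by
    simp only [leftCount_eq]
    exact Finset.measurable_sum _ fun l _ => measurable_const.indicator (meas_det3 i j l)
  exact h (measurableSet_singleton k)

end Pool.Agent.N378.SK
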