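import Pool.Agent.N378.SK.Stm2

set_option autoImplicit false

/-!
# Measurability (project SK, second group)
-/

namespace Pool.Agent.N378.SK

open MeasureTheory Finset
open scoped ENNReal

namespace Meas2Aux

theorem U1_prob (q s : ℝ) (hs : 0 < s) : IsProbabilityMeasure (U1 q s) := by
  refine ⟨?_⟩
  unfold U1
  rw [Measure.smul_apply, Measure.restrict_apply_univ, Real.volume_Icc, smul_eq_mul,
    show q + s - (q - s) = 2 * s by ring]
  refine ENNReal.inv_mul_cancel ?_ ENNReal.ofReal_ne_top
  rw [Ne, ENNReal.ofReal_eq_zero, not_le]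
  linarith

theorem PV_prob {n : ℕ} (q : Fin n → ℝ) (s : ℝ) (hs : 0 < s) : IsProbabilityMeasure (PV q s) := by
  have : ∀ l, IsProbabilityMeasure (U1 (q l) s) := fun l => U1_prob _ _ hs
  unfold PV
  infer_instance

theorem ab_meas {n : ℕ} (u : Fin n → ℝ) (E : Finset (Fin n)) :
    Measurable (fun z : (ℝ × ℝ) × (Fin n → ℝ) => ab u z.2 z.1.1 z.1.2 E) := by
  classical
  have h1 : (fun z : (ℝ × ℝ) × (Fin n → ℝ) => ab u z.2 z.1.1 z.1.2 E) =
      fun z => ∑ l : Fin n, if (l ∉ E ∧ z.1.1 * u l + z.1.2 < z.2 l) then 1 else 0 := by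
    funext z
    unfold ab
    rw [Finset.card_filter]
  rw [h1]
  refine Finset.measurable_sum _ fun l _ => ?_
  refine Measurable.ite ?_ measurable_const measurable_const
  by_cases hl : l ∈ E
  · have : {z : (ℝ × ℝ) × (Fin n → ℝ) | l ∉ E ∧ z.1.1 * u l + z.1.2 < z.2 l} = ∅ := by
      ext z
      simp [hl]
    rw [this]
    exact MeasurableSet.empty
  · have : {z : (ℝ × ℝ) × (Fin n → ℝ) | l ∉ E ∧ z.1.1 * u l + z.1.2 < z.2 l} =
        {z : (ℝ × ℝ) × (Fin n → ℝ) | z.1.1 * u l + z.1.2 < z.2 l} := by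
      ext z
      simp [hl]
    rw [this]
    refine measurableSet_lt ?_ ?_
    · exact ((measurable_fst.comp measurable_fst).mul_const _).add
        (measurable_snd.comp measurable_fst)
    · exact (measurable_pi_apply l).comp measurable_snd

end Meas2Aux

open Meas2Aux in
theorem t_MEAS2 : S_MEAS2 := by
  intro n u q σ k E hσ
  have hP := PV_prob q σ hσ
  refine ⟨?_, fun l => ?_⟩
  · have hset : MeasurableSet {z : (ℝ × ℝ) × (Fin n → ℝ) | ab u z.2 z.1.1 z.1.2 E = k} :=
      (ab_meas u E) (measurableSet_singleton k)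
    exact measurable_measure_prodMk_left hset
  · unfold gd
    refine Measurable.const_mul ?_ _
    have h1 : Measurable (fun z : ℝ × ℝ => z.1 * u l + z.2) :=
      (measurable_fst.mul_const _).add measurable_snd
    exact (measurable_one.indicator measurableSet_Icc).comp h1

end Pool.Agent.N378.SK
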