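import Pool.Agent.N378.SK.Stm3
import Pool.Agent.N378.SK.L_MEAS
import Pool.Agent.N378.SK.Main

set_option autoImplicit false

/-!
# Project SK, leaf ONE: one dyadic scale (helper891)
-/

namespace Pool.Agent.N378.SK

open MeasureTheory Finset
open scoped ENNReal

namespace OneAux

variable {n : ℕ}

/-- measurability of the numbers of short edges in a set of pairs -/
theorem meas_F (k : ℕ) (t : ℝ) (Q : Finset (Fin n × Fin n)) :
    open Classical in
    Measurable fun x : Fin n → ℝ × ℝ =>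
      (((KE x k).filter fun e => e ∈ Q ∧ ‖x e.2 - x e.1‖ < t).card : ℝ≥0∞) := by
  classical
  have e1 : (fun x : Fin n → ℝ × ℝ =>
      (((KE x k).filter fun e => e ∈ Q ∧ ‖x e.2 - x e.1‖ < t).card : ℝ≥0∞)) =
      fun x => ∑ e : Fin n × Fin n, ({x : Fin n → ℝ × ℝ | (e.1 ≠ e.2 ∧ leftCount x e.1 e.2 = k) ∧
        e ∈ Q ∧ ‖x e.2 - x e.1‖ < t}).indicator (1 : (Fin n → ℝ × ℝ) → ℝ≥0∞) x := by
    funext x
    unfold KE
    rw [Finset.filter_filter, Finset.card_filter, Nat.cast_sum]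
    refine Finset.sum_congr rfl fun e _ => ?_
    rw [Set.indicator_apply]
    simp only [Set.mem_ofPred_eq, Nat.cast_ite, Nat.cast_one, Nat.cast_zero, Pi.one_apply]
  rw [e1]
  refine Finset.measurable_fun_sum _ fun e _ => measurable_one.indicator ?_
  have hm : MeasurableSet {x : Fin n → ℝ × ℝ | ‖x e.2 - x e.1‖ < t} :=
    measurableSet_lt (by fun_prop) measurable_const
  refine MeasurableSet.inter (MeasurableSet.inter (MeasurableSet.const _) (t_MEAS n e.1 e.2 k)) ?_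
  exact MeasurableSet.inter (MeasurableSet.const _) hm

/-- the noise is bounded -/
theorem ae_ball (p : Fin n → ℝ × ℝ) (σ : ℝ) (hσ : 0 < σ) :
    ∀ᵐ x ∂(Measure.pi fun i => unif (p i) σ), ∀ i, ‖x i - p i‖ ≤ σ := by
  have : ∀ i, IsProbabilityMeasure (unif (p i) σ) := fun i => unif_prob (p i) σ hσ
  rw [ae_all_iff]
  intro i
  have h1 : ∀ᵐ y ∂(unif (p i) σ), ‖y - p i‖ ≤ σ := by
    unfold unif
    refine Measure.ae_smul_measure ?_ _
    filter_upwards [ae_restrict_mem (μ := volume) (Metric.isClosed_closedBall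
      (x := p i) (ε := σ)).measurableSet] with y hy
    rw [Metric.mem_closedBall, dist_eq_norm] at hy
    exact hy
  exact (measurePreserving_eval (fun i => unif (p i) σ) i).quasiMeasurePreserving.ae h1

/-- pairs near to each other, the first being light -/
noncomputable def Q1 (p : Fin n → ℝ × ℝ) (T M : ℝ) : Finset (Fin n × Fin n) :=
  open Classical in univ.filter fun e => ‖p e.2 - p e.1‖ ≤ 3 * T ∧ (bc p T e.1 : ℝ) ≤ n / M

/-- pairs near to each other, the second being light -/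
noncomputable def Q2 (p : Fin n → ℝ × ℝ) (T M : ℝ) : Finset (Fin n × Fin n) :=
  open Classical in univ.filter fun e => ‖p e.1 - p e.2‖ ≤ 3 * T ∧ (bc p T e.2 : ℝ) ≤ n / M

theorem card_Q1 (p : Fin n → ℝ × ℝ) (T M : ℝ) (hM : 0 < M) :
    ((Q1 p T M).card : ℝ) ≤ n * (n / M) := by
  classical
  have h : ((Q1 p T M).card : ℝ) ≤ ∑ i : Fin n, (n : ℝ) / M := by
    unfold Q1
    rw [Finset.card_filter, Nat.cast_sum, Fintype.sum_prod_type]
    refine Finset.sum_le_sum fun i _ => ?_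
    by_cases hi : (bc p T i : ℝ) ≤ n / M
    · refine le_trans (le_of_eq ?_) hi
      have hbc : (bc p T i : ℝ) = ∑ j, (((if ‖p j - p i‖ ≤ 3 * T then 1 else 0 : ℕ)) : ℝ) := by
        unfold bc
        rw [Finset.card_filter, Nat.cast_sum]
      refine Eq.trans (Finset.sum_congr rfl fun j _ => ?_) hbc.symm
      by_cases hj : ‖p j - p i‖ ≤ 3 * T
      · simp [hj, hi]
      · simp [hj]
    · have : ∀ j : Fin n, (((if ‖p j - p i‖ ≤ 3 * T ∧ (bc p T i : ℝ) ≤ n / M then 1 else 0 : ℕ)) : ℝ)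
          = 0 := by
        intro j
        simp [hi]
      rw [Finset.sum_eq_zero fun j _ => this j]
      positivity
  refine h.trans (le_of_eq ?_)
  rw [Finset.sum_const, Finset.card_univ, Fintype.card_fin, nsmul_eq_mul]

theorem card_Q2 (p : Fin n → ℝ × ℝ) (T M : ℝ) (hM : 0 < M) :
    ((Q2 p T M).card : ℝ) ≤ n * (n / M) := by
  classical
  refine le_trans (le_of_eq ?_) (card_Q1 p T M hM)
  norm_cast
  refine Finset.card_bij (fun e _ => (e.2, e.1)) ?_ ?_ ?_
  · intro e he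
    simp only [Q1, Q2, Finset.mem_filter, Finset.mem_univ, true_and] at he ⊢
    exact he
  · rintro ⟨a, b⟩ _ ⟨c, d⟩ _ h
    simp only [Prod.mk.injEq] at h
    rw [h.1, h.2]
  · rintro ⟨a, b⟩ hab
    refine ⟨(b, a), ?_, rfl⟩
    simp only [Q1, Q2, Finset.mem_filter, Finset.mem_univ, true_and] at hab ⊢
    exact hab

/-- the pointwise bound -/
theorem point (h2 : S_SQ) (p : Fin n → ℝ × ℝ) (σ T M : ℝ) (k : ℕ) (hσ : 0 < σ) (hT : σ ≤ T)
    (hM : 0 < M) (Z : Finset (Fin n)) (hZ : (Z.card : ℝ) ≤ M)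
    (hcov : ∀ i, (n : ℝ) / M < bc p T i → ∃ z ∈ Z, ‖p i - p z‖ ≤ 6 * T)
    (x : Fin n → ℝ × ℝ) (hx : GP x) (hb : ∀ i, ‖x i - p i‖ ≤ σ) :
    open Classical in
    (((KE x k).filter fun e => T / 2 ≤ ‖x e.2 - x e.1‖ ∧ ‖x e.2 - x e.1‖ < T).card : ℝ≥0∞) ≤
      (((KE x k).filter fun e => e ∈ Q1 p T M ∧ ‖x e.2 - x e.1‖ < T).card : ℝ≥0∞) +
      (ENNReal.ofReal (128 * (k + 1) * M) +
      (((KE x k).filter fun e => e ∈ Q2 p T M ∧ ‖x e.2 - x e.1‖ < T).card : ℝ≥0∞)) := by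
  classical
  have hT0 : 0 < T := lt_of_lt_of_le hσ hT
  set A := (KE x k).filter fun e => T / 2 ≤ ‖x e.2 - x e.1‖ ∧ ‖x e.2 - x e.1‖ < T with hA
  set F1 := (KE x k).filter fun e => e ∈ Q1 p T M ∧ ‖x e.2 - x e.1‖ < T with hF1
  set F2 := (KE x k).filter fun e => e ∈ Q2 p T M ∧ ‖x e.2 - x e.1‖ < T with hF2
  set F3 := Z.biUnion fun z => (KE x k).filter fun e => ‖x e.1 - p z‖ ≤ 8 * T ∧
    ‖x e.2 - p z‖ ≤ 8 * T ∧ T / 2 ≤ ‖x e.2 - x e.1‖ with hF3
  have hsub : A ⊆ F1 ∪ (F3 ∪ F2) := by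
    intro e he
    rw [hA, Finset.mem_filter] at he
    obtain ⟨heK, heT, heT2⟩ := he
    have hpp : ‖p e.2 - p e.1‖ ≤ 3 * T := by
      have e1 : p e.2 - p e.1 = (x e.2 - x e.1) - (x e.2 - p e.2) + (x e.1 - p e.1) := by abel
      rw [e1]
      calc ‖(x e.2 - x e.1) - (x e.2 - p e.2) + (x e.1 - p e.1)‖
          ≤ ‖(x e.2 - x e.1) - (x e.2 - p e.2)‖ + ‖x e.1 - p e.1‖ := norm_add_le _ _
        _ ≤ ‖x e.2 - x e.1‖ + ‖x e.2 - p e.2‖ + ‖x e.1 - p e.1‖ := by
            gcongr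
            exact norm_sub_le _ _
        _ ≤ T + σ + σ := by
            have := hb e.1
            have := hb e.2
            linarith
        _ ≤ 3 * T := by linarith
    have hpp' : ‖p e.1 - p e.2‖ ≤ 3 * T := by rw [norm_sub_rev]; exact hpp
    rw [Finset.mem_union, Finset.mem_union]
    by_cases g1 : (bc p T e.1 : ℝ) ≤ n / M
    · left
      rw [hF1, Finset.mem_filter]
      refine ⟨heK, ?_, heT2⟩
      simp only [Q1, Finset.mem_filter, Finset.mem_univ, true_and]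
      exact ⟨hpp, g1⟩
    · right
      by_cases g2 : (bc p T e.2 : ℝ) ≤ n / M
      · right
        rw [hF2, Finset.mem_filter]
        refine ⟨heK, ?_, heT2⟩
        simp only [Q2, Finset.mem_filter, Finset.mem_univ, true_and]
        exact ⟨hpp', g2⟩
      · left
        push Not at g1 g2
        obtain ⟨z, hz, hz6⟩ := hcov e.1 g1
        rw [hF3, Finset.mem_biUnion]
        refine ⟨z, hz, ?_⟩
        rw [Finset.mem_filter]
        have q1 : ‖x e.1 - p z‖ ≤ 7 * T := by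
          have e1 : x e.1 - p z = (x e.1 - p e.1) + (p e.1 - p z) := by abel
          rw [e1]
          refine (norm_add_le _ _).trans ?_
          have := hb e.1
          linarith
        have q2 : ‖x e.2 - p z‖ ≤ 8 * T := by
          have e1 : x e.2 - p z = (x e.2 - x e.1) + (x e.1 - p z) := by abel
          rw [e1]
          refine (norm_add_le _ _).trans ?_
          linarith
        exact ⟨heK, by linarith, q2, heT⟩
  have hcard : A.card ≤ F1.card + (F3.card + F2.card) :=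
    (Finset.card_le_card hsub).trans ((Finset.card_union_le _ _).trans
      (Nat.add_le_add_left (Finset.card_union_le _ _) _))
  have h3 : (F3.card : ℝ) ≤ 128 * (k + 1) * M := by
    have h4 : ∀ z ∈ Z, ((((KE x k).filter fun e => ‖x e.1 - p z‖ ≤ 8 * T ∧
        ‖x e.2 - p z‖ ≤ 8 * T ∧ T / 2 ≤ ‖x e.2 - x e.1‖).card : ℕ) : ℝ) ≤ 128 * (k + 1) := by
      intro z _
      have h5 := h2 n x k (T / 2) (8 * T) (p z) hx (by positivity) (by positivity)
      have h6 : (128 * ((k : ℝ) + 1)) * (T / 2) = 8 * (k + 1) * (8 * T) := by ring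
      rw [← h6] at h5
      exact le_of_mul_le_mul_right h5 (by positivity)
    calc (F3.card : ℝ) ≤ ((∑ z ∈ Z, ((KE x k).filter fun e => ‖x e.1 - p z‖ ≤ 8 * T ∧
        ‖x e.2 - p z‖ ≤ 8 * T ∧ T / 2 ≤ ‖x e.2 - x e.1‖).card : ℕ) : ℝ) := by
          exact_mod_cast Finset.card_biUnion_le
      _ = ∑ z ∈ Z, ((((KE x k).filter fun e => ‖x e.1 - p z‖ ≤ 8 * T ∧
        ‖x e.2 - p z‖ ≤ 8 * T ∧ T / 2 ≤ ‖x e.2 - x e.1‖).card : ℕ) : ℝ) := by push_cast; rfl
      _ ≤ ∑ z ∈ Z, (128 * ((k : ℝ) + 1)) := Finset.sum_le_sum h4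
      _ = Z.card * (128 * ((k : ℝ) + 1)) := by rw [Finset.sum_const, nsmul_eq_mul]
      _ ≤ M * (128 * ((k : ℝ) + 1)) := by gcongr
      _ = 128 * (k + 1) * M := by ring
  have h5 : (F3.card : ℝ≥0∞) ≤ ENNReal.ofReal (128 * (k + 1) * M) := by
    rw [← ENNReal.ofReal_natCast]
    exact ENNReal.ofReal_le_ofReal h3
  calc (A.card : ℝ≥0∞) ≤ ((F1.card + (F3.card + F2.card) : ℕ) : ℝ≥0∞) := by exact_mod_cast hcard
    _ = (F1.card : ℝ≥0∞) + ((F3.card : ℝ≥0∞) + (F2.card : ℝ≥0∞)) := by push_cast; rfl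
    _ ≤ _ := by gcongr

theorem num (n : ℕ) (N T M σ : ℝ) (hM : 0 < M) (hσ : 0 < σ) (hT : 0 < T)
    (hN : N ≤ n * (n / M)) :
    24 * Real.sqrt (N * (T / σ)) ≤ 24 * n * Real.sqrt (T / (M * σ)) := by
  have h1 : N * (T / σ) ≤ (n : ℝ) ^ 2 * (T / (M * σ)) := by
    calc N * (T / σ) ≤ (n * (n / M)) * (T / σ) := by gcongr
      _ = (n : ℝ) ^ 2 * (T / (M * σ)) := by field_simp
  have h2 : Real.sqrt (N * (T / σ)) ≤ n * Real.sqrt (T / (M * σ)) := by
    refine (Real.sqrt_le_sqrt h1).trans (le_of_eq ?_)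
    rw [Real.sqrt_mul (by positivity), Real.sqrt_sq (by positivity)]
  linarith

end OneAux

open OneAux in
theorem t_ONE (h1 : S_SH3) (h2 : S_SQ) (h3 : S_COV) (h4 : S_GP) : S_ONE := by
  intro n p σ T M k hσ hT hM hp
  classical
  have hT0 : 0 < T := lt_of_lt_of_le hσ hT
  obtain ⟨Z, hZ, hcov⟩ := h3 n p T M hT0 hM
  have hae : ∀ᵐ x ∂(Measure.pi fun i => unif (p i) σ), GP x ∧ ∀ i, x i ∈ square :=
    h4 n (ENNReal.ofReal (1 / (4 * σ ^ 2))) _ ENNReal.ofReal_ne_top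
      (fun i => unif_prob (p i) σ hσ) (fun i => unif_le (p i) σ hσ (hp i))
  have : ∀ i, IsProbabilityMeasure (unif (p i) σ) := fun i => unif_prob (p i) σ hσ
  have hpt : ∀ᵐ x ∂(Measure.pi fun i => unif (p i) σ),
      (((KE x k).filter fun e => T / 2 ≤ ‖x e.2 - x e.1‖ ∧ ‖x e.2 - x e.1‖ < T).card : ℝ≥0∞) ≤
      (((KE x k).filter fun e => e ∈ Q1 p T M ∧ ‖x e.2 - x e.1‖ < T).card : ℝ≥0∞) +
      (ENNReal.ofReal (128 * (k + 1) * M) +
      (((KE x k).filter fun e => e ∈ Q2 p T M ∧ ‖x e.2 - x e.1‖ < T).card : ℝ≥0∞)) := by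
    filter_upwards [hae, ae_ball p σ hσ] with x hx hb
    convert point h2 p σ T M k hσ hT hM Z hZ hcov x hx.1 hb using 1
  refine (lintegral_mono_ae hpt).trans ?_
  have m1 := meas_F (n := n) k T (Q1 p T M)
  have e1 := h1 n p σ T k (Q1 p T M) hσ hT0
  have e2 := h1 n p σ T k (Q2 p T M) hσ hT0
  have b1 := ENNReal.ofReal_le_ofReal (num n _ T M σ hM hσ hT0 (card_Q1 p T M hM))
  have b2 := ENNReal.ofReal_le_ofReal (num n _ T M σ hM hσ hT0 (card_Q2 p T M hM))
  rw [lintegral_add_left (by convert m1 using 1), lintegral_add_left measurable_const,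
    lintegral_const, measure_univ, mul_one]
  have hs : 0 ≤ Real.sqrt (T / (M * σ)) := Real.sqrt_nonneg _
  have fin : ENNReal.ofReal (48 * n * Real.sqrt (T / (M * σ)) + 128 * (k + 1) * M) =
      ENNReal.ofReal (24 * n * Real.sqrt (T / (M * σ))) +
      (ENNReal.ofReal (128 * (k + 1) * M) + ENNReal.ofReal (24 * n * Real.sqrt (T / (M * σ)))) := by
    rw [← ENNReal.ofReal_add (by positivity) (by positivity),
      ← ENNReal.ofReal_add (by positivity) (by positivity)]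
    congr 1
    ring
  rw [fin]
  refine add_le_add ?_ (add_le_add le_rfl ?_)
  · refine le_trans (le_of_eq ?_) (e1.trans b1)
    congr 1
  · refine le_trans (le_of_eq ?_) (e2.trans b2)
    congr 1

end Pool.Agent.N378.SK
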