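import Pool.Agent.N378.SK.Stm2
import Pool.Agent.H189R2.Lev.Core

/-!
# Project SK of helper378: the `(k+1)`-st highest point for a fixed slope (helper787)
-/

set_option autoImplicit false

namespace Pool.Agent.N378.SK

open MeasureTheory Finset
open scoped ENNReal

namespace ORD

theorem U1_prob (q σ : ℝ) (hσ : 0 < σ) : IsProbabilityMeasure (U1 q σ) := by
  constructor
  unfold U1
  rw [Measure.smul_apply, Measure.restrict_apply MeasurableSet.univ, Set.univ_inter,
    Real.volume_Icc, smul_eq_mul]
  have : q + σ - (q - σ) = 2 * σ := by ring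
  rw [this]
  refine ENNReal.inv_mul_cancel ?_ ENNReal.ofReal_ne_top
  rw [Ne, ENNReal.ofReal_eq_zero]
  linarith

theorem U1_singleton (q σ a : ℝ) : U1 q σ {a} = 0 := by
  unfold U1
  rw [Measure.smul_apply, smul_eq_mul]
  have h : (volume.restrict (Set.Icc (q - σ) (q + σ))) {a} = 0 := by
    refine le_antisymm ?_ bot_le
    exact (Measure.restrict_apply_le _ _).trans (by rw [Real.volume_singleton])
  rw [h, mul_zero]

variable {n : ℕ}

/-- the number of the larger values -/
noncomputable def rk (w : Fin n → ℝ) (l : Fin n) : ℕ :=
  open Classical in (univ.filter fun l' => l' ≠ l ∧ w l < w l').card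

theorem rk_lt {w : Fin n → ℝ} {l l' : Fin n} (h : w l < w l') : rk w l' < rk w l := by
  classical
  unfold rk
  apply Finset.card_lt_card
  rw [Finset.ssubset_iff_of_subset]
  · refine ⟨l', ?_, ?_⟩
    · simp only [Finset.mem_filter, Finset.mem_univ, true_and]
      exact ⟨fun e => by rw [e] at h; exact lt_irrefl _ h, h⟩
    · simp
  · intro x hx
    simp only [Finset.mem_filter, Finset.mem_univ, true_and] at hx ⊢
    refine ⟨fun e => ?_, h.trans hx.2⟩
    rw [e] at hx
    exact lt_asymm h hx.2

theorem rk_inj {w : Fin n → ℝ} (hw : Function.Injective w) : Function.Injective (rk w) := by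
  intro l l' h
  by_contra hne
  rcases lt_or_gt_of_ne (fun e => hne (hw e)) with h1 | h1
  · exact absurd h (rk_lt h1).ne'
  · exact absurd h (rk_lt h1).ne

theorem sum_le {w : Fin n → ℝ} (hw : Function.Injective w) (k : ℕ) :
    (open Classical in ∑ l, if rk w l = k then (1 : ℝ≥0∞) else 0) ≤ 1 := by
  classical
  rw [← Finset.sum_filter, Finset.sum_const, nsmul_eq_mul, mul_one]
  have h : (univ.filter fun l => rk w l = k).card ≤ 1 := by
    rw [Finset.card_le_one]
    intro a ha b hb
    rw [Finset.mem_filter] at ha hb
    exact rk_inj hw (ha.2.trans hb.2.symm)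
  exact_mod_cast h

theorem ab_eq (u v : Fin n → ℝ) (m : ℝ) (l : Fin n) :
    ab u v m (v l - m * u l) {l} = rk (fun l => v l - m * u l) l := by
  classical
  unfold ab rk
  congr 1
  refine Finset.filter_congr fun l' _ => ?_
  rw [Finset.mem_singleton]
  constructor
  · rintro ⟨h1, h2⟩
    exact ⟨h1, by simp only; linarith⟩
  · rintro ⟨h1, h2⟩
    exact ⟨h1, by simp only at h2; linarith⟩

theorem ab_update (u v : Fin n → ℝ) (m b y : ℝ) (l : Fin n) :
    ab u (Function.update v l y) m b {l} = ab u v m b {l} := by
  classical
  unfold ab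
  congr 1
  refine Finset.filter_congr fun l' _ => ?_
  rw [Finset.mem_singleton]
  refine and_congr_right fun h1 => ?_
  rw [Function.update_of_ne h1]

/-- measurability of the number of points -/
theorem meas_ab {α : Type} [MeasurableSpace α] (u : Fin n → ℝ) (m : ℝ) (E : Finset (Fin n))
    (f : α → Fin n → ℝ) (g : α → ℝ) (hf : Measurable f) (hg : Measurable g) :
    Measurable fun x => ab u (f x) m (g x) E := by
  classical
  unfold ab
  simp only [Finset.card_filter]
  refine Finset.measurable_sum _ fun l _ => ?_
  refine Measurable.ite ?_ measurable_const measurable_const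
  have h1 : MeasurableSet {x : α | m * u l + g x < f x l} :=
    measurableSet_lt (measurable_const.add hg) ((measurable_pi_apply l).comp hf)
  by_cases hl : l ∈ E
  · simp [hl]
  · simpa [hl] using h1

end ORD

open ORD in
theorem t_ORD (h : S_MEAS2) : S_ORD := by
  classical
  intro n u q σ m k hσ
  haveI : ∀ l, IsProbabilityMeasure (U1 (q l) σ) := fun l => U1_prob (q l) σ hσ
  haveI : IsProbabilityMeasure (PV q σ) := by
    unfold PV
    infer_instance
  -- almost surely the values are different
  have hae : ∀ᵐ v ∂PV q σ, Function.Injective fun l => v l - m * u l := by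
    have h1 : ∀ l l' : Fin n, l ≠ l' → ∀ᵐ v ∂PV q σ, v l - m * u l ≠ v l' - m * u l' := by
      intro l l' hne
      have hS : MeasurableSet {v : Fin n → ℝ | v l - m * u l = v l' - m * u l'} :=
        measurableSet_eq_fun (by fun_prop) (by fun_prop)
      rw [ae_iff]
      simp only [ne_eq, not_not]
      rw [← lintegral_indicator_one hS]
      unfold PV
      rw [Pool.Agent.H189R2.Lev.pi_update _ l (measurable_one.indicator hS)]
      have h2 : ∀ v : Fin n → ℝ, ∫⁻ y, ({v : Fin n → ℝ | v l - m * u l = v l' - m * u l'}.indicator
          (1 : (Fin n → ℝ) → ℝ≥0∞)) (Function.update v l y) ∂U1 (q l) σ = 0 := by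
        intro v
        have h3 : ∀ y, ({v : Fin n → ℝ | v l - m * u l = v l' - m * u l'}.indicator
            (1 : (Fin n → ℝ) → ℝ≥0∞)) (Function.update v l y) =
            ({v l' - m * u l' + m * u l} : Set ℝ).indicator 1 y := by
          intro y
          by_cases hy : y = v l' - m * u l' + m * u l
          · rw [Set.indicator_of_mem, Set.indicator_of_mem]
            · rfl
            · exact hy
            · show Function.update v l y l - m * u l = Function.update v l y l' - m * u l'
              rw [Function.update_self, Function.update_of_ne hne.symm, hy]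
              ring
          · rw [Set.indicator_of_notMem, Set.indicator_of_notMem]
            · exact hy
            · intro h4
              apply hy
              have h5 : Function.update v l y l - m * u l = Function.update v l y l' - m * u l' := h4
              rw [Function.update_self, Function.update_of_ne hne.symm] at h5
              linarith
        simp only [h3]
        rw [lintegral_indicator_one (measurableSet_singleton _), U1_singleton]
      simp only [h2, lintegral_zero]
    have h2 : ∀ᵐ v ∂PV q σ, ∀ l l' : Fin n, l ≠ l' → v l - m * u l ≠ v l' - m * u l' := by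
      rw [ae_all_iff]
      intro l
      rw [ae_all_iff]
      intro l'
      by_cases hne : l = l'
      · exact Filter.Eventually.of_forall fun v h => absurd hne h
      · filter_upwards [h1 l l' hne] with v hv _ using hv
    filter_upwards [h2] with v hv l l' e
    by_contra hne
    exact hv l l' hne e
  -- one term
  have hterm : ∀ l, ∫⁻ b, gd u q σ m b l * PV q σ {v | ab u v m b {l} = k} =
      ∫⁻ v, (if rk (fun l => v l - m * u l) l = k then (1 : ℝ≥0∞) else 0) ∂PV q σ := by
    intro l
    obtain ⟨F, hF⟩ : ∃ F : ℝ → ℝ≥0∞, F = fun b => PV q σ {v | ab u v m b {l} = k} := ⟨_, rfl⟩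
    have hFm : Measurable F := by
      rw [hF]
      exact (h n u q σ k {l} hσ).1.comp (measurable_const.prodMk measurable_id)
    have hc : (ENNReal.ofReal (2 * σ))⁻¹ ≠ ⊤ := by
      rw [Ne, ENNReal.inv_eq_top, ENNReal.ofReal_eq_zero]
      linarith
    have e1 : ∫⁻ b, gd u q σ m b l * PV q σ {v | ab u v m b {l} = k} =
        ∫⁻ y, (ENNReal.ofReal (2 * σ))⁻¹ * (Set.Icc (q l - σ) (q l + σ)).indicator 1 y *
          F (y - m * u l) := by
      rw [← lintegral_add_left_eq_self (fun y => (ENNReal.ofReal (2 * σ))⁻¹ *
        (Set.Icc (q l - σ) (q l + σ)).indicator 1 y * F (y - m * u l)) (m * u l)]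
      refine lintegral_congr fun b => ?_
      rw [gd, add_sub_cancel_left, hF]
    have e2 : ∫⁻ y, (ENNReal.ofReal (2 * σ))⁻¹ * (Set.Icc (q l - σ) (q l + σ)).indicator 1 y *
          F (y - m * u l) = ∫⁻ y, F (y - m * u l) ∂U1 (q l) σ := by
      unfold U1
      rw [lintegral_smul_measure, ← lintegral_indicator measurableSet_Icc, smul_eq_mul,
        ← lintegral_const_mul' _ _ hc]
      refine lintegral_congr fun y => ?_
      rw [mul_assoc]
      congr 1
      by_cases hy : y ∈ Set.Icc (q l - σ) (q l + σ)
      · rw [Set.indicator_of_mem hy, Set.indicator_of_mem hy]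
        simp
      · rw [Set.indicator_of_notMem hy, Set.indicator_of_notMem hy]
        simp
    have hH : Measurable fun z : ℝ × (Fin n → ℝ) => ab u z.2 m (z.1 - m * u l) {l} :=
      meas_ab u m {l} (fun z : ℝ × (Fin n → ℝ) => z.2) (fun z => z.1 - m * u l) measurable_snd
        (measurable_fst.sub measurable_const)
    have hHs : MeasurableSet {z : ℝ × (Fin n → ℝ) | ab u z.2 m (z.1 - m * u l) {l} = k} :=
      hH (measurableSet_singleton k)
    have e3 : ∀ y, F (y - m * u l) =
        ∫⁻ v, (if ab u v m (y - m * u l) {l} = k then (1 : ℝ≥0∞) else 0) ∂PV q σ := by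
      intro y
      have hs : MeasurableSet {v : Fin n → ℝ | ab u v m (y - m * u l) {l} = k} :=
        (meas_ab u m {l} (fun v : Fin n → ℝ => v) (fun _ => y - m * u l) measurable_id
          measurable_const) (measurableSet_singleton k)
      rw [hF]
      simp only
      rw [← lintegral_indicator_one hs]
      refine lintegral_congr fun v => ?_
      rw [Set.indicator_apply]
      rfl
    have e4 : ∫⁻ v, (if rk (fun l => v l - m * u l) l = k then (1 : ℝ≥0∞) else 0) ∂PV q σ =
        ∫⁻ v, ∫⁻ y, (if ab u v m (y - m * u l) {l} = k then (1 : ℝ≥0∞) else 0) ∂U1 (q l) σ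
          ∂PV q σ := by
      have hm : Measurable fun v : Fin n → ℝ =>
          (if ab u v m (v l - m * u l) {l} = k then (1 : ℝ≥0∞) else 0) := by
        refine Measurable.ite ?_ measurable_const measurable_const
        exact (meas_ab u m {l} (fun v : Fin n → ℝ => v) (fun v => v l - m * u l) measurable_id
          ((measurable_pi_apply l).sub measurable_const)) (measurableSet_singleton k)
      have e5 : (fun v : Fin n → ℝ =>
          (if rk (fun l => v l - m * u l) l = k then (1 : ℝ≥0∞) else 0)) = fun v =>
          (if ab u v m (v l - m * u l) {l} = k then (1 : ℝ≥0∞) else 0) := by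
        funext v
        rw [ab_eq]
      rw [e5]
      unfold PV
      rw [Pool.Agent.H189R2.Lev.pi_update _ l hm]
      refine lintegral_congr fun v => lintegral_congr fun y => ?_
      rw [Function.update_self, ab_update]
    rw [e1, e2, e4, lintegral_congr e3]
    refine lintegral_lintegral_swap ?_
    refine (Measurable.ite hHs measurable_const measurable_const).aemeasurable
  calc ∑ l, ∫⁻ b, gd u q σ m b l * PV q σ {v | ab u v m b {l} = k}
      = ∑ l, ∫⁻ v, (if rk (fun l => v l - m * u l) l = k then (1 : ℝ≥0∞) else 0) ∂PV q σ :=
        Finset.sum_congr rfl fun l _ => hterm l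
    _ = ∫⁻ v, ∑ l, (if rk (fun l => v l - m * u l) l = k then (1 : ℝ≥0∞) else 0) ∂PV q σ := by
        rw [lintegral_finset_sum]
        intro l _
        have e5 : (fun v : Fin n → ℝ =>
            (if rk (fun l => v l - m * u l) l = k then (1 : ℝ≥0∞) else 0)) = fun v =>
            (if ab u v m (v l - m * u l) {l} = k then (1 : ℝ≥0∞) else 0) := by
          funext v
          rw [ab_eq]
        rw [e5]
        refine Measurable.ite ?_ measurable_const measurable_const
        exact (meas_ab u m {l} (fun v : Fin n → ℝ => v) (fun v => v l - m * u l) measurable_id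
          ((measurable_pi_apply l).sub measurable_const)) (measurableSet_singleton k)
    _ ≤ ∫⁻ _, 1 ∂PV q σ := by
        refine lintegral_mono_ae ?_
        filter_upwards [hae] with v hv
        exact sum_le hv k
    _ = 1 := by
        rw [lintegral_one, measure_univ]

end Pool.Agent.N378.SK
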