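import Pool.Agent.N378.SK.Stm2
import Pool.Agent.N378.SK.L_MEAS
import Pool.Agent.H189R2.Lev.Core

set_option autoImplicit false

/-!
# Project SK: change of variables for one pair (helper887)
-/

namespace Pool.Agent.N378.SK

open MeasureTheory Finset
open scoped ENNReal

namespace PAIR

/-! ### The change of variables on the line -/

theorem lint_affine {w : ℝ} (hw : 0 < w) (y : ℝ) {H : ℝ → ℝ≥0∞} (hH : Measurable H) :
    ∫⁻ z, H z = ENNReal.ofReal w * ∫⁻ m, H (w * m + y) := by
  have h1 : ∫⁻ z, H (z + y) = ∫⁻ z, H z := lintegral_add_right_eq_self H y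
  rw [← h1]
  have h2 := Real.smul_map_volume_mul_left hw.ne'
  rw [abs_of_pos hw] at h2
  calc ∫⁻ z, H (z + y) = ∫⁻ z, H (z + y)
        ∂(ENNReal.ofReal w • Measure.map (w * ·) (volume : Measure ℝ)) := by rw [h2]
    _ = ENNReal.ofReal w * ∫⁻ z, H (z + y) ∂(Measure.map (w * ·) (volume : Measure ℝ)) := by
        rw [lintegral_smul_measure]
        rfl
    _ = ENNReal.ofReal w * ∫⁻ m, H (w * m + y) := by
        have hm : Measurable fun z : ℝ => H (z + y) := hH.comp (measurable_id.add_const y)
        rw [lintegral_map hm (measurable_const_mul w)]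

theorem cv {ui uj w : ℝ} (hw : 0 < w) (hu : uj - ui = w) {Φ : ℝ × ℝ → ℝ≥0∞} (hΦ : Measurable Φ)
    {I J : Set ℝ} (hI : MeasurableSet I) (hJ : MeasurableSet J) :
    ∫⁻ y in I, ∫⁻ z in J, (if |z - y| ≤ w then Φ ((z - y) / w, y - (z - y) / w * ui) else 0) =
      ∫⁻ m in Set.Icc (-1 : ℝ) 1, ∫⁻ b, ENNReal.ofReal w *
        (I.indicator 1 (m * ui + b) * J.indicator 1 (m * uj + b) * Φ (m, b)) := by
  classical
  -- inner integral
  have hin : ∀ y : ℝ, ∫⁻ z in J,
      (if |z - y| ≤ w then Φ ((z - y) / w, y - (z - y) / w * ui) else 0) =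
      ENNReal.ofReal w * ∫⁻ m in Set.Icc (-1 : ℝ) 1,
        J.indicator 1 (w * m + y) * Φ (m, y - m * ui) := by
    intro y
    rw [← lintegral_indicator hJ]
    have hH : Measurable (fun z : ℝ => J.indicator (fun z =>
        (if |z - y| ≤ w then Φ ((z - y) / w, y - (z - y) / w * ui) else 0)) z) := by
      refine Measurable.indicator ?_ hJ
      refine Measurable.ite ?_ ?_ measurable_const
      · exact measurableSet_le (by fun_prop) measurable_const
      · exact hΦ.comp (by fun_prop)
    rw [lint_affine hw y hH, ← lintegral_indicator measurableSet_Icc]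
    congr 1
    refine lintegral_congr fun m => ?_
    have e1 : (w * m + y - y) / w = m := by
      rw [add_sub_cancel_right, mul_div_cancel_left₀ _ hw.ne']
    have e2 : |w * m + y - y| ≤ w ↔ m ∈ Set.Icc (-1 : ℝ) 1 := by
      rw [add_sub_cancel_right, abs_mul, abs_of_pos hw, mul_le_iff_le_one_right hw, abs_le,
        Set.mem_Icc]
    by_cases hz : w * m + y ∈ J
    · by_cases hm : m ∈ Set.Icc (-1 : ℝ) 1
      · rw [Set.indicator_of_mem hz, Set.indicator_of_mem hm, Set.indicator_of_mem hz,
          if_pos (e2.2 hm), e1, Pi.one_apply, one_mul]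
      · rw [Set.indicator_of_mem hz, Set.indicator_of_notMem hm, if_neg (fun h => hm (e2.1 h))]
    · rw [Set.indicator_of_notMem hz]
      by_cases hm : m ∈ Set.Icc (-1 : ℝ) 1
      · rw [Set.indicator_of_mem hm, Set.indicator_of_notMem hz, zero_mul]
      · rw [Set.indicator_of_notMem hm]
  have hout : ∀ m : ℝ, ∫⁻ b, ENNReal.ofReal w *
        (I.indicator 1 (m * ui + b) * J.indicator 1 (m * uj + b) * Φ (m, b)) =
      ENNReal.ofReal w * ∫⁻ y in I, J.indicator 1 (w * m + y) * Φ (m, y - m * ui) := by
    intro m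
    have hmeas : Measurable (fun b : ℝ =>
        (I.indicator (1 : ℝ → ℝ≥0∞) (m * ui + b) * J.indicator (1 : ℝ → ℝ≥0∞) (m * uj + b) *
          Φ (m, b))) := by
      refine Measurable.mul (Measurable.mul ?_ ?_) ?_
      · exact (measurable_one.indicator hI).comp (by fun_prop)
      · exact (measurable_one.indicator hJ).comp (by fun_prop)
      · exact hΦ.comp (by fun_prop)
    rw [lintegral_const_mul _ hmeas, ← lintegral_indicator hI]
    congr 1
    rw [← lintegral_sub_right_eq_self _ (m * ui)]
    refine lintegral_congr fun y => ?_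
    have e1 : m * ui + (y - m * ui) = y := by ring
    have e2 : m * uj + (y - m * ui) = w * m + y := by
      rw [← hu]
      ring
    rw [e1, e2]
    by_cases hy : y ∈ I
    · rw [Set.indicator_of_mem hy, Set.indicator_of_mem hy, Pi.one_apply, one_mul]
    · rw [Set.indicator_of_notMem hy, Set.indicator_of_notMem hy, zero_mul, zero_mul]
  simp only [hin, hout]
  have hK : Measurable (fun p : ℝ × ℝ =>
      J.indicator (1 : ℝ → ℝ≥0∞) (w * p.2 + p.1) * Φ (p.2, p.1 - p.2 * ui)) := by
    refine Measurable.mul ?_ ?_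
    · exact (measurable_one.indicator hJ).comp (by fun_prop)
    · exact hΦ.comp (by fun_prop)
  rw [lintegral_const_mul _ hK.lintegral_prod_right', lintegral_const_mul]
  · congr 1
    exact lintegral_lintegral_swap hK.aemeasurable
  · exact (hK.comp measurable_swap).lintegral_prod_right'

/-! ### The combinatorial identity -/

theorem lc_eq {n : ℕ} (u v : Fin n → ℝ) {i j : Fin n} (hij : u i < u j) :
    leftCount (fun l => (u l, v l)) i j =
      ab u v ((v j - v i) / (u j - u i)) (v i - (v j - v i) / (u j - u i) * u i) {i, j} := by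
  classical
  have hw : 0 < u j - u i := sub_pos.2 hij
  unfold leftCount ab
  rw [Nat.card_eq_fintype_card, Fintype.card_subtype]
  congr 1
  ext l
  simp only [mem_filter, mem_univ, true_and, mem_insert, mem_singleton, not_or]
  have e1 : det3 (u i, v i) (u j, v j) (u l, v l) =
      (u j - u i) * (v l - ((v j - v i) / (u j - u i) * u l +
        (v i - (v j - v i) / (u j - u i) * u i))) := by
    unfold det3
    field_simp
    ring
  rw [e1, mul_pos_iff_of_pos_left hw, sub_pos]
  constructor
  · intro h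
    refine ⟨⟨?_, ?_⟩, h⟩
    · rintro rfl
      linarith
    · rintro rfl
      have e2 : (v l - v i) / (u l - u i) * u l + (v i - (v l - v i) / (u l - u i) * u i) =
          v l := by
        field_simp
        ring
      rw [e2] at h
      exact lt_irrefl _ h
  · exact fun h => h.2

theorem ab_upd {n : ℕ} (u v : Fin n → ℝ) (m b y z : ℝ) (i j : Fin n) :
    ab u (Function.update (Function.update v i y) j z) m b {i, j} = ab u v m b {i, j} := by
  classical
  unfold ab
  congr 1
  ext l
  simp only [mem_filter, mem_univ, true_and, mem_insert, mem_singleton, not_or]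
  constructor
  · rintro ⟨⟨h1, h2⟩, h3⟩
    rw [Function.update_of_ne h2, Function.update_of_ne h1] at h3
    exact ⟨⟨h1, h2⟩, h3⟩
  · rintro ⟨⟨h1, h2⟩, h3⟩
    rw [Function.update_of_ne h2, Function.update_of_ne h1]
    exact ⟨⟨h1, h2⟩, h3⟩

theorem U1_prob (q : ℝ) {σ : ℝ} (hσ : 0 < σ) : IsProbabilityMeasure (U1 q σ) := by
  refine ⟨?_⟩
  unfold U1
  rw [Measure.smul_apply, Measure.restrict_apply MeasurableSet.univ, Set.univ_inter,
    Real.volume_Icc, smul_eq_mul]
  have e : q + σ - (q - σ) = 2 * σ := by ring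
  rw [e, ENNReal.inv_mul_cancel]
  · exact (ENNReal.ofReal_pos.2 (by positivity)).ne'
  · exact ENNReal.ofReal_ne_top

end PAIR

open PAIR in
theorem t_PAIR (h : S_MEAS2) : S_PAIR := by
  classical
  intro n u q σ k i j hσ hij
  have hw : 0 < u j - u i := sub_pos.2 hij
  have hne : i ≠ j := fun e => by rw [e] at hij; exact lt_irrefl _ hij
  have : ∀ l, IsProbabilityMeasure (U1 (q l) σ) := fun l => U1_prob (q l) hσ
  have : IsProbabilityMeasure (PV q σ) := by unfold PV; infer_instance
  obtain ⟨T, hT⟩ : ∃ T : Set (Fin n → ℝ), T = {v | |v j - v i| ≤ u j - u i ∧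
    leftCount (fun l => (u l, v l)) i j = k} := ⟨_, rfl⟩
  have hTm : MeasurableSet T := by
    rw [hT]
    refine MeasurableSet.inter (s₁ := {v : Fin n → ℝ | |v j - v i| ≤ u j - u i})
      (s₂ := {v : Fin n → ℝ | leftCount (fun l => (u l, v l)) i j = k}) ?_ ?_
    · exact measurableSet_le (by fun_prop) measurable_const
    · have h1 : Measurable (fun v : Fin n → ℝ => fun l => (u l, v l)) := by fun_prop
      exact h1 (t_MEAS n i j k)
  rw [← hT, ← lintegral_indicator_one hTm]
  have hf : Measurable (T.indicator (1 : (Fin n → ℝ) → ℝ≥0∞)) := measurable_one.indicator hTm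
  -- Fubini in the coordinates
  have s1 : ∫⁻ v, T.indicator (1 : (Fin n → ℝ) → ℝ≥0∞) v ∂(PV q σ) =
      ∫⁻ v, ∫⁻ y, ∫⁻ z, T.indicator (1 : (Fin n → ℝ) → ℝ≥0∞)
        (Function.update (Function.update v i y) j z) ∂(U1 (q j) σ) ∂(U1 (q i) σ) ∂(PV q σ) := by
    unfold PV
    rw [Pool.Agent.H189R2.Lev.pi_update (fun l => U1 (q l) σ) j hf]
    refine Pool.Agent.H189R2.Lev.pi_update (fun l => U1 (q l) σ) i ?_
    exact (hf.comp measurable_update').lintegral_prod_right'
  have hK3 : Measurable (fun p : ((Fin n → ℝ) × ℝ) × ℝ => T.indicator (1 : (Fin n → ℝ) → ℝ≥0∞)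
      (Function.update (Function.update p.1.1 i p.1.2) j p.2)) := by
    refine hf.comp ?_
    have h1 : Measurable (fun p : ((Fin n → ℝ) × ℝ) × ℝ =>
        (Function.update p.1.1 i p.1.2, p.2)) :=
      (measurable_update'.comp measurable_fst).prodMk measurable_snd
    exact measurable_update'.comp h1
  have s2 : ∫⁻ v, ∫⁻ y, ∫⁻ z, T.indicator (1 : (Fin n → ℝ) → ℝ≥0∞)
        (Function.update (Function.update v i y) j z) ∂(U1 (q j) σ) ∂(U1 (q i) σ) ∂(PV q σ) =
      ∫⁻ y, ∫⁻ z, ∫⁻ v, T.indicator (1 : (Fin n → ℝ) → ℝ≥0∞)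
        (Function.update (Function.update v i y) j z) ∂(PV q σ) ∂(U1 (q j) σ) ∂(U1 (q i) σ) := by
    rw [lintegral_lintegral_swap]
    · refine lintegral_congr fun y => ?_
      rw [lintegral_lintegral_swap]
      have h1 : Measurable (fun p : (Fin n → ℝ) × ℝ => ((p.1, y), p.2)) := by fun_prop
      exact (hK3.comp h1).aemeasurable
    · exact hK3.lintegral_prod_right'.aemeasurable
  have s3 : ∀ y z : ℝ, ∫⁻ v, T.indicator (1 : (Fin n → ℝ) → ℝ≥0∞)
        (Function.update (Function.update v i y) j z) ∂(PV q σ) =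
      if |z - y| ≤ u j - u i then
        (fun p : ℝ × ℝ => PV q σ {v | ab u v p.1 p.2 {i, j} = k})
          ((z - y) / (u j - u i), y - (z - y) / (u j - u i) * u i) else 0 := by
    intro y z
    have e1 : ∀ v : Fin n → ℝ, Function.update (Function.update v i y) j z i = y := by
      intro v
      rw [Function.update_of_ne hne, Function.update_self]
    have e2 : ∀ v : Fin n → ℝ, Function.update (Function.update v i y) j z j = z := by
      intro v
      rw [Function.update_self]
    have e3 : ∀ v : Fin n → ℝ, Function.update (Function.update v i y) j z ∈ T ↔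
        |z - y| ≤ u j - u i ∧ ab u v ((z - y) / (u j - u i))
          (y - (z - y) / (u j - u i) * u i) {i, j} = k := by
      intro v
      rw [hT, Set.mem_ofPred_eq, lc_eq u _ hij, e1, e2, ab_upd]
    split_ifs with hzy
    · have hm : MeasurableSet {v : Fin n → ℝ | ab u v ((z - y) / (u j - u i))
          (y - (z - y) / (u j - u i) * u i) {i, j} = k} := by
        have h1 : Measurable (fun v : Fin n → ℝ =>
            Function.update (Function.update v i y) j z) := by
          have h2 : Measurable (fun v : Fin n → ℝ => (Function.update v i y, z)) :=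
            (measurable_update'.comp (measurable_id.prodMk measurable_const)).prodMk
              measurable_const
          exact measurable_update'.comp h2
        have h3 := h1 hTm
        convert h3 using 1
        ext v
        rw [Set.mem_preimage, e3]
        exact ⟨fun h => ⟨hzy, h⟩, fun h => h.2⟩
      change _ = PV q σ {v : Fin n → ℝ | ab u v ((z - y) / (u j - u i))
          (y - (z - y) / (u j - u i) * u i) {i, j} = k}
      rw [← lintegral_indicator_one hm]
      refine lintegral_congr fun v => ?_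
      by_cases hv : Function.update (Function.update v i y) j z ∈ T
      · have hv2 : v ∈ {v : Fin n → ℝ | ab u v ((z - y) / (u j - u i))
          (y - (z - y) / (u j - u i) * u i) {i, j} = k} := ((e3 v).1 hv).2
        rw [Set.indicator_of_mem hv, Set.indicator_of_mem hv2]
        rfl
      · rw [Set.indicator_of_notMem hv, Set.indicator_of_notMem]
        intro h1
        exact hv ((e3 v).2 ⟨hzy, h1⟩)
    · rw [lintegral_congr (g := fun _ => 0), lintegral_zero]
      intro v
      rw [Set.indicator_of_notMem]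
      intro hv
      exact hzy ((e3 v).1 hv).1
  rw [s1, s2]
  simp only [s3]
  have hΦ := (h n u q σ k {i, j} hσ).1
  have s4 := cv hw rfl hΦ (measurableSet_Icc (a := q i - σ) (b := q i + σ))
    (measurableSet_Icc (a := q j - σ) (b := q j + σ))
  refine le_of_eq ?_
  have s5 : ∀ F : ℝ → ℝ → ℝ≥0∞, ∫⁻ y, ∫⁻ z, F y z ∂(U1 (q j) σ) ∂(U1 (q i) σ) =
      (ENNReal.ofReal (2 * σ))⁻¹ * ((ENNReal.ofReal (2 * σ))⁻¹ *
        ∫⁻ y in Set.Icc (q i - σ) (q i + σ), ∫⁻ z in Set.Icc (q j - σ) (q j + σ), F y z) := by
    intro F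
    have hc : (ENNReal.ofReal (2 * σ))⁻¹ ≠ ⊤ :=
      ENNReal.inv_ne_top.2 (ENNReal.ofReal_pos.2 (by positivity)).ne'
    unfold U1
    rw [lintegral_smul_measure, smul_eq_mul]
    congr 1
    rw [← lintegral_const_mul' _ _ hc]
    refine lintegral_congr fun y => ?_
    rw [lintegral_smul_measure, smul_eq_mul]
  rw [s5, s4]
  have hc : (ENNReal.ofReal (2 * σ))⁻¹ ≠ ⊤ :=
    ENNReal.inv_ne_top.2 (ENNReal.ofReal_pos.2 (by positivity)).ne'
  rw [← mul_assoc, ← lintegral_const_mul' _ _ (ENNReal.mul_ne_top hc hc)]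
  refine lintegral_congr fun m => ?_
  rw [← lintegral_const_mul' _ _ (ENNReal.mul_ne_top hc hc)]
  refine lintegral_congr fun b => ?_
  unfold gd
  ring

end Pool.Agent.N378.SK
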