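import Pool.Agent.N378.SK.Stm2

set_option autoImplicit false

/-! Project SK (helper378), leaf PT: the pointwise inequality. Author: helper451. -/

namespace Pool.Agent.N378.SK

open MeasureTheory Finset
open scoped ENNReal

namespace LPT

open Classical in
/-- the active indices -/
noncomputable def act {n : ℕ} (u q : Fin n → ℝ) (σ m b : ℝ) : Finset (Fin n) :=
  univ.filter (fun l => m * u l + b ∈ Set.Icc (q l - σ) (q l + σ))

open Classical in
theorem gd_eq {n : ℕ} (u q : Fin n → ℝ) (σ m b : ℝ) (hσ : 0 < σ) (l : Fin n) :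
    gd u q σ m b l = ENNReal.ofReal (if l ∈ act u q σ m b then (2 * σ)⁻¹ else 0) := by
  unfold gd
  by_cases h : m * u l + b ∈ Set.Icc (q l - σ) (q l + σ)
  · have h' : l ∈ act u q σ m b := by
      unfold act
      rw [mem_filter]
      exact ⟨mem_univ _, h⟩
    rw [Set.indicator_of_mem h, if_pos h', ENNReal.ofReal_inv_of_pos (by linarith)]
    simp
  · have h' : l ∉ act u q σ m b := by
      unfold act
      rw [mem_filter]
      exact fun h2 => h h2.2
    rw [Set.indicator_of_notMem h, if_neg h']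
    simp

end LPT

theorem t_PT : S_PT := by
  classical
  intro n u q σ T m b hσ hT
  obtain ⟨A, hA⟩ : ∃ A, A = LPT.act u q σ m b := ⟨_, rfl⟩
  obtain ⟨g, hg⟩ : ∃ g : Fin n → ℝ, g = fun l => if l ∈ A then (2 * σ)⁻¹ else 0 := ⟨_, rfl⟩
  have hg0 : ∀ l, 0 ≤ g l := by
    intro l
    simp only [hg]
    split_ifs <;> positivity
  have e1 : ∀ l, gd u q σ m b l = ENNReal.ofReal (g l) := by
    intro l
    rw [LPT.gd_eq u q σ m b hσ l, hg, hA]
  have hw : ∀ p ∈ PT u T, 0 ≤ u p.2 - u p.1 ∧ u p.2 - u p.1 ≤ T := by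
    intro p hp
    unfold PT at hp
    rw [mem_filter] at hp
    exact ⟨by linarith [hp.2.1], hp.2.2⟩
  have e2 : ∑ p ∈ PT u T, ENNReal.ofReal (u p.2 - u p.1) * (gd u q σ m b p.1 * gd u q σ m b p.2) =
      ENNReal.ofReal (∑ p ∈ PT u T, (u p.2 - u p.1) * (g p.1 * g p.2)) := by
    rw [ENNReal.ofReal_sum_of_nonneg]
    · refine Finset.sum_congr rfl fun p hp => ?_
      rw [e1, e1, ← ENNReal.ofReal_mul (hg0 _), ← ENNReal.ofReal_mul (hw p hp).1]
    · intro p hp
      exact mul_nonneg (hw p hp).1 (mul_nonneg (hg0 _) (hg0 _))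
  have e3 : ∑ l, gd u q σ m b l = ENNReal.ofReal (∑ l, g l) := by
    rw [ENNReal.ofReal_sum_of_nonneg (fun l _ => hg0 l)]
    exact Finset.sum_congr rfl fun l _ => e1 l
  rw [e2, e3, ← ENNReal.ofReal_mul (by positivity)]
  apply ENNReal.ofReal_le_ofReal
  -- the real inequality
  obtain ⟨F, hF⟩ : ∃ F, F = (PT u T).filter (fun p => p.1 ∈ A ∧ p.2 ∈ A) := ⟨_, rfl⟩
  obtain ⟨X, hX⟩ : ∃ X, X = ∑ p ∈ F, (u p.2 - u p.1) := ⟨_, rfl⟩
  have hFm : ∀ p ∈ F, p ∈ PT u T ∧ p.1 ∈ A ∧ p.2 ∈ A := by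
    intro p hp
    rw [hF, mem_filter] at hp
    exact hp
  have e4 : ∑ p ∈ PT u T, (u p.2 - u p.1) * (g p.1 * g p.2) = ((2 * σ)⁻¹) ^ 2 * X := by
    rw [hX, hF, Finset.mul_sum, Finset.sum_filter]
    refine Finset.sum_congr rfl fun p hp => ?_
    simp only [hg]
    by_cases h1 : p.1 ∈ A
    · by_cases h2 : p.2 ∈ A
      · rw [if_pos h1, if_pos h2, if_pos ⟨h1, h2⟩]
        ring
      · have h3 : ¬ (p.1 ∈ A ∧ p.2 ∈ A) := fun h => h2 h.2
        rw [if_neg h2, if_neg h3]
        ring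
    · have h3 : ¬ (p.1 ∈ A ∧ p.2 ∈ A) := fun h => h1 h.1
      rw [if_neg h1, if_neg h3]
      ring
  have e5 : ∑ l, g l = A.card * (2 * σ)⁻¹ := by
    simp only [hg]
    rw [Finset.sum_ite_mem, Finset.univ_inter, Finset.sum_const, nsmul_eq_mul]
  have e6 : X ≤ T * (A.card : ℝ) ^ 2 := by
    calc X ≤ ∑ p ∈ F, T := by
          rw [hX]
          apply Finset.sum_le_sum
          intro p hp
          exact (hw p (hFm p hp).1).2
      _ = (F.card : ℝ) * T := by
          rw [Finset.sum_const, nsmul_eq_mul]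
      _ ≤ ((A ×ˢ A).card : ℝ) * T := by
          gcongr
          intro p hp
          exact mem_product.mpr (hFm p hp).2
      _ = T * (A.card : ℝ) ^ 2 := by
          rw [card_product]
          push_cast
          ring
  have e7 : X ≤ WW u q σ T m := by
    unfold WW
    rw [hX]
    apply Finset.sum_le_sum_of_subset_of_nonneg
    · intro p hp
      have hp' := hFm p hp
      rw [mem_filter]
      refine ⟨hp'.1, ?_⟩
      have h1 := hp'.2.1
      have h2 := hp'.2.2
      rw [hA] at h1 h2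
      unfold LPT.act at h1 h2
      rw [mem_filter] at h1 h2
      obtain ⟨a1, a2⟩ := h1.2
      obtain ⟨b1, b2⟩ := h2.2
      rw [abs_le]
      constructor <;> linarith
    · intro p hp _
      rw [mem_filter] at hp
      exact (hw p hp.1).1
  have hX0 : 0 ≤ X := by
    rw [hX]
    exact Finset.sum_nonneg fun p hp => (hw p (hFm p hp).1).1
  have e8 : X ≤ Real.sqrt T * A.card * Real.sqrt (WW u q σ T m) := by
    have h1 : X ^ 2 ≤ (T * (A.card : ℝ) ^ 2) * WW u q σ T m := by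
      rw [sq]
      exact mul_le_mul e6 e7 hX0 (by positivity)
    have h2 : (Real.sqrt T * A.card * Real.sqrt (WW u q σ T m)) ^ 2 =
        (T * (A.card : ℝ) ^ 2) * WW u q σ T m := by
      rw [mul_pow, mul_pow, Real.sq_sqrt hT.le, Real.sq_sqrt (hX0.trans e7)]
    rw [← h2] at h1
    exact le_of_sq_le_sq h1 (by positivity)
  rw [e4, e5]
  calc ((2 * σ)⁻¹) ^ 2 * X ≤
      ((2 * σ)⁻¹) ^ 2 * (Real.sqrt T * A.card * Real.sqrt (WW u q σ T m)) := by gcongr
    _ = Real.sqrt T / (2 * σ) * Real.sqrt (WW u q σ T m) * (A.card * (2 * σ)⁻¹) := by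
      rw [div_eq_mul_inv]
      ring

end Pool.Agent.N378.SK
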