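import Pool.Agent.N378.SK.Stm

set_option autoImplicit false

/-!
# Expected number of short `k`-edges
-/

namespace Pool.Agent.N378.SK

open MeasureTheory Finset
open scoped ENNReal

namespace ShortAux

variable {n : ℕ}

/-- Fubini in one coordinate -/
theorem fub (μ : Fin n → Measure (ℝ × ℝ)) [∀ i, IsProbabilityMeasure (μ i)] (j : Fin n)
    (f : (Fin n → ℝ × ℝ) → ℝ≥0∞) (hf : Measurable f) :
    ∫⁻ x, f x ∂(Measure.pi μ) =
      ∫⁻ x, ∫⁻ y, f (Function.update x j y) ∂(μ j) ∂(Measure.pi μ) := by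
  have h1 : ∀ f : (Fin n → ℝ × ℝ) → ℝ≥0∞, Measurable f → ∀ x0 : Fin n → ℝ × ℝ,
      ∫⁻ x, f x ∂(Measure.pi μ) =
        lmarginal μ (univ.erase j) (fun x => ∫⁻ y, f (Function.update x j y) ∂(μ j)) x0 := by
    intro f hf x0
    have h2 := congrFun (lmarginal_erase' (μ := μ) f hf (Finset.mem_univ j)) x0
    rw [lmarginal_univ] at h2
    exact h2
  have hg : Measurable fun x : Fin n → ℝ × ℝ => ∫⁻ y, f (Function.update x j y) ∂(μ j) := by
    have h2 := hf.lmarginal μ (s := {j})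
    rwa [lmarginal_singleton] at h2
  rw [h1 f hf (fun _ => 0), h1 _ hg (fun _ => 0)]
  congr 1
  funext x
  simp

/-- the pairs at small distance with `k` points to the left -/
def B (k : ℕ) (t : ℝ) (i j : Fin n) : Set (Fin n → ℝ × ℝ) :=
  {x | ‖x j - x i‖ < t ∧ leftCount x i j = k}

theorem meas_B (h3 : S_MEAS) (k : ℕ) (t : ℝ) (i j : Fin n) : MeasurableSet (B k t i j) := by
  have h1 : MeasurableSet {x : Fin n → ℝ × ℝ | ‖x j - x i‖ < t} :=
    measurableSet_lt (by fun_prop) measurable_const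
  exact h1.inter (h3 n i j k)

theorem card_eq (k : ℕ) (t : ℝ) (x : Fin n → ℝ × ℝ) :
    open Classical in
    (((KE x k).filter fun p => ‖x p.2 - x p.1‖ < t).card : ℝ≥0∞) =
      ∑ j, ∑ i ∈ univ.erase j, (B k t i j).indicator 1 x := by
  classical
  unfold KE
  rw [Finset.filter_filter, Finset.card_filter, Nat.cast_sum, Fintype.sum_prod_type,
    Finset.sum_comm]
  refine Finset.sum_congr rfl fun j _ => ?_
  have h1 : (univ.erase j : Finset (Fin n)) = univ.filter fun i => i ≠ j := by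
    ext i
    simp
  rw [h1, Finset.sum_filter]
  refine Finset.sum_congr rfl fun i _ => ?_
  by_cases h : i ≠ j
  · rw [if_pos h]
    by_cases h2 : ‖x j - x i‖ < t ∧ leftCount x i j = k
    · rw [Set.indicator_of_mem (show x ∈ B k t i j from h2)]
      simp [h, h2.1, h2.2]
    · rw [Set.indicator_of_notMem (show x ∉ B k t i j from h2)]
      have h4 : ¬ ((i ≠ j ∧ leftCount x i j = k) ∧ ‖x j - x i‖ < t) :=
        fun h5 => h2 ⟨h5.2, h5.1.2⟩
      rw [if_neg h4]
      simp
  · rw [if_neg h]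
    have h4 : ¬ ((i ≠ j ∧ leftCount x i j = k) ∧ ‖x j - x i‖ < t) := fun h5 => h h5.1.1
    rw [if_neg h4]
    simp

theorem one (h1 : S_CORE) (h3 : S_MEAS) (D : ℝ≥0∞) (μ : Fin n → Measure (ℝ × ℝ)) (k : ℕ) (t : ℝ)
    (hμ : ∀ i, μ i ≤ D • (volume.restrict square)) (ht : 0 < t) (j : Fin n)
    (x : Fin n → ℝ × ℝ) (hx : GP x) :
    ∫⁻ y, ∑ i ∈ univ.erase j, (B k t i j).indicator 1 (Function.update x j y) ∂(μ j) ≤
      D * ENNReal.ofReal (4 * t ^ 2) := by
  have hup : Measurable fun y : ℝ × ℝ => Function.update x j y := measurable_update x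
  have hm : ∀ i, MeasurableSet ((fun y : ℝ × ℝ => Function.update x j y) ⁻¹' B k t i j) :=
    fun i => hup (meas_B h3 k t i j)
  have hm2 : ∀ i, Measurable fun y : ℝ × ℝ =>
      (B k t i j).indicator (1 : (Fin n → ℝ × ℝ) → ℝ≥0∞) (Function.update x j y) := fun i =>
    (measurable_one.indicator (meas_B h3 k t i j)).comp hup
  rw [lintegral_finsetSum _ fun i _ => hm2 i]
  have h2 : ∀ i ∈ univ.erase j, ∫⁻ y, (B k t i j).indicator 1 (Function.update x j y) ∂(μ j) ≤
      D * volume {y : ℝ × ℝ | ‖y - x i‖ < t ∧ leftCount (Function.update x j y) i j = k} := by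
    intro i hi
    have hij : i ≠ j := Finset.ne_of_mem_erase hi
    have e1 : {y : ℝ × ℝ | ‖y - x i‖ < t ∧ leftCount (Function.update x j y) i j = k} =
        (fun y : ℝ × ℝ => Function.update x j y) ⁻¹' B k t i j := by
      ext y
      simp only [B, Set.mem_preimage, Set.mem_setOf_eq, Function.update_self,
        Function.update_of_ne hij]
    have e2 : ∀ y, (B k t i j).indicator (1 : (Fin n → ℝ × ℝ) → ℝ≥0∞) (Function.update x j y) =
        ((fun y : ℝ × ℝ => Function.update x j y) ⁻¹' B k t i j).indicator 1 y := fun y => rfl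
    simp only [e2]
    rw [e1, lintegral_indicator_one (hm i)]
    refine (hμ j _).trans ?_
    rw [Measure.smul_apply, smul_eq_mul]
    exact mul_le_mul_right (Measure.restrict_apply_le _ _) _
  refine (Finset.sum_le_sum h2).trans ?_
  rw [← Finset.mul_sum]
  have h4 := h1 n x j k t ht fun i l _ _ hil h => (hx.1 i l hil).1 (congrArg Prod.fst h)
  exact mul_le_mul_right h4 _

end ShortAux

open ShortAux in
theorem t_SHORT (h1 : S_CORE) (h2 : S_GP) (h3 : S_MEAS) : S_SHORT := by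
  intro n D μ k t hD hp hμ ht
  have hpr : ∀ i, IsProbabilityMeasure (μ i) := hp
  simp only [card_eq]
  have hm : ∀ i j, Measurable ((B k t i j).indicator (1 : (Fin n → ℝ × ℝ) → ℝ≥0∞)) := fun i j =>
    measurable_one.indicator (meas_B h3 k t i j)
  have hs : ∀ j, Measurable fun x : Fin n → ℝ × ℝ =>
      ∑ i ∈ univ.erase j, (B k t i j).indicator (1 : (Fin n → ℝ × ℝ) → ℝ≥0∞) x := fun j =>
    Finset.measurable_fun_sum _ fun i _ => hm i j
  rw [lintegral_finsetSum _ fun j _ => hs j]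
  have h4 : ∀ j ∈ (univ : Finset (Fin n)), ∫⁻ x, ∑ i ∈ univ.erase j,
      (B k t i j).indicator (1 : (Fin n → ℝ × ℝ) → ℝ≥0∞) x ∂(Measure.pi μ) ≤
      D * ENNReal.ofReal (4 * t ^ 2) := by
    intro j _
    rw [fub μ j _ (hs j)]
    have h5 : ∀ᵐ x ∂(Measure.pi μ), ∫⁻ y, ∑ i ∈ univ.erase j,
        (B k t i j).indicator (1 : (Fin n → ℝ × ℝ) → ℝ≥0∞) (Function.update x j y) ∂(μ j) ≤
        D * ENNReal.ofReal (4 * t ^ 2) := by
      filter_upwards [h2 n D μ hD hp hμ] with x hx
      exact one h1 h3 D μ k t hμ ht j x hx.1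
    refine (lintegral_mono_ae h5).trans ?_
    rw [lintegral_const, measure_univ, mul_one]
  refine (Finset.sum_le_sum h4).trans ?_
  rw [Finset.sum_const, Finset.card_univ, Fintype.card_fin, nsmul_eq_mul]

end Pool.Agent.N378.SK
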