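import Pool.Agent.N378.SK.Stm3
import Pool.Agent.N378.SK.L_LONG

set_option autoImplicit false

/-!
# Project SK (helper378): Lovasz' lemma inside a square (task SQ, by helper413, after helper394)
-/

namespace Pool.Agent.N378.SK

open MeasureTheory Finset
open scoped ENNReal

namespace SQ

open Classical in
theorem posSum (h : S_LOV) {n : ℕ} (x : Fin n → ℝ × ℝ) (k : ℕ) (hx : GP x)
    (F : Finset (Fin n × Fin n)) (hF : F ⊆ KE x k) (a r : ℝ) (hr : 0 < r)
    (hb : ∀ p ∈ F, |(x p.1).1 - a| ≤ r ∧ |(x p.2).1 - a| ≤ r) :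
    ∑ p ∈ F, max 0 ((x p.2).1 - (x p.1).1) ≤ 2 * r * ((k : ℝ) + 1) := by
  have key : ∑ p ∈ F, volume (Set.Ioo (x p.1).1 (x p.2).1) ≤
      ENNReal.ofReal (2 * r * ((k : ℝ) + 1)) := by
    calc ∑ p ∈ F, volume (Set.Ioo (x p.1).1 (x p.2).1)
        = ∑ p ∈ F, ∫⁻ s in Set.Icc (a - r) (a + r),
            (Set.Ioo (x p.1).1 (x p.2).1).indicator (1 : ℝ → ℝ≥0∞) s := by
          refine Finset.sum_congr rfl fun p hp => ?_
          rw [lintegral_indicator_one measurableSet_Ioo, Measure.restrict_apply measurableSet_Ioo,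
            Set.inter_eq_left.2]
          intro s hs
          have h1 := abs_le.1 (hb p hp).1
          have h2 := abs_le.1 (hb p hp).2
          exact ⟨by linarith [hs.1], by linarith [hs.2]⟩
      _ = ∫⁻ s in Set.Icc (a - r) (a + r), ∑ p ∈ F,
            (Set.Ioo (x p.1).1 (x p.2).1).indicator (1 : ℝ → ℝ≥0∞) s := by
          rw [lintegral_finsetSum]
          intro p _
          exact measurable_one.indicator measurableSet_Ioo
      _ ≤ ∫⁻ _s in Set.Icc (a - r) (a + r), ((k + 1 : ℕ) : ℝ≥0∞) := by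
          refine lintegral_mono fun s => ?_
          have h1 := h n x k s hx
          have h2 : ∑ p ∈ F, (Set.Ioo (x p.1).1 (x p.2).1).indicator (1 : ℝ → ℝ≥0∞) s =
              (((F.filter fun p => (x p.1).1 < s ∧ s < (x p.2).1).card : ℕ) : ℝ≥0∞) := by
            rw [Finset.card_filter]
            push_cast
            refine Finset.sum_congr rfl fun p _ => ?_
            rw [Set.indicator_apply]
            rfl
          rw [h2]
          exact Nat.cast_le.2 ((Finset.card_le_card (Finset.filter_subset_filter _ hF)).trans h1)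
      _ = ENNReal.ofReal (2 * r * ((k : ℝ) + 1)) := by
          rw [lintegral_const, Measure.restrict_apply MeasurableSet.univ, Set.univ_inter,
            Real.volume_Icc, ← ENNReal.ofReal_natCast, ← ENNReal.ofReal_mul (by positivity)]
          congr 1
          push_cast
          ring
  have h2 : ∑ p ∈ F, volume (Set.Ioo (x p.1).1 (x p.2).1) =
      ENNReal.ofReal (∑ p ∈ F, max 0 ((x p.2).1 - (x p.1).1)) := by
    rw [ENNReal.ofReal_sum_of_nonneg fun p _ => le_max_left _ _]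
    refine Finset.sum_congr rfl fun p _ => ?_
    rw [Real.volume_Ioo]
    rcases le_total ((x p.2).1 - (x p.1).1) 0 with h3 | h3
    · rw [max_eq_left h3, ENNReal.ofReal_of_nonpos h3, ENNReal.ofReal_zero]
    · rw [max_eq_right h3]
  rw [h2] at key
  exact (ENNReal.ofReal_le_ofReal_iff (by positivity)).1 key

/-- the sum of the widths -/
theorem absSum (h : S_LOV) {n : ℕ} (x : Fin n → ℝ × ℝ) (k : ℕ) (hx : GP x)
    (F : Finset (Fin n × Fin n)) (hF : F ⊆ KE x k) (a r : ℝ) (hr : 0 < r)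
    (hb : ∀ p ∈ F, |(x p.1).1 - a| ≤ r ∧ |(x p.2).1 - a| ≤ r) :
    ∑ p ∈ F, |(x p.2).1 - (x p.1).1| ≤ 4 * r * ((k : ℝ) + 1) := by
  have hd : ∀ i j l, det3 (-x i) (-x j) (-x l) = det3 (x i) (x j) (x l) := by
    intro i j l
    simp only [det3, Prod.fst_neg, Prod.snd_neg]
    ring
  have hG : GP (fun i => -x i) := by
    refine ⟨fun i j hij => ⟨?_, ?_⟩, fun i j l h1 h2 h3 => ?_⟩
    · intro h0
      exact (hx.1 i j hij).1 (neg_injective h0)
    · intro h0
      exact (hx.1 i j hij).2 (neg_injective h0)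
    · rw [hd]
      exact hx.2 i j l h1 h2 h3
  have h1 := posSum h x k hx F hF a r hr hb
  have h2 := posSum h (fun i => -x i) k hG F (by rw [LONG.KE_congr hd k]; exact hF) (-a) r hr
    (fun p hp => by
      have e : ∀ i, |(-x i).1 - -a| = |(x i).1 - a| := by
        intro i
        rw [Prod.fst_neg, ← abs_neg]
        congr 1
        ring
      rw [e, e]
      exact hb p hp)
  have h3 : ∑ p ∈ F, |(x p.2).1 - (x p.1).1| =
      ∑ p ∈ F, max 0 ((x p.2).1 - (x p.1).1) +
        ∑ p ∈ F, max 0 ((-x p.2).1 - (-x p.1).1) := by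
    rw [← Finset.sum_add_distrib]
    refine Finset.sum_congr rfl fun p _ => ?_
    rw [Prod.fst_neg, Prod.fst_neg]
    rcases le_total 0 ((x p.2).1 - (x p.1).1) with h4 | h4
    · rw [abs_of_nonneg h4, max_eq_right h4, max_eq_left (by linarith)]
      ring
    · rw [abs_of_nonpos h4, max_eq_left h4, max_eq_right (by linarith)]
      ring
  rw [h3]
  linarith

/-- the sum of the heights -/
theorem absSum2 (h : S_LOV) {n : ℕ} (x : Fin n → ℝ × ℝ) (k : ℕ) (hx : GP x)
    (F : Finset (Fin n × Fin n)) (hF : F ⊆ KE x k) (a r : ℝ) (hr : 0 < r)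
    (hb : ∀ p ∈ F, |(x p.1).2 - a| ≤ r ∧ |(x p.2).2 - a| ≤ r) :
    ∑ p ∈ F, |(x p.2).2 - (x p.1).2| ≤ 4 * r * ((k : ℝ) + 1) := by
  have hd : ∀ i j l, det3 ((x i).2, -(x i).1) ((x j).2, -(x j).1) ((x l).2, -(x l).1) =
      det3 (x i) (x j) (x l) := by
    intro i j l
    simp only [det3]
    ring
  have hG : GP (fun i => ((x i).2, -(x i).1)) := by
    refine ⟨fun i j hij => ⟨?_, ?_⟩, fun i j l h1 h2 h3 => ?_⟩
    · exact (hx.1 i j hij).2
    · intro h0
      exact (hx.1 i j hij).1 (neg_injective h0)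
    · rw [hd]
      exact hx.2 i j l h1 h2 h3
  exact absSum h (fun i => ((x i).2, -(x i).1)) k hG F (by rw [LONG.KE_congr hd k]; exact hF)
    a r hr hb

end SQ

open Classical in
theorem t_SQ (h : S_LOV) : S_SQ := by
  intro n x k t r z hx ht hr
  set F := (KE x k).filter fun e => ‖x e.1 - z‖ ≤ r ∧ ‖x e.2 - z‖ ≤ r ∧ t ≤ ‖x e.2 - x e.1‖
    with hFd
  have hF : F ⊆ KE x k := Finset.filter_subset _ _
  have hn : ∀ v : ℝ × ℝ, |v.1| ≤ ‖v‖ ∧ |v.2| ≤ ‖v‖ := fun v => by
    rw [Prod.norm_def, Real.norm_eq_abs, Real.norm_eq_abs]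
    exact ⟨le_max_left _ _, le_max_right _ _⟩
  have hb1 : ∀ p ∈ F, |(x p.1).1 - z.1| ≤ r ∧ |(x p.2).1 - z.1| ≤ r := by
    intro p hp
    have h1 := (Finset.mem_filter.1 hp).2
    exact ⟨(hn (x p.1 - z)).1.trans h1.1, (hn (x p.2 - z)).1.trans h1.2.1⟩
  have hb2 : ∀ p ∈ F, |(x p.1).2 - z.2| ≤ r ∧ |(x p.2).2 - z.2| ≤ r := by
    intro p hp
    have h1 := (Finset.mem_filter.1 hp).2
    exact ⟨(hn (x p.1 - z)).2.trans h1.1, (hn (x p.2 - z)).2.trans h1.2.1⟩
  have h1 := SQ.absSum h x k hx F hF z.1 r hr hb1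
  have h2 := SQ.absSum2 h x k hx F hF z.2 r hr hb2
  calc (F.card : ℝ) * t = ∑ p ∈ F, t := by
        rw [Finset.sum_const, nsmul_eq_mul]
    _ ≤ ∑ p ∈ F, (|(x p.2).1 - (x p.1).1| + |(x p.2).2 - (x p.1).2|) := by
        refine Finset.sum_le_sum fun p hp => ?_
        refine (Finset.mem_filter.1 hp).2.2.2.trans ?_
        rw [Prod.norm_def, Real.norm_eq_abs, Real.norm_eq_abs]
        refine max_le ?_ ?_
        · exact le_add_of_nonneg_right (abs_nonneg _)
        · exact le_add_of_nonneg_left (abs_nonneg _)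
    _ = ∑ p ∈ F, |(x p.2).1 - (x p.1).1| + ∑ p ∈ F, |(x p.2).2 - (x p.1).2| :=
        Finset.sum_add_distrib
    _ ≤ 8 * (k + 1) * r := by linarith

end Pool.Agent.N378.SK
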