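import Pool.Agent.N378.SK.Stm2

/-!
Project SK, part W: the integral over the slopes.
-/

set_option autoImplicit false

namespace Pool.Agent.N378.SK

open MeasureTheory Finset
open scoped ENNReal

namespace LW

/-- the slopes for which the strips of the pair meet -/
def St {n : ℕ} (u q : Fin n → ℝ) (σ : ℝ) (p : Fin n × Fin n) : Set ℝ :=
  {m | |(q p.2 - q p.1) - m * (u p.2 - u p.1)| ≤ 2 * σ}

theorem St_eq {n : ℕ} (u q : Fin n → ℝ) (σ : ℝ) (p : Fin n × Fin n) (h : u p.1 < u p.2) :
    St u q σ p = Set.Icc (((q p.2 - q p.1) - 2 * σ) / (u p.2 - u p.1))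
      (((q p.2 - q p.1) + 2 * σ) / (u p.2 - u p.1)) := by
  have hw : 0 < u p.2 - u p.1 := sub_pos.2 h
  ext m
  unfold St
  rw [Set.mem_ofPred_eq, Set.mem_Icc, abs_le, div_le_iff₀ hw, le_div_iff₀ hw]
  constructor
  · rintro ⟨h1, h2⟩
    exact ⟨by linarith, by linarith⟩
  · rintro ⟨h1, h2⟩
    exact ⟨by linarith, by linarith⟩

theorem vol_St {n : ℕ} (u q : Fin n → ℝ) (σ : ℝ) (p : Fin n × Fin n) (h : u p.1 < u p.2) :
    ENNReal.ofReal (u p.2 - u p.1) * volume (St u q σ p) = ENNReal.ofReal (4 * σ) := by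
  have hw : 0 < u p.2 - u p.1 := sub_pos.2 h
  rw [St_eq u q σ p h, Real.volume_Icc, ← ENNReal.ofReal_mul hw.le]
  congr 1
  field_simp
  ring

theorem WW_eq {n : ℕ} (u q : Fin n → ℝ) (σ T m : ℝ) :
    ENNReal.ofReal (WW u q σ T m) =
      ∑ p ∈ PT u T, ENNReal.ofReal (u p.2 - u p.1) * (St u q σ p).indicator 1 m := by
  classical
  have hpos : ∀ p ∈ PT u T, 0 ≤ u p.2 - u p.1 := by
    intro p hp
    unfold PT at hp
    rw [Finset.mem_filter] at hp
    exact (sub_pos.2 hp.2.1).le
  unfold WW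
  rw [Finset.sum_filter, ENNReal.ofReal_sum_of_nonneg]
  · refine Finset.sum_congr rfl fun p _ => ?_
    by_cases h : m ∈ St u q σ p
    · have h' : |(q p.2 - q p.1) - m * (u p.2 - u p.1)| ≤ 2 * σ := h
      rw [if_pos h', Set.indicator_of_mem h, Pi.one_apply, mul_one]
    · have h' : ¬ |(q p.2 - q p.1) - m * (u p.2 - u p.1)| ≤ 2 * σ := h
      rw [if_neg h', Set.indicator_of_notMem h, mul_zero, ENNReal.ofReal_zero]
  · intro p hp
    split_ifs
    · exact hpos p hp
    · exact le_rfl

theorem int_WW {n : ℕ} (u q : Fin n → ℝ) (σ T : ℝ) :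
    ∫⁻ m in Set.Icc (-1 : ℝ) 1, ENNReal.ofReal (WW u q σ T m) ≤
      (n : ℝ≥0∞) ^ 2 * ENNReal.ofReal (4 * σ) := by
  classical
  have hlt : ∀ p ∈ PT u T, u p.1 < u p.2 := by
    intro p hp
    unfold PT at hp
    rw [Finset.mem_filter] at hp
    exact hp.2.1
  have hms : ∀ p ∈ PT u T, MeasurableSet (St u q σ p) := by
    intro p hp
    rw [St_eq u q σ p (hlt p hp)]
    exact measurableSet_Icc
  have hmeas : ∀ p ∈ PT u T, Measurable ((St u q σ p).indicator (1 : ℝ → ℝ≥0∞)) := by
    intro p hp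
    exact measurable_one.indicator (hms p hp)
  rw [lintegral_congr fun m => WW_eq u q σ T m]
  rw [lintegral_finsetSum' _ fun p hp => ((hmeas p hp).const_mul _).aemeasurable]
  have h1 : ∀ p ∈ PT u T, ∫⁻ m in Set.Icc (-1 : ℝ) 1,
      ENNReal.ofReal (u p.2 - u p.1) * (St u q σ p).indicator 1 m ≤ ENNReal.ofReal (4 * σ) := by
    intro p hp
    rw [lintegral_const_mul _ (hmeas p hp), lintegral_indicator_one (hms p hp),
      ← vol_St u q σ p (hlt p hp)]
    exact mul_le_mul_right (Measure.restrict_le_self _) _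
  refine (Finset.sum_le_sum h1).trans ?_
  rw [Finset.sum_const, nsmul_eq_mul]
  refine mul_le_mul_left ?_ _
  have h2 : (PT u T).card ≤ n ^ 2 := by
    refine (Finset.card_le_univ _).trans ?_
    rw [Fintype.card_prod, Fintype.card_fin, sq]
  exact_mod_cast h2

end LW

open LW

theorem t_W : S_W := by
  intro n u q σ T hσ hT
  rcases Nat.eq_zero_or_pos n with rfl | hn
  · have h : ∀ m, WW u q σ T m = 0 := by
      intro m
      unfold WW
      refine Finset.sum_eq_zero fun p _ => ?_
      exact p.1.elim0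
    simp [h]
  · have hn' : (0 : ℝ) < n := by exact_mod_cast hn
    obtain ⟨c, hc⟩ : ∃ c : ℝ, c = n * Real.sqrt (2 * σ) := ⟨_, rfl⟩
    have hs : 0 < Real.sqrt (2 * σ) := Real.sqrt_pos.2 (by linarith)
    have hcp : 0 < c := by rw [hc]; positivity
    have h0 : ∀ m, 0 ≤ WW u q σ T m := by
      intro m
      unfold WW
      refine Finset.sum_nonneg fun p hp => ?_
      have h1 := (Finset.mem_filter.1 hp).1
      unfold PT at h1
      rw [Finset.mem_filter] at h1
      exact (sub_pos.2 h1.2.1).le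
    have hpt : ∀ m, ENNReal.ofReal (Real.sqrt (WW u q σ T m)) ≤
        ENNReal.ofReal (1 / (2 * c)) * ENNReal.ofReal (WW u q σ T m) +
          ENNReal.ofReal (c / 2) := by
      intro m
      rw [← ENNReal.ofReal_mul (by positivity), ← ENNReal.ofReal_add
        (mul_nonneg (by positivity) (h0 m)) (by positivity)]
      apply ENNReal.ofReal_le_ofReal
      have h1 := Real.sq_sqrt (h0 m)
      have h2 : 0 ≤ (Real.sqrt (WW u q σ T m) - c) ^ 2 := sq_nonneg _
      have h3 : 1 / (2 * c) * WW u q σ T m + c / 2 =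
          (WW u q σ T m + c ^ 2) / (2 * c) := by
        field_simp
      rw [h3, le_div_iff₀ (by positivity)]
      nlinarith
    calc ∫⁻ m in Set.Icc (-1 : ℝ) 1, ENNReal.ofReal (Real.sqrt (WW u q σ T m)) ≤
        ∫⁻ m in Set.Icc (-1 : ℝ) 1, (ENNReal.ofReal (1 / (2 * c)) *
          ENNReal.ofReal (WW u q σ T m) + ENNReal.ofReal (c / 2)) :=
          lintegral_mono fun m => hpt m
      _ = ENNReal.ofReal (1 / (2 * c)) *
          (∫⁻ m in Set.Icc (-1 : ℝ) 1, ENNReal.ofReal (WW u q σ T m)) +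
            ENNReal.ofReal (c / 2) * volume (Set.Icc (-1 : ℝ) 1) := by
          rw [lintegral_add_right _ measurable_const, lintegral_const,
            lintegral_const_mul' _ _ ENNReal.ofReal_ne_top, Measure.restrict_apply_univ]
      _ ≤ ENNReal.ofReal (1 / (2 * c)) * ((n : ℝ≥0∞) ^ 2 * ENNReal.ofReal (4 * σ)) +
            ENNReal.ofReal (c / 2) * ENNReal.ofReal 2 := by
          refine add_le_add (mul_le_mul_right (int_WW u q σ T) _) (le_of_eq ?_)
          rw [Real.volume_Icc]
          norm_num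
      _ = ENNReal.ofReal (1 / (2 * c) * ((n : ℝ) ^ 2 * (4 * σ)) + c / 2 * 2) := by
          have e1 : ENNReal.ofReal ((n : ℝ) ^ 2) = (n : ℝ≥0∞) ^ 2 := by
            rw [ENNReal.ofReal_pow (by positivity), ENNReal.ofReal_natCast]
          rw [ENNReal.ofReal_add (by positivity) (by positivity),
            ENNReal.ofReal_mul (p := 1 / (2 * c)) (by positivity),
            ENNReal.ofReal_mul (p := (n : ℝ) ^ 2) (by positivity), e1,
            ENNReal.ofReal_mul (p := c / 2) (by positivity)]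
      _ ≤ ENNReal.ofReal (3 * n * Real.sqrt σ) := by
          apply ENNReal.ofReal_le_ofReal
          have h1 : Real.sqrt (2 * σ) = Real.sqrt 2 * Real.sqrt σ := Real.sqrt_mul (by norm_num) σ
          have h2 : Real.sqrt (2 * σ) ^ 2 = 2 * σ := Real.sq_sqrt (by linarith)
          have h3 : 1 / (2 * c) * ((n : ℝ) ^ 2 * (4 * σ)) + c / 2 * 2 =
              2 * (n * Real.sqrt (2 * σ)) := by
            have h4 : 4 * σ = 2 * Real.sqrt (2 * σ) ^ 2 := by rw [h2]; ring
            rw [h4, hc]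
            field_simp
            ring
          rw [h3, h1]
          have h5 : Real.sqrt 2 ≤ 3 / 2 := by
            rw [Real.sqrt_le_left (by norm_num)]
            norm_num
          have h6 : 0 ≤ (n : ℝ) * Real.sqrt σ := by positivity
          nlinarith

end Pool.Agent.N378.SK
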