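import Pool.Agent.N378.SK.Stm
import Pool.Agent.Results.MP_a08d0a_co.SmoothedLevel

set_option autoImplicit false

/-!
# Dual form: crossings of lines and directed edges
-/

namespace Pool.Agent.N378.SK

open MeasureTheory Finset Pool.Agent.H189R2.Lev
open Pool.Agent.Results.MP_a08d0a_co.SmoothedLevel
open scoped ENNReal

variable {n : ℕ}

/-- slopes -/
def sl (x : Fin n → ℝ × ℝ) : Fin n → ℝ := fun l => (x l).1

/-- intercepts -/
def ic (x : Fin n → ℝ × ℝ) : Fin n → ℝ := fun l => (x l).2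

theorem det_ht (x : Fin n → ℝ × ℝ) (i j l : Fin n) (h : sl x i ≠ sl x j) :
    det3 (x i) (x j) (x l) = (sl x j - sl x i) *
      (ht (sl x) (ic x) l (cr (sl x) (ic x) i j) - ht (sl x) (ic x) i (cr (sl x) (ic x) i j)) := by
  have h' : sl x i - sl x j ≠ 0 := sub_ne_zero.mpr h
  simp only [det3, ht, cr, sl, ic] at *
  field_simp
  ring

theorem simple_of_GP (x : Fin n → ℝ × ℝ) (hx : GP x) : Simple (sl x) (ic x) := by
  refine ⟨fun i j hij h => absurd h (hx.1 i j hij).1, ?_⟩
  rintro i j l hij hil hjl ⟨y, h1, h2⟩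
  have ha : sl x i ≠ sl x j := (hx.1 i j hij).1
  have h' : sl x i - sl x j ≠ 0 := sub_ne_zero.mpr ha
  have hy : y = cr (sl x) (ic x) i j := by
    unfold cr
    rw [eq_div_iff h']
    unfold ht at h1
    linarith
  have := det_ht x i j l ha
  rw [← hy, ← h2, sub_self, mul_zero] at this
  exact hx.2 i j l hij hil hjl this

theorem left_below (x : Fin n → ℝ × ℝ) (i j : Fin n) (h : sl x j < sl x i) :
    leftCount x i j = {l | ht (sl x) (ic x) l (cr (sl x) (ic x) i j) <
      ht (sl x) (ic x) i (cr (sl x) (ic x) i j)}.ncard := by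
  unfold leftCount
  rw [← Nat.card_coe_set_eq]
  congr 1
  have : ∀ l, (0 < det3 (x i) (x j) (x l) ↔ ht (sl x) (ic x) l (cr (sl x) (ic x) i j) <
      ht (sl x) (ic x) i (cr (sl x) (ic x) i j)) := by
    intro l
    rw [det_ht x i j l h.ne']
    constructor
    · intro h1
      nlinarith
    · intro h1
      have h2 : sl x j - sl x i < 0 := by linarith
      exact mul_pos_of_neg_of_neg h2 (by linarith)
  simp only [this]
  rfl

theorem left_above (x : Fin n → ℝ × ℝ) (i j : Fin n) (h : sl x i < sl x j) :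
    leftCount x i j = {l | ht (sl x) (ic x) i (cr (sl x) (ic x) i j) <
      ht (sl x) (ic x) l (cr (sl x) (ic x) i j)}.ncard := by
  unfold leftCount
  rw [← Nat.card_coe_set_eq]
  congr 1
  have : ∀ l, (0 < det3 (x i) (x j) (x l) ↔ ht (sl x) (ic x) i (cr (sl x) (ic x) i j) <
      ht (sl x) (ic x) l (cr (sl x) (ic x) i j)) := by
    intro l
    rw [det_ht x i j l h.ne]
    constructor
    · intro h1
      nlinarith
    · intro h1
      exact mul_pos (by linarith) (by linarith)
  simp only [this]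
  rfl

theorem kEdges_ncard (x : Fin n → ℝ × ℝ) (k : ℕ) :
    kEdges x k = {p : Fin n × Fin n | p.1 ≠ p.2 ∧ leftCount x p.1 p.2 = k}.ncard := by
  unfold kEdges
  rw [← Nat.card_coe_set_eq]
  rfl

theorem cross_sets {x : Fin n → ℝ × ℝ} (hx : GP x) {q : Fin n × Fin n} {k : ℕ}
    (hq : q ∈ crossings (sl x) (ic x) k) :
    {l | ht (sl x) (ic x) q.1 (cr (sl x) (ic x) q.1 q.2) <
      ht (sl x) (ic x) l (cr (sl x) (ic x) q.1 q.2)}.ncard + k + 2 = n := by
  obtain ⟨h1, h2, h3⟩ := hq
  have := count3 (simple_of_GP x hx) (i := q.1) (j := q.2) (ne_of_lt h1)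
    (x := cr (sl x) (ic x) q.1 q.2) (ht_cr h2).symm
  omega

theorem cross_le1 (x : Fin n → ℝ × ℝ) (k : ℕ) :
    (crossings (sl x) (ic x) k).ncard ≤ kEdges x k := by
  classical
  rw [kEdges_ncard]
  apply Set.ncard_le_ncard_of_injOn
    (fun q : Fin n × Fin n => if sl x q.2 < sl x q.1 then q else q.swap)
  · rintro ⟨i, j⟩ ⟨h1, h2, h3⟩
    simp only at h1 h2 h3
    by_cases h : sl x j < sl x i
    · simp only [h, if_true]
      exact ⟨ne_of_lt h1, by rw [← h3]; exact left_below x i j h⟩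
    · simp only [h, if_false]
      have h4 : sl x i < sl x j := lt_of_le_of_ne (not_lt.mp h) h2
      refine ⟨(ne_of_lt h1).symm, ?_⟩
      simp only [Prod.fst_swap, Prod.snd_swap]
      rw [left_below x j i h4, ← h3, cr_symm, ht_cr h2]
  · rintro ⟨i, j⟩ ⟨hq, _⟩ ⟨i', j'⟩ ⟨hq', _⟩ heq
    simp only at hq hq' heq
    split_ifs at heq with h h' h'
    · exact heq
    · rw [Prod.swap_prod_mk, Prod.mk.injEq] at heq
      rw [heq.1, heq.2] at hq
      exact absurd hq' (lt_asymm hq)
    · rw [Prod.swap_prod_mk, Prod.mk.injEq] at heq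
      rw [heq.1, heq.2] at hq
      exact absurd hq' (lt_asymm hq)
    · rw [Prod.swap_prod_mk, Prod.swap_prod_mk, Prod.mk.injEq] at heq
      rw [heq.1, heq.2]

theorem cross_le2 (x : Fin n → ℝ × ℝ) (hx : GP x) (k : ℕ) :
    (crossings (sl x) (ic x) k).ncard ≤ kEdges x (n - 2 - k) := by
  classical
  rw [kEdges_ncard]
  apply Set.ncard_le_ncard_of_injOn
    (fun q : Fin n × Fin n => if sl x q.1 < sl x q.2 then q else q.swap)
  · rintro ⟨i, j⟩ hq0
    have h5 := cross_sets hx hq0
    obtain ⟨h1, h2, h3⟩ := hq0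
    simp only at h1 h2 h3 h5
    by_cases h : sl x i < sl x j
    · simp only [h, if_true]
      exact ⟨ne_of_lt h1, by rw [left_above x i j h]; omega⟩
    · simp only [h, if_false]
      have h4 : sl x j < sl x i := lt_of_le_of_ne (not_lt.mp h) h2.symm
      refine ⟨(ne_of_lt h1).symm, ?_⟩
      simp only [Prod.fst_swap, Prod.snd_swap]
      rw [left_above x j i h4, cr_symm, ht_cr h2]
      omega
  · rintro ⟨i, j⟩ ⟨hq, _⟩ ⟨i', j'⟩ ⟨hq', _⟩ heq
    simp only at hq hq' heq
    split_ifs at heq with h h' h'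
    · exact heq
    · rw [Prod.swap_prod_mk, Prod.mk.injEq] at heq
      rw [heq.1, heq.2] at hq
      exact absurd hq' (lt_asymm hq)
    · rw [Prod.swap_prod_mk, Prod.mk.injEq] at heq
      rw [heq.1, heq.2] at hq
      exact absurd hq' (lt_asymm hq)
    · rw [Prod.swap_prod_mk, Prod.swap_prod_mk, Prod.mk.injEq] at heq
      rw [heq.1, heq.2]

/-- the bound for the crossings -/
theorem cross_bound (hM : S_MAIN) (hG : S_GP) (D : ℝ) (μ : Fin n → Measure (ℝ × ℝ)) (hn : 0 < n)
    (hD : 0 < D) (hp : ∀ i, IsProbabilityMeasure (μ i))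
    (hμ : ∀ i, μ i ≤ ENNReal.ofReal D • (volume.restrict square)) (k : ℕ) :
    ∫⁻ x, ((crossings (sl x) (ic x) k).ncard : ℝ≥0∞) ∂(Measure.pi μ) ≤
      ENNReal.ofReal (12 * (D * n) ^ (1 / 3 : ℝ) *
        (min (k + 1) (n - 1 - k) : ℕ) ^ (2 / 3 : ℝ)) := by
  have hGP := hG n (ENNReal.ofReal D) μ ENNReal.ofReal_ne_top hp hμ
  rcases Nat.lt_or_ge (k + 1) n with hk | hk
  · rcases le_total (k + 1) (n - 1 - k) with h | h
    · rw [min_eq_left h]
      refine le_trans (lintegral_mono fun x => ?_) ((hM n D μ k hn hD hp hμ).trans ?_)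
      · exact Nat.cast_le.mpr (cross_le1 x k)
      · apply ENNReal.ofReal_le_ofReal
        push_cast
        exact le_rfl
    · rw [min_eq_right h]
      refine le_trans (lintegral_mono_ae ?_) ((hM n D μ (n - 2 - k) hn hD hp hμ).trans ?_)
      · filter_upwards [hGP] with x hx
        exact Nat.cast_le.mpr (cross_le2 x hx.1 k)
      · apply ENNReal.ofReal_le_ofReal
        have : ((n - 2 - k : ℕ) : ℝ) + 1 = ((n - 1 - k : ℕ) : ℝ) := by
          have h1 : n - 2 - k + 1 = n - 1 - k := by omega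
          exact_mod_cast h1
        rw [this]
  · have h0 : ∀ᵐ x ∂(Measure.pi μ), ((crossings (sl x) (ic x) k).ncard : ℝ≥0∞) = 0 := by
      filter_upwards [hGP] with x hx
      have : crossings (sl x) (ic x) k = ∅ := by
        ext q
        simp only [Set.mem_empty_iff_false, iff_false]
        intro hq
        have := cross_sets hx.1 hq
        omega
      rw [this]; simp
    rw [lintegral_congr_ae h0]
    simp

theorem psi_bound (hM : S_MAIN) (hG : S_GP) (D : ℝ) (μ : Fin n → Measure (ℝ × ℝ))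
    (hD : 0 < D) (hp : ∀ i, IsProbabilityMeasure (μ i))
    (hμ : ∀ i, μ i ≤ ENNReal.ofReal D • (volume.restrict square)) (k : ℕ) (hk : k < n) :
    ∫⁻ x, (psi (sl x) (ic x) k : ℝ≥0∞) ∂(Measure.pi μ) ≤
      ENNReal.ofReal (24 * (D * n) ^ (1 / 3 : ℝ) *
        (min (k + 1) (n - k) : ℕ) ^ (2 / 3 : ℝ)) := by
  have hn : 0 < n := by omega
  have hGP := hG n (ENNReal.ofReal D) μ ENNReal.ofReal_ne_top hp hμ
  have h1 := cross_bound hM hG D μ hn hD hp hμ k
  have h2 : ∫⁻ x, ((if k = 0 then 0 else (crossings (sl x) (ic x) (k - 1)).ncard : ℕ) : ℝ≥0∞)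
      ∂(Measure.pi μ) ≤ ENNReal.ofReal (12 * (D * n) ^ (1 / 3 : ℝ) *
        (min (k + 1) (n - k) : ℕ) ^ (2 / 3 : ℝ)) := by
    by_cases h0 : k = 0
    · simp [h0]
    · simp only [h0, if_false]
      refine (cross_bound hM hG D μ hn hD hp hμ (k - 1)).trans ?_
      apply ENNReal.ofReal_le_ofReal
      have h3 : min (k - 1 + 1) (n - 1 - (k - 1)) ≤ min (k + 1) (n - k) := by omega
      exact mul_le_mul_of_nonneg_left (Real.rpow_le_rpow (by positivity)
        (by exact_mod_cast h3) (by norm_num)) (by positivity)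
  have h1' : ∫⁻ x, ((crossings (sl x) (ic x) k).ncard : ℝ≥0∞) ∂(Measure.pi μ) ≤
      ENNReal.ofReal (12 * (D * n) ^ (1 / 3 : ℝ) *
        (min (k + 1) (n - k) : ℕ) ^ (2 / 3 : ℝ)) := by
    refine h1.trans ?_
    apply ENNReal.ofReal_le_ofReal
    have h3 : min (k + 1) (n - 1 - k) ≤ min (k + 1) (n - k) := by omega
    exact mul_le_mul_of_nonneg_left (Real.rpow_le_rpow (by positivity)
      (by exact_mod_cast h3) (by norm_num)) (by positivity)
  have hmeas : Measurable fun x : Fin n → ℝ × ℝ => ((crossings (sl x) (ic x) k).ncard : ℝ≥0∞) := by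
    have h := measurable_ncard (fun (x : Fin n → ℝ × ℝ) (q : Fin n × Fin n) => q.1 < q.2 ∧
      sl x q.1 ≠ sl x q.2 ∧ {l | ht (sl x) (ic x) l (cr (sl x) (ic x) q.1 q.2) <
        ht (sl x) (ic x) q.1 (cr (sl x) (ic x) q.1 q.2)}.ncard = k)
      (fun q => (MeasurableSet.const _).inter (MeasurableSet.inter ?_ ?_))
    · exact (measurable_of_countable (fun c : ℕ => (c : ℝ≥0∞))).comp h
    · have h1 : Measurable fun x : Fin n → ℝ × ℝ => sl x q.1 := (measurable_pi_apply q.1).fst
      have h2 : Measurable fun x : Fin n → ℝ × ℝ => sl x q.2 := (measurable_pi_apply q.2).fst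
      exact (measurableSet_eq_fun h1 h2).compl
    · have hs : ∀ l, Measurable fun x : Fin n → ℝ × ℝ => sl x l :=
        fun l => (measurable_pi_apply l).fst
      have hi : ∀ l, Measurable fun x : Fin n → ℝ × ℝ => ic x l :=
        fun l => (measurable_pi_apply l).snd
      have hc : Measurable fun x : Fin n → ℝ × ℝ => cr (sl x) (ic x) q.1 q.2 := by
        unfold cr
        exact ((hi _).sub (hi _)).div ((hs _).sub (hs _))
      have hh : ∀ l, Measurable fun x : Fin n → ℝ × ℝ =>
          ht (sl x) (ic x) l (cr (sl x) (ic x) q.1 q.2) := by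
        intro l
        unfold ht
        exact ((hs l).mul hc).add (hi l)
      exact (measurable_ncard (fun (x : Fin n → ℝ × ℝ) l =>
        ht (sl x) (ic x) l (cr (sl x) (ic x) q.1 q.2) <
          ht (sl x) (ic x) q.1 (cr (sl x) (ic x) q.1 q.2))
        (fun l => measurableSet_lt (hh l) (hh q.1))) (measurableSet_singleton k)
  calc ∫⁻ x, (psi (sl x) (ic x) k : ℝ≥0∞) ∂(Measure.pi μ)
      ≤ ∫⁻ x, (((crossings (sl x) (ic x) k).ncard : ℝ≥0∞) +
          ((if k = 0 then 0 else (crossings (sl x) (ic x) (k - 1)).ncard : ℕ) : ℝ≥0∞))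
        ∂(Measure.pi μ) := by
        apply lintegral_mono_ae
        filter_upwards [hGP] with x hx
        have hB := psi_le (simple_of_GP x hx.1) hk
        have h1 : (psi (sl x) (ic x) k : ℝ≥0∞) ≤ (((crossings (sl x) (ic x) k).ncard +
          (if k = 0 then 0 else (crossings (sl x) (ic x) (k - 1)).ncard) : ℕ) : ℕ∞) := by
          exact_mod_cast hB
        refine h1.trans ?_
        rw [ENat.toENNReal_coe]
        push_cast
        exact le_rfl
    _ = _ := lintegral_add_left hmeas _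
    _ ≤ _ := add_le_add h1' h2
    _ = ENNReal.ofReal (24 * (D * n) ^ (1 / 3 : ℝ) *
        (min (k + 1) (n - k) : ℕ) ^ (2 / 3 : ℝ)) := by
        rw [← ENNReal.ofReal_add (by positivity) (by positivity)]
        congr 1
        ring

end Pool.Agent.N378.SK
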