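import Pool.Agent.N378.SK.Stm3
import Pool.Agent.N378.SK.Main

set_option autoImplicit false

/-!
# Assembly of project SK: halving lines, exponent 1/4
-/

namespace Pool.Agent.N378.SK

open MeasureTheory
open scoped ENNReal

theorem s_le_one (p : ℝ × ℝ) (s : ℝ) (hs : 0 < s) (h : Metric.closedBall p s ⊆ square) : s ≤ 1 := by
  have h1 : (p.1 + s, p.2) ∈ Metric.closedBall p s := by
    rw [Metric.mem_closedBall, Prod.dist_eq]
    simp [abs_of_pos hs, hs.le]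
  have h2 : (p.1 - s, p.2) ∈ Metric.closedBall p s := by
    rw [Metric.mem_closedBall, Prod.dist_eq]
    simp [abs_of_pos hs, hs.le]
  have h3 := (h h1).1
  have h4 := (h h2).1
  simp only [Set.mem_Icc] at h3 h4
  linarith [h3.2, h4.1]

theorem bis_num3 (s n : ℝ) (hs : 0 < s) (hs1 : s ≤ 1) (hn : 0 < n) :
    40 * n + 908 * (Real.sqrt (n * (n / 2)) / s ^ (1 / 4 : ℝ)) ≤
      2 * (400 * n / s ^ (1 / 4 : ℝ)) := by
  have h1 : 0 < s ^ (1 / 4 : ℝ) := Real.rpow_pos_of_pos hs _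
  have h2 : s ^ (1 / 4 : ℝ) ≤ 1 := Real.rpow_le_one hs.le hs1 (by norm_num)
  have h3 : Real.sqrt (n * (n / 2)) ≤ 3 / 4 * n := by
    rw [Real.sqrt_le_left (by positivity)]
    nlinarith
  have h4 : n ≤ n / s ^ (1 / 4 : ℝ) := by
    rw [le_div_iff₀ h1]
    nlinarith
  have h5 : Real.sqrt (n * (n / 2)) / s ^ (1 / 4 : ℝ) ≤ 3 / 4 * (n / s ^ (1 / 4 : ℝ)) := by
    have h7 : 3 / 4 * (n / s ^ (1 / 4 : ℝ)) = 3 / 4 * n / s ^ (1 / 4 : ℝ) := by ring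
    rw [h7]
    exact div_le_div_of_nonneg_right h3 h1.le
  have h6 : 2 * (400 * n / s ^ (1 / 4 : ℝ)) = 800 * (n / s ^ (1 / 4 : ℝ)) := by ring
  rw [h6]
  linarith

theorem main_bis3 (hF : S_FIN3) (hB : S_BIS) (n : ℕ) (hn : 0 < n) (he : Even n)
    (p : Fin n → ℝ × ℝ) (s : ℝ) (hs : 0 < s) (hp : ∀ i, Metric.closedBall (p i) s ⊆ square) :
    ∫⁻ x, (bisectors x : ℝ≥0∞) ∂(Measure.pi fun i => unif (p i) s) ≤
      ENNReal.ofReal (400 * n / s ^ (1 / 4 : ℝ)) := by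
  have h1 := hF n p s (n / 2 - 1) hn hs hp
  have h2 : 2 * ∫⁻ x, (bisectors x : ℝ≥0∞) ∂(Measure.pi fun i => unif (p i) s) ≤
      ∫⁻ x, (kEdges x (n / 2 - 1) : ℝ≥0∞) ∂(Measure.pi fun i => unif (p i) s) := by
    rw [← lintegral_const_mul' _ _ (by norm_num)]
    refine lintegral_mono fun x => ?_
    have := hB n x
    have h3 : ((2 * bisectors x : ℕ) : ℝ≥0∞) ≤ (kEdges x (n / 2 - 1) : ℝ≥0∞) := by
      exact_mod_cast this
    simpa using h3
  have h4 : ((n / 2 - 1 : ℕ) : ℝ) + 1 = (n : ℝ) / 2 := by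
    obtain ⟨m, hm⟩ := he
    have hm0 : 0 < m := by omega
    have : n / 2 - 1 + 1 = m := by omega
    have h5 : ((n / 2 - 1 : ℕ) : ℝ) + 1 = (m : ℝ) := by exact_mod_cast this
    rw [h5, hm]; push_cast; ring
  rw [h4] at h1
  have hs1 : s ≤ 1 := s_le_one (p ⟨0, hn⟩) s hs (hp ⟨0, hn⟩)
  have h6 : 2 * ∫⁻ x, (bisectors x : ℝ≥0∞) ∂(Measure.pi fun i => unif (p i) s) ≤
      2 * ENNReal.ofReal (400 * n / s ^ (1 / 4 : ℝ)) := by
    refine (h2.trans h1).trans ?_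
    have h7 : (2 : ℝ≥0∞) = ENNReal.ofReal 2 := by norm_num
    rw [h7, ← ENNReal.ofReal_mul (by norm_num)]
    exact ENNReal.ofReal_le_ofReal (bis_num3 s n hs hs1 (by exact_mod_cast hn))
  exact (ENNReal.mul_le_mul_iff_right (by norm_num) (by norm_num)).mp h6

end Pool.Agent.N378.SK
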