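import Pool.Agent.N378.SK.Stm3
import Pool.Agent.N378.SK.L_GP
import Pool.Agent.N378.SK.L_LONG
import Pool.Agent.N378.SK.Main
import Pool.Agent.N378.SK.L_SH2

set_option autoImplicit false

/-!
# Project SK, leaf SH2: the expected number of short edges for uniform noise (helper826)
-/

namespace Pool.Agent.N378.SK

open MeasureTheory Finset
open scoped ENNReal

namespace SH3Q

/-- the configurations for which `e` is a flat short edge from left to right -/
def SA {n : ℕ} (T : ℝ) (k : ℕ) (e : Fin n × Fin n) : Set (Fin n → ℝ × ℝ) :=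
  {x | leftCount x e.1 e.2 = k ∧ (x e.1).1 < (x e.2).1 ∧ (x e.2).1 - (x e.1).1 ≤ T ∧
    |(x e.2).2 - (x e.1).2| ≤ (x e.2).1 - (x e.1).1}

theorem meas_SA (h2 : S_MEAS) {n : ℕ} (T : ℝ) (k : ℕ) (e : Fin n × Fin n) :
    MeasurableSet (SA T k e) := by
  have m1 : ∀ i : Fin n, Measurable fun x : Fin n → ℝ × ℝ => (x i).1 := fun i =>
    measurable_fst.comp (measurable_pi_apply i)
  have m2 : ∀ i : Fin n, Measurable fun x : Fin n → ℝ × ℝ => (x i).2 := fun i =>
    measurable_snd.comp (measurable_pi_apply i)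
  refine (h2 n e.1 e.2 k).inter ((measurableSet_lt (m1 _) (m1 _)).inter
    ((measurableSet_le ((m1 _).sub (m1 _)) measurable_const).inter
      (measurableSet_le ?_ ((m1 _).sub (m1 _)))))
  exact continuous_abs.measurable.comp ((m2 _).sub (m2 _))

/-- the number of flat short edges from left to right -/
noncomputable def cA {n : ℕ} (Q : Finset (Fin n × Fin n)) (T : ℝ) (k : ℕ) (x : Fin n → ℝ × ℝ) :
    ℝ≥0∞ :=
  ∑ e ∈ Q, (SA T k e).indicator (1 : (Fin n → ℝ × ℝ) → ℝ≥0∞) x

theorem meas_cA (h2 : S_MEAS) {n : ℕ} (Q : Finset (Fin n × Fin n)) (T : ℝ) (k : ℕ) :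
    Measurable (cA Q T k : (Fin n → ℝ × ℝ) → ℝ≥0∞) := by
  unfold cA
  exact Finset.measurable_sum _ fun e _ => measurable_one.indicator (meas_SA h2 T k e)

theorem U1_prob (q σ : ℝ) (hσ : 0 < σ) : IsProbabilityMeasure (U1 q σ) := by
  constructor
  simp only [U1, Measure.smul_apply, Measure.restrict_apply MeasurableSet.univ, Set.univ_inter,
    smul_eq_mul, Real.volume_Icc]
  have e : q + σ - (q - σ) = 2 * σ := by ring
  rw [e]
  exact ENNReal.inv_mul_cancel (by simpa using hσ) ENNReal.ofReal_ne_top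

theorem unif_eq (p : ℝ × ℝ) (σ : ℝ) (hσ : 0 < σ) : (U1 p.1 σ).prod (U1 p.2 σ) = unif p σ := by
  have := U1_prob p.1 σ hσ
  have := U1_prob p.2 σ hσ
  refine Measure.prod_eq fun s t hs ht => ?_
  have e : ENNReal.ofReal (4 * σ ^ 2) = ENNReal.ofReal (2 * σ) * ENNReal.ofReal (2 * σ) := by
    rw [← ENNReal.ofReal_mul (by positivity)]
    congr 1
    ring
  unfold unif U1
  rw [vol_cb p σ hσ, e, ENNReal.mul_inv (Or.inr ENNReal.ofReal_ne_top)
    (Or.inl ENNReal.ofReal_ne_top), ← closedBall_prod_same, Real.closedBall_eq_Icc,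
    Real.closedBall_eq_Icc]
  simp only [Measure.smul_apply, smul_eq_mul]
  rw [Measure.restrict_apply (hs.prod ht), Set.prod_inter_prod, Measure.volume_eq_prod,
    Measure.prod_prod, Measure.restrict_apply hs, Measure.restrict_apply ht]
  ring

theorem int_cA (h1 : S_FLAT3) (h2 : S_MEAS) {n : ℕ} (Q : Finset (Fin n × Fin n)) (p : Fin n → ℝ × ℝ) (σ T : ℝ) (k : ℕ)
    (hσ : 0 < σ) (hT : 0 < T) :
    ∫⁻ x, cA Q T k x ∂(Measure.pi fun i => unif (p i) σ) ≤
      ENNReal.ofReal (6 * Real.sqrt (Q.card * (T / σ))) := by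
  classical
  have : ∀ i, IsProbabilityMeasure (U1 (p i).1 σ) := fun i => U1_prob _ σ hσ
  have : ∀ i, IsProbabilityMeasure (U1 (p i).2 σ) := fun i => U1_prob _ σ hσ
  have e : (fun i => unif (p i) σ) = fun i => (U1 (p i).1 σ).prod (U1 (p i).2 σ) :=
    funext fun i => (unif_eq (p i) σ hσ).symm
  rw [e]
  have hmp := (measurePreserving_arrowProdEquivProdArrow ℝ ℝ (Fin n) (fun i => U1 (p i).1 σ)
    (fun i => U1 (p i).2 σ)).symm
  have hmeas : Measurable fun a : (Fin n → ℝ) × (Fin n → ℝ) =>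
      cA Q T k ((MeasurableEquiv.arrowProdEquivProdArrow ℝ ℝ (Fin n)).symm a) :=
    (meas_cA h2 Q T k).comp hmp.measurable
  rw [← hmp.lintegral_comp (meas_cA h2 Q T k), lintegral_prod _ hmeas.aemeasurable]
  calc ∫⁻ u, ∫⁻ v, cA Q T k ((MeasurableEquiv.arrowProdEquivProdArrow ℝ ℝ (Fin n)).symm (u, v))
          ∂(Measure.pi fun i => U1 (p i).2 σ) ∂(Measure.pi fun i => U1 (p i).1 σ)
      ≤ ∫⁻ _u, ENNReal.ofReal (6 * Real.sqrt (Q.card * (T / σ)))
          ∂(Measure.pi fun i => U1 (p i).1 σ) := by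
        refine lintegral_mono fun u => ?_
        refine le_trans ?_ ((h1 n u (fun i => (p i).2) σ T k (Q.filter (fun e => e ∈ PT u T)) hσ hT
          (fun e he => (Finset.mem_filter.1 he).2)).trans (ENNReal.ofReal_le_ofReal ?_))
        rotate_left
        · gcongr
          exact Finset.filter_subset _ _
        have e2 : ∀ v : Fin n → ℝ,
            (MeasurableEquiv.arrowProdEquivProdArrow ℝ ℝ (Fin n)).symm (u, v) =
              fun l => (u l, v l) := fun v => rfl
        simp only [e2]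
        have hm : Measurable fun v : Fin n → ℝ => (fun l => (u l, v l) : Fin n → ℝ × ℝ) :=
          measurable_pi_iff.2 fun l => measurable_const.prodMk (measurable_pi_apply l)
        unfold cA
        have hme : ∀ e : Fin n × Fin n, Measurable fun v : Fin n → ℝ => (SA T k e).indicator
            (1 : (Fin n → ℝ × ℝ) → ℝ≥0∞) (fun l => (u l, v l)) := fun e =>
          (measurable_one.indicator (meas_SA h2 T k e)).comp hm
        rw [lintegral_finsetSum _ fun e _ => hme e]
        have e3 : ∀ e : Fin n × Fin n, ∫⁻ v, (SA T k e).indicator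
            (1 : (Fin n → ℝ × ℝ) → ℝ≥0∞) (fun l => (u l, v l))
              ∂(Measure.pi fun i => U1 (p i).2 σ) =
            PV (fun i => (p i).2) σ {v | (fun l => (u l, v l)) ∈ SA T k e} := by
          intro e
          have hms : MeasurableSet {v : Fin n → ℝ | (fun l => (u l, v l)) ∈ SA T k e} :=
            hm (meas_SA h2 T k e)
          rw [PV, ← lintegral_indicator_one hms]
          rfl
        rw [Finset.sum_congr rfl fun e _ => e3 e]
        rw [← Finset.sum_subset (Finset.filter_subset (fun e => e ∈ PT u T) Q)]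
        · refine Finset.sum_le_sum fun e he => measure_mono ?_
          rintro v ⟨a1, a2, a3, a4⟩
          exact ⟨a4, a1⟩
        · intro e heQ he
          have : {v : Fin n → ℝ | (fun l => (u l, v l)) ∈ SA T k e} = ∅ := by
            ext v
            simp only [Set.mem_ofPred_eq, Set.mem_empty_iff_false, iff_false]
            rintro ⟨a1, a2, a3, a4⟩
            apply he
            rw [Finset.mem_filter]
            refine ⟨heQ, ?_⟩
            unfold PT
            rw [Finset.mem_filter]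
            exact ⟨Finset.mem_univ _, a2, a3⟩
          rw [this, measure_empty]
    _ = ENNReal.ofReal (6 * Real.sqrt (Q.card * (T / σ))) := by
        rw [lintegral_const, measure_univ, mul_one]

/-! ## The reflections -/

def RB (z : ℝ × ℝ) : ℝ × ℝ := (-z.1, -z.2)
def RC (z : ℝ × ℝ) : ℝ × ℝ := (z.2, -z.1)
def RD (z : ℝ × ℝ) : ℝ × ℝ := (-z.2, z.1)

theorem mp_neg (q σ : ℝ) : MeasurePreserving (fun t : ℝ => -t) (U1 q σ) (U1 (-q) σ) := by
  have h := (Measure.measurePreserving_neg (volume : Measure ℝ)).restrict_preimage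
    (measurableSet_Icc (a := -q - σ) (b := -q + σ))
  have e : (Neg.neg : ℝ → ℝ) ⁻¹' Set.Icc (-q - σ) (-q + σ) = Set.Icc (q - σ) (q + σ) := by
    ext t
    simp only [Set.mem_preimage, Set.mem_Icc]
    constructor <;> rintro ⟨a, b⟩ <;> constructor <;> linarith
  rw [e] at h
  exact h.smul_measure _

theorem mp_B (z : ℝ × ℝ) (σ : ℝ) (hσ : 0 < σ) :
    MeasurePreserving RB (unif z σ) (unif (RB z) σ) := by
  have := U1_prob z.1 σ hσ
  have := U1_prob z.2 σ hσ
  have := U1_prob (-z.1) σ hσ
  have := U1_prob (-z.2) σ hσ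
  rw [← unif_eq z σ hσ, ← unif_eq (RB z) σ hσ]
  exact (mp_neg z.1 σ).prod (mp_neg z.2 σ)

theorem mp_C (z : ℝ × ℝ) (σ : ℝ) (hσ : 0 < σ) :
    MeasurePreserving RC (unif z σ) (unif (RC z) σ) := by
  have := U1_prob z.1 σ hσ
  have := U1_prob z.2 σ hσ
  have := U1_prob (-z.1) σ hσ
  rw [← unif_eq z σ hσ, ← unif_eq (RC z) σ hσ]
  exact ((MeasurePreserving.id (U1 z.2 σ)).prod (mp_neg z.1 σ)).comp
    (Measure.measurePreserving_swap (μ := U1 z.1 σ) (ν := U1 z.2 σ))

theorem mp_D (z : ℝ × ℝ) (σ : ℝ) (hσ : 0 < σ) :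
    MeasurePreserving RD (unif z σ) (unif (RD z) σ) := by
  have := U1_prob z.1 σ hσ
  have := U1_prob z.2 σ hσ
  have := U1_prob (-z.2) σ hσ
  rw [← unif_eq z σ hσ, ← unif_eq (RD z) σ hσ]
  exact ((mp_neg z.2 σ).prod (MeasurePreserving.id (U1 z.1 σ))).comp
    (Measure.measurePreserving_swap (μ := U1 z.1 σ) (ν := U1 z.2 σ))

theorem int_R (h1 : S_FLAT3) (h2 : S_MEAS) {n : ℕ} (Q : Finset (Fin n × Fin n)) (p : Fin n → ℝ × ℝ) (σ T : ℝ) (k : ℕ)
    (hσ : 0 < σ) (hT : 0 < T) (R : ℝ × ℝ → ℝ × ℝ)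
    (hR : ∀ z, MeasurePreserving R (unif z σ) (unif (R z) σ)) :
    ∫⁻ x, cA Q T k (fun l => R (x l)) ∂(Measure.pi fun i => unif (p i) σ) ≤
      ENNReal.ofReal (6 * Real.sqrt (Q.card * (T / σ))) := by
  have : ∀ z, IsProbabilityMeasure (unif z σ) := fun z => unif_prob z σ hσ
  have hmp := measurePreserving_pi (fun i => unif (p i) σ) (fun i => unif (R (p i)) σ)
    (f := fun _ => R) (fun i => hR (p i))
  rw [hmp.lintegral_comp (meas_cA h2 Q T k)]
  exact int_cA h1 h2 Q (fun i => R (p i)) σ T k hσ hT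

theorem meas_R (h2 : S_MEAS) {n : ℕ} (Q : Finset (Fin n × Fin n)) (T : ℝ) (k : ℕ) (R : ℝ × ℝ → ℝ × ℝ) (hR : Measurable R) :
    Measurable fun x : Fin n → ℝ × ℝ => cA Q T k (fun l => R (x l)) :=
  (meas_cA h2 Q T k).comp (measurable_pi_iff.2 fun l => hR.comp (measurable_pi_apply l))

theorem det_R (a b c : ℝ × ℝ) : det3 (RB a) (RB b) (RB c) = det3 a b c ∧
    det3 (RC a) (RC b) (RC c) = det3 a b c ∧ det3 (RD a) (RD b) (RD c) = det3 a b c := by
  simp only [det3, RB, RC, RD]
  refine ⟨by ring, by ring, by ring⟩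

open Classical in
theorem count_le {n : ℕ} (Q : Finset (Fin n × Fin n)) (T : ℝ) (k : ℕ) (x : Fin n → ℝ × ℝ) (hx : ∀ i j, i ≠ j → x i ≠ x j) :
    (((KE x k).filter fun e => e ∈ Q ∧ ‖x e.2 - x e.1‖ < T).card : ℝ≥0∞) ≤
      cA Q T k x + cA Q T k (fun l => RB (x l)) + cA Q T k (fun l => RC (x l)) +
        cA Q T k (fun l => RD (x l)) := by
  rw [Finset.card_eq_sum_ones]
  push_cast
  unfold cA
  rw [← sum_add_distrib, ← sum_add_distrib, ← sum_add_distrib]
  refine le_trans (Finset.sum_le_sum ?_) (Finset.sum_le_sum_of_subset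
    (fun e he => (Finset.mem_filter.1 he).2.1))
  intro e he
  rw [Finset.mem_filter] at he
  obtain ⟨he1, _, he2⟩ := he
  unfold KE at he1
  rw [Finset.mem_filter] at he1
  obtain ⟨_, hne, hk⟩ := he1
  rw [Prod.norm_def, max_lt_iff] at he2
  obtain ⟨n1, n2⟩ := he2
  rw [Real.norm_eq_abs, Prod.fst_sub] at n1
  rw [Real.norm_eq_abs, Prod.snd_sub] at n2
  have hB : leftCount (fun l => RB (x l)) e.1 e.2 = k := by
    rw [LONG.leftCount_congr (x := x) fun i j l => (det_R _ _ _).1]
    exact hk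
  have hC : leftCount (fun l => RC (x l)) e.1 e.2 = k := by
    rw [LONG.leftCount_congr (x := x) fun i j l => (det_R _ _ _).2.1]
    exact hk
  have hD : leftCount (fun l => RD (x l)) e.1 e.2 = k := by
    rw [LONG.leftCount_congr (x := x) fun i j l => (det_R _ _ _).2.2]
    exact hk
  have hxe := hx e.1 e.2 hne
  obtain ⟨a1, a2⟩ := abs_lt.1 n1
  obtain ⟨b1, b2⟩ := abs_lt.1 n2
  rcases le_or_gt |(x e.2).2 - (x e.1).2| |(x e.2).1 - (x e.1).1| with hle | hlt
  · rcases lt_trichotomy (x e.1).1 (x e.2).1 with h | h | h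
    · -- type A
      have hm : x ∈ SA T k e := by
        refine ⟨hk, h, a2.le, ?_⟩
        rwa [abs_of_pos (sub_pos.2 h)] at hle
      have h1 : (1 : ℝ≥0∞) = (SA T k e).indicator (1 : (Fin n → ℝ × ℝ) → ℝ≥0∞) x := by
        rw [Set.indicator_of_mem hm]; rfl
      rw [h1, add_assoc, add_assoc]
      exact le_self_add
    · exfalso
      apply hxe
      rw [h, sub_self, abs_zero] at hle
      have h0 : (x e.2).2 - (x e.1).2 = 0 := abs_nonpos_iff.1 hle
      exact Prod.ext h (by linarith)
    · -- type B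
      have hm : (fun l => RB (x l)) ∈ SA T k e := by
        refine ⟨hB, ?_, ?_, ?_⟩
        · simp only [RB]; linarith
        · simp only [RB]; linarith
        · rw [abs_of_neg (sub_neg.2 h)] at hle
          simp only [RB]
          have e1 : -(x e.2).2 - -(x e.1).2 = -((x e.2).2 - (x e.1).2) := by ring
          rw [e1, abs_neg]
          linarith
      have h1 : (1 : ℝ≥0∞) = (SA T k e).indicator (1 : (Fin n → ℝ × ℝ) → ℝ≥0∞)
          (fun l => RB (x l)) := by
        rw [Set.indicator_of_mem hm]; rfl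
      rw [h1, add_assoc, add_assoc]
      exact le_self_add.trans le_add_self
  · rcases lt_trichotomy (x e.1).2 (x e.2).2 with h | h | h
    · -- type C
      have hm : (fun l => RC (x l)) ∈ SA T k e := by
        refine ⟨hC, ?_, ?_, ?_⟩
        · simp only [RC]; linarith
        · simp only [RC]; linarith
        · rw [abs_of_pos (sub_pos.2 h)] at hlt
          simp only [RC]
          have e1 : -(x e.2).1 - -(x e.1).1 = -((x e.2).1 - (x e.1).1) := by ring
          rw [e1, abs_neg]
          linarith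
      have h1 : (1 : ℝ≥0∞) = (SA T k e).indicator (1 : (Fin n → ℝ × ℝ) → ℝ≥0∞)
          (fun l => RC (x l)) := by
        rw [Set.indicator_of_mem hm]; rfl
      rw [h1]
      exact le_add_self.trans le_self_add
    · exfalso
      rw [h, sub_self, abs_zero] at hlt
      exact absurd hlt (not_lt.2 (abs_nonneg _))
    · -- type D
      have hm : (fun l => RD (x l)) ∈ SA T k e := by
        refine ⟨hD, ?_, ?_, ?_⟩
        · simp only [RD]; linarith
        · simp only [RD]; linarith
        · rw [abs_of_neg (sub_neg.2 h)] at hlt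
          simp only [RD]
          linarith
      have h1 : (1 : ℝ≥0∞) = (SA T k e).indicator (1 : (Fin n → ℝ × ℝ) → ℝ≥0∞)
          (fun l => RD (x l)) := by
        rw [Set.indicator_of_mem hm]; rfl
      rw [h1]
      exact le_add_self

theorem unif_point (z a : ℝ × ℝ) (σ : ℝ) : unif z σ {a} = 0 := by
  unfold unif
  rw [Measure.smul_apply]
  have h : (volume.restrict (Metric.closedBall z σ) : Measure (ℝ × ℝ)) {a} = 0 :=
    measure_singleton a
  rw [h, smul_zero]

end SH3Q

open Classical in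
theorem sh3 (h1 : S_FLAT3) (h2 : S_MEAS) : S_SH3 := by
  intro n p σ T k Q hσ hT
  have : ∀ z, IsProbabilityMeasure (unif z σ) := fun z => unif_prob z σ hσ
  have hne : ∀ᵐ x ∂(Measure.pi fun i => unif (p i) σ), ∀ i j : Fin n, i ≠ j → x i ≠ x j := by
    rw [ae_all_iff]
    intro i
    rw [ae_all_iff]
    intro j
    by_cases hij : i = j
    · exact Filter.Eventually.of_forall fun x h => absurd hij h
    · have hB : MeasurableSet {x : Fin n → ℝ × ℝ | x i = x j} :=
        measurableSet_eq_fun (measurable_pi_apply i) (measurable_pi_apply j)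
      have h0 := null_of_update (fun i => unif (p i) σ) {x : Fin n → ℝ × ℝ | x i = x j} hB j
        (fun x => by
          have e : {y | Function.update x j y ∈ {x : Fin n → ℝ × ℝ | x i = x j}} = {x i} := by
            ext y
            simp only [Set.mem_ofPred_eq, Set.mem_singleton_iff, Function.update_self,
              Function.update_of_ne hij]
            exact eq_comm
          rw [e]
          exact SH3Q.unif_point _ _ _)
      have h4 : ∀ᵐ x ∂(Measure.pi fun i => unif (p i) σ), ¬ x i = x j := by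
        rw [ae_iff]
        simpa using h0
      filter_upwards [h4] with x hx _
      exact hx
  have mB : Measurable SH3Q.RB := (SH3Q.mp_B (0, 0) σ hσ).measurable
  have mC : Measurable SH3Q.RC := (SH3Q.mp_C (0, 0) σ hσ).measurable
  have mD : Measurable SH3Q.RD := (SH3Q.mp_D (0, 0) σ hσ).measurable
  calc ∫⁻ x, (((KE x k).filter fun e => e ∈ Q ∧ ‖x e.2 - x e.1‖ < T).card : ℝ≥0∞)
        ∂(Measure.pi fun i => unif (p i) σ)
      ≤ ∫⁻ x, (SH3Q.cA Q T k x + SH3Q.cA Q T k (fun l => SH3Q.RB (x l)) +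
          SH3Q.cA Q T k (fun l => SH3Q.RC (x l)) + SH3Q.cA Q T k (fun l => SH3Q.RD (x l)))
          ∂(Measure.pi fun i => unif (p i) σ) :=
        lintegral_mono_ae (hne.mono fun x hx => SH3Q.count_le Q T k x hx)
    _ ≤ ENNReal.ofReal (6 * Real.sqrt (Q.card * (T / σ))) + ENNReal.ofReal (6 * Real.sqrt (Q.card * (T / σ))) +
          ENNReal.ofReal (6 * Real.sqrt (Q.card * (T / σ))) +
            ENNReal.ofReal (6 * Real.sqrt (Q.card * (T / σ))) := by
        rw [lintegral_add_right _ (SH3Q.meas_R h2 Q T k _ mD),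
          lintegral_add_right _ (SH3Q.meas_R h2 Q T k _ mC),
          lintegral_add_right _ (SH3Q.meas_R h2 Q T k _ mB)]
        exact add_le_add (add_le_add (add_le_add (SH3Q.int_cA h1 h2 Q p σ T k hσ hT)
          (SH3Q.int_R h1 h2 Q p σ T k hσ hT _ fun z => SH3Q.mp_B z σ hσ))
          (SH3Q.int_R h1 h2 Q p σ T k hσ hT _ fun z => SH3Q.mp_C z σ hσ))
          (SH3Q.int_R h1 h2 Q p σ T k hσ hT _ fun z => SH3Q.mp_D z σ hσ)
    _ = ENNReal.ofReal (24 * Real.sqrt (Q.card * (T / σ))) := by
        rw [← ENNReal.ofReal_add (by positivity) (by positivity),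
          ← ENNReal.ofReal_add (by positivity) (by positivity),
          ← ENNReal.ofReal_add (by positivity) (by positivity)]
        congr 1
        ring

end Pool.Agent.N378.SK
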