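import Pool.Agent.N378.SK.Def

set_option autoImplicit false

/-!
# Statements of the leaves of project SK
-/

namespace Pool.Agent.N378.SK

open MeasureTheory Finset
open scoped ENNReal

/-- general position: different points, no three on a line -/
def GP {n : ℕ} (x : Fin n → ℝ × ℝ) : Prop :=
  (∀ i j, i ≠ j → (x i).1 ≠ (x j).1 ∧ (x i).2 ≠ (x j).2) ∧
  ∀ i j l, i ≠ j → i ≠ l → j ≠ l → det3 (x i) (x j) (x l) ≠ 0

/-- directed `k`-edges as a finset -/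
noncomputable def KE {n : ℕ} (x : Fin n → ℝ × ℝ) (k : ℕ) : Finset (Fin n × Fin n) :=
  open Classical in univ.filter fun p => p.1 ≠ p.2 ∧ leftCount x p.1 p.2 = k

/-- Lovasz' lemma (one direction). -/
def S_LOV : Prop :=
  ∀ (n : ℕ) (x : Fin n → ℝ × ℝ) (k : ℕ) (t : ℝ), GP x →
    open Classical in
    ((KE x k).filter fun p => (x p.1).1 < t ∧ t < (x p.2).1).card ≤ k + 1

/-- Number of long `k`-edges. -/
def S_LONG : Prop :=
  ∀ (n : ℕ) (x : Fin n → ℝ × ℝ) (k : ℕ) (t : ℝ), GP x → (∀ i, x i ∈ square) → 0 < t →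
    open Classical in
    (((KE x k).filter fun p => t ≤ ‖x p.2 - x p.1‖).card : ℝ) * t ≤ 8 * (k + 1)

/-- Almost all configurations are in general position and inside the square. -/
def S_GP : Prop :=
  ∀ (n : ℕ) (D : ℝ≥0∞) (μ : Fin n → Measure (ℝ × ℝ)), D ≠ ⊤ → (∀ i, IsProbabilityMeasure (μ i)) →
    (∀ i, μ i ≤ D • (volume.restrict square)) →
    ∀ᵐ x ∂(Measure.pi μ), GP x ∧ ∀ i, x i ∈ square

/-- The deterministic core of the bound for short `k`-edges: the points `x i` (`i ≠ j`) are fixed,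
the `j`-th point is `y`. -/
def S_CORE : Prop :=
  ∀ (n : ℕ) (x : Fin n → ℝ × ℝ) (j : Fin n) (k : ℕ) (t : ℝ), 0 < t →
    (∀ i l, i ≠ j → l ≠ j → i ≠ l → x i ≠ x l) →
    open Classical in
    ∑ i ∈ univ.erase j,
      volume {y : ℝ × ℝ | ‖y - x i‖ < t ∧ leftCount (Function.update x j y) i j = k} ≤
      ENNReal.ofReal (4 * t ^ 2)

/-- Expected number of short `k`-edges. -/
def S_SHORT : Prop :=
  ∀ (n : ℕ) (D : ℝ≥0∞) (μ : Fin n → Measure (ℝ × ℝ)) (k : ℕ) (t : ℝ), D ≠ ⊤ →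
    (∀ i, IsProbabilityMeasure (μ i)) → (∀ i, μ i ≤ D • (volume.restrict square)) → 0 < t →
    open Classical in
    ∫⁻ x, (((KE x k).filter fun p => ‖x p.2 - x p.1‖ < t).card : ℝ≥0∞) ∂(Measure.pi μ) ≤
      (n : ℝ≥0∞) * (D * ENNReal.ofReal (4 * t ^ 2))

/-- Measurability. -/
def S_MEAS : Prop :=
  ∀ (n : ℕ) (i j : Fin n) (k : ℕ), MeasurableSet {x : Fin n → ℝ × ℝ | leftCount x i j = k}

/-- Combination. -/
def S_COMB : Prop :=
  ∀ (n : ℕ) (D : ℝ≥0∞) (μ : Fin n → Measure (ℝ × ℝ)) (k : ℕ) (t : ℝ), D ≠ ⊤ →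
    (∀ i, IsProbabilityMeasure (μ i)) → (∀ i, μ i ≤ D • (volume.restrict square)) → 0 < t →
    ∫⁻ x, (kEdges x k : ℝ≥0∞) ∂(Measure.pi μ) ≤
      ENNReal.ofReal (8 * (k + 1) / t) + (n : ℝ≥0∞) * (D * ENNReal.ofReal (4 * t ^ 2))

/-- The theorem for directed `k`-edges. -/
def S_MAIN : Prop :=
  ∀ (n : ℕ) (D : ℝ) (μ : Fin n → Measure (ℝ × ℝ)) (k : ℕ), 0 < n → 0 < D →
    (∀ i, IsProbabilityMeasure (μ i)) →
    (∀ i, μ i ≤ ENNReal.ofReal D • (volume.restrict square)) →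
    ∫⁻ x, (kEdges x k : ℝ≥0∞) ∂(Measure.pi μ) ≤
      ENNReal.ofReal (12 * (D * n) ^ (1 / 3 : ℝ) * (k + 1 : ℝ) ^ (2 / 3 : ℝ))

/-- Two directed edges for every bisector. -/
def S_BIS : Prop :=
  ∀ (n : ℕ) (x : Fin n → ℝ × ℝ), 2 * bisectors x ≤ kEdges x (n / 2 - 1)

end Pool.Agent.N378.SK
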