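import Pool.Agent.N378.SK.Stm2

set_option autoImplicit false

/-!
# Statements of the third group of leaves of project SK (exponent 1/4)
-/

namespace Pool.Agent.N378.SK

open MeasureTheory Finset
open scoped ENNReal

/-- Flat short edges from left to right in a given set of pairs. -/
def S_FLAT3 : Prop :=
  ∀ (n : ℕ) (u q : Fin n → ℝ) (σ T : ℝ) (k : ℕ) (P : Finset (Fin n × Fin n)), 0 < σ → 0 < T →
    P ⊆ PT u T →
    ∑ p ∈ P, PV q σ {v | |v p.2 - v p.1| ≤ u p.2 - u p.1 ∧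
        leftCount (fun l => (u l, v l)) p.1 p.2 = k} ≤
      ENNReal.ofReal (6 * Real.sqrt (P.card * (T / σ)))

/-- Expected number of short `k`-edges in a given set of pairs. -/
def S_SH3 : Prop :=
  ∀ (n : ℕ) (p : Fin n → ℝ × ℝ) (σ T : ℝ) (k : ℕ) (Q : Finset (Fin n × Fin n)), 0 < σ → 0 < T →
    open Classical in
    ∫⁻ x, (((KE x k).filter fun e => e ∈ Q ∧ ‖x e.2 - x e.1‖ < T).card : ℝ≥0∞)
        ∂(Measure.pi fun i => unif (p i) σ) ≤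
      ENNReal.ofReal (24 * Real.sqrt (Q.card * (T / σ)))

/-- Lovasz' lemma inside a square with centre `z`. -/
def S_SQ : Prop :=
  ∀ (n : ℕ) (x : Fin n → ℝ × ℝ) (k : ℕ) (t r : ℝ) (z : ℝ × ℝ), GP x → 0 < t → 0 < r →
    open Classical in
    (((KE x k).filter fun e => ‖x e.1 - z‖ ≤ r ∧ ‖x e.2 - z‖ ≤ r ∧
      t ≤ ‖x e.2 - x e.1‖).card : ℝ) * t ≤ 8 * (k + 1) * r

/-- number of centres in the ball of radius `3 T` -/
noncomputable def bc {n : ℕ} (p : Fin n → ℝ × ℝ) (T : ℝ) (i : Fin n) : ℕ :=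
  open Classical in (univ.filter fun j => ‖p j - p i‖ ≤ 3 * T).card

/-- Covering of the heavy points. -/
def S_COV : Prop :=
  ∀ (n : ℕ) (p : Fin n → ℝ × ℝ) (T M : ℝ), 0 < T → 0 < M →
    ∃ Z : Finset (Fin n), (Z.card : ℝ) ≤ M ∧
      ∀ i, (n : ℝ) / M < bc p T i → ∃ z ∈ Z, ‖p i - p z‖ ≤ 6 * T

/-- One dyadic scale. -/
def S_ONE : Prop :=
  ∀ (n : ℕ) (p : Fin n → ℝ × ℝ) (σ T M : ℝ) (k : ℕ), 0 < σ → σ ≤ T → 0 < M →
    (∀ i, Metric.closedBall (p i) σ ⊆ square) →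
    open Classical in
    ∫⁻ x, (((KE x k).filter fun e => T / 2 ≤ ‖x e.2 - x e.1‖ ∧ ‖x e.2 - x e.1‖ < T).card : ℝ≥0∞)
        ∂(Measure.pi fun i => unif (p i) σ) ≤
      ENNReal.ofReal (48 * n * Real.sqrt (T / (M * σ)) + 128 * (k + 1) * M)

/-- All scales below `T`. -/
def S_DY : Prop :=
  ∀ (n : ℕ) (p : Fin n → ℝ × ℝ) (σ T : ℝ) (k : ℕ), 0 < n → 0 < σ → σ ≤ T →
    (∀ i, Metric.closedBall (p i) σ ⊆ square) →
    open Classical in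
    ∫⁻ x, (((KE x k).filter fun e => ‖x e.2 - x e.1‖ < T).card : ℝ≥0∞)
        ∂(Measure.pi fun i => unif (p i) σ) ≤
      ENNReal.ofReal (40 * n +
        900 * ((n : ℝ) ^ (2 / 3 : ℝ) * (k + 1 : ℝ) ^ (1 / 3 : ℝ) * (T / σ) ^ (1 / 3 : ℝ)))

/-- The theorem for uniform noise, exponent `1/4`. -/
def S_FIN3 : Prop :=
  ∀ (n : ℕ) (p : Fin n → ℝ × ℝ) (σ : ℝ) (k : ℕ), 0 < n → 0 < σ →
    (∀ i, Metric.closedBall (p i) σ ⊆ square) →
    ∫⁻ x, (kEdges x k : ℝ≥0∞) ∂(Measure.pi fun i => unif (p i) σ) ≤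
      ENNReal.ofReal (40 * n + 908 * (Real.sqrt (n * (k + 1)) / σ ^ (1 / 4 : ℝ)))

end Pool.Agent.N378.SK
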